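import Pool.Agent.Work.MP_dbe197_lc.Stmts

/-!
# MP_dbe197_lc : [P5] no new branches
-/

namespace Pool.Agent.Work.MP_dbe197_lc

open Set Cardinal RO MM

namespace App

variable {L : Type} [LinearOrder L]

/-- making a name disjoint on the levels -/
theorem level {H W : Type} [LinearOrder H] {δ : L}
    {R : H × W → H × W → RO (MM L)} {d : H × W → RO (MM L)}
    (hd : Br R d) (m : MM L) (ν : H × W → RO (MM L)) (hν : ∀ x, DepM (Iio δ) (ν x))
    (hm : m ∈ beq d ν) :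
    ∃ ν' : H × W → RO (MM L), (∀ x, DepM (Iio δ) (ν' x)) ∧
      (∀ x y, x.1 = y.1 → x ≠ y → ν' x ⊓ ν' y = ⊥) ∧ m ∈ beq d ν' := by
  refine ⟨fun x => ν x ⊓ ⨅ y : H × W, ⨅ (_ : y.1 = x.1 ∧ y ≠ x), (ν y)ᶜ, ?_, ?_, ?_⟩
  · intro x
    apply DepM.inf (hν x)
    apply DepM.iInf
    intro y
    apply DepM.iInf
    intro _
    exact DepM.compl (isLowerSet_Iio δ) (hν y)
  · intro x y hxy hne
    rw [eq_bot_iff]
    intro p hp
    obtain ⟨h1, h2⟩ := mem_inf.1 hp
    have h3 := (mem_inf.1 h1).1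
    have h4 := (mem_inf.1 h2).2
    have h5 := mem_iInf.1 (mem_iInf.1 h4 x) ⟨hxy, hne⟩
    exact absurd h3 (not_mem_of_compl h5)
  · rw [beq, mem_iInf] at hm ⊢
    intro x
    rw [mem_sup]
    intro q hq
    obtain ⟨r, hr, h | h⟩ := mem_sup.1 (hm x) q hq
    · obtain ⟨h1, h2⟩ := mem_inf.1 h
      refine ⟨r, hr, Or.inl (mem_inf.2 ⟨h1, mem_inf.2 ⟨h2, ?_⟩⟩)⟩
      rw [mem_iInf]
      intro y
      rw [mem_iInf]
      rintro ⟨hy1, hy2⟩
      rw [RO.mem_compl]
      intro q' hq' hνy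
      have h3 : d y ⊓ d x = ⊥ := hd.uniq y x hy1 hy2
      obtain ⟨r', hr', h' | h'⟩ := mem_sup.1 (hm y) q' (hq'.trans (hr.trans hq))
      · have h4 : r' ∈ d y ⊓ d x := mem_inf.2 ⟨(mem_inf.1 h').1, mem_down (hr'.trans hq') h1⟩
        rw [h3] at h4
        exact not_mem_bot _ h4
      · exact not_mem_of_compl (mem_inf.1 h').2 (mem_down hr' hνy)
    · obtain ⟨h1, h2⟩ := mem_inf.1 h
      refine ⟨r, hr, Or.inr (mem_inf.2 ⟨h1, ?_⟩)⟩
      rw [RO.mem_compl] at h2 ⊢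
      intro q' hq' h3
      exact h2 q' hq' (mem_inf.1 h3).1

/-- a condition is the union of its restrictions -/
theorem restr_ov_restr (S : Set L) (q : TT L) : (q.restr S).ov (q.restr Sᶜ) = q := by
  ext1 α ξ
  by_cases h : α ∈ S
  · rcases e : q.val α ξ with _ | v
    · have h1 : (q.restr S).val α ξ = none := by rw [TT.restr_of_mem h, e]
      rw [TT.ov_of_none h1, TT.restr_of_not_mem (by simpa using h)]
    · have h1 : (q.restr S).val α ξ = some v := by rw [TT.restr_of_mem h, e]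
      rw [TT.ov_of_some h1]
  · have h1 : (q.restr S).val α ξ = none := TT.restr_of_not_mem h ξ
    rw [TT.ov_of_none h1, TT.restr_of_mem (by simpa using h)]

/-- conditions supported below `δ` -/
abbrev Hd (δ : L) (q : TT L) : Type := {h : TT L // h.supp ⊆ Iio δ ∧ h ≤ q.restr (Iio δ)}

/-- conditions supported above `δ` -/
abbrev Tl (δ : L) (q : TT L) : Type := {r : TT L // r.supp ⊆ (Iio δ)ᶜ ∧ r ≤ q.restr (Iio δ)ᶜ}

theorem val_none {S : Set L} {h : TT L} (hs : h.supp ⊆ S) {α : L} (hα : α ∉ S) (ξ : O1) :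
    h.val α ξ = none := by
  by_contra hcon
  exact hα (hs ⟨ξ, hcon⟩)

theorem compat_disj {S : Set L} {h r : TT L} (hs : h.supp ⊆ S) (hr : r.supp ⊆ Sᶜ) :
    TT.Compat h r := by
  intro α ξ v w hv hw
  exfalso
  by_cases hα : α ∈ S
  · rw [val_none hr (by simpa using hα)] at hw
    simp at hw
  · rw [val_none hs hα] at hv
    simp at hv

theorem ov_mono {S : Set L} {h r h' r' : TT L} (hs : h'.supp ⊆ S) (hr : r'.supp ⊆ Sᶜ)
    (h1 : h' ≤ h) (h2 : r' ≤ r) : h'.ov r' ≤ h.ov r :=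
  TT.le_ov ((TT.ov_le_left _ _).trans h1) ((TT.ov_le_right (compat_disj hs hr)).trans h2)

theorem restr_ov_left {S : Set L} {h r : TT L} (hs : h.supp ⊆ S) :
    (h.ov r).restr S ≤ h := by
  intro α ξ v hv
  have hα : α ∈ S := by
    by_contra hα
    rw [val_none hs hα] at hv
    simp at hv
  exact TT.restr_eq_some.2 ⟨hα, TT.ov_of_some hv⟩

theorem restr_ov_right {S : Set L} {h r : TT L} (hs : h.supp ⊆ S) (hr : r.supp ⊆ Sᶜ) :
    (h.ov r).restr Sᶜ ≤ r := by
  intro α ξ v hv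
  have hα : α ∈ Sᶜ := by
    by_contra hα
    rw [val_none hr hα] at hv
    simp at hv
  refine TT.restr_eq_some.2 ⟨hα, ?_⟩
  rw [TT.ov_of_none (val_none hs (by simpa using hα) ξ), hv]

/-- the forbidden configuration -/
def PP {H W : Type} [LinearOrder H] (δ : L) (d : H × W → RO (MM L)) (m0 : MM L)
    (h : Hd δ m0.q) (r0 r1 : Tl δ m0.q) (γ : H) : Prop :=
  ∀ n0 n1 : MM L, n0 ≤ ⟨m0.p, h.1.ov r0.1⟩ → n1 ≤ ⟨m0.p, h.1.ov r1.1⟩ →
    res (Iio δ) n0 = res (Iio δ) n1 → ∀ z : H × W, γ ≤ z.1 → ¬ (n0 ∈ d z ∧ n1 ∈ d z)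

open Classical in
/-- the constant function `false` on `{δ} × {0, …, k - 1}` -/
noncomputable def col (δ : L) (k : ℕ) : Fn (L × ℕ) Bool :=
  ⟨fun x => if x.1 = δ ∧ x.2 < k then some false else none, by
    apply ((Set.finite_singleton δ).prod (Set.finite_Iio k)).subset
    intro x hx
    by_contra hcon
    apply hx
    rw [if_neg]
    rintro ⟨h1, h2⟩
    exact hcon ⟨h1, h2⟩⟩

theorem col_f_of_ne {δ α : L} {k n : ℕ} (h : α ≠ δ) : (col δ k).f (α, n) = none := by
  simp [col, h]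

theorem col_f_of_lt {δ : L} {k n : ℕ} (h : n < k) : (col δ k).f (δ, n) = some false := by
  simp [col, h]

theorem col_f_of_ge {δ : L} {k n : ℕ} (h : k ≤ n) : (col δ k).f (δ, n) = none := by
  simp [col, h]

omit [LinearOrder L] in
theorem exists_bound (p : Fn (L × ℕ) Bool) (δ : L) : ∃ k, ∀ n, k ≤ n → p.f (δ, n) = none := by
  have h1 : {n | (δ, n) ∈ p.dom}.Finite := by
    apply p.dom_fin.preimage (f := fun n : ℕ => (δ, n))
    intro a _ b _ hab
    exact (Prod.mk.inj hab).2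
  obtain ⟨k, hk⟩ := h1.bddAbove
  refine ⟨k + 1, fun n hn => ?_⟩
  by_contra hcon
  have : n ≤ k := hk hcon
  omega

end App

open App

theorem claimApp (hS : ClaimAppS) (hF : ClaimFusion) (hM : ClaimMixT) : ClaimApp := by
  intro L _ H W _ δ R d m0 hsit
  by_contra hcon
  have hno : ∀ m ≤ m0, ∀ ν : H × W → RO (MM L), (∀ x, DepM (Iio δ) (ν x)) → m ∉ beq d ν := by
    intro m hm ν hν hmem
    obtain ⟨ν', h1, h2, h3⟩ := level hsit.hd m ν hν hmem
    exact hcon ⟨m, hm, ν', h1, h2, h3⟩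
  have hS' := hS L H W δ R d m0 hsit hno
  obtain ⟨h, r, γ, h0, h1, r0, r1, hP⟩ := hF (Hd δ m0.q) (Tl δ m0.q) H (PP δ d m0)
    (by
      intro h h' r0 r0' r1 r1' γ hPP hh hr0 hr1 n0 n1 hn0 hn1
      apply hPP n0 n1
      · exact hn0.trans (mk_le_mk le_rfl (ov_mono h'.2.1 r0'.2.1 hh hr0))
      · exact hn1.trans (mk_le_mk le_rfl (ov_mono h'.2.1 r1'.2.1 hh hr1)))
    (by
      intro h r
      have hq : h.1.ov r.1 ≤ m0.q := by
        have := ov_mono h.2.1 r.2.1 h.2.2 r.2.2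
        rwa [restr_ov_restr] at this
      obtain ⟨q0, hq0, q1, hq1, hqe, γ, hγ⟩ := hS' _ hq
      have ha : ∀ q' : TT L, q' ≤ h.1.ov r.1 → q'.restr (Iio δ) ≤ h.1 := fun q' hq' =>
        (TT.restr_mono hq').trans (restr_ov_left h.2.1)
      have hb : ∀ q' : TT L, q' ≤ h.1.ov r.1 → q'.restr (Iio δ)ᶜ ≤ r.1 := fun q' hq' =>
        (TT.restr_mono hq').trans (restr_ov_right h.2.1 r.2.1)
      have hc : ∀ (S : Set L) (q' : TT L), (q'.restr S).supp ⊆ S := fun S q' => by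
        rw [TT.restr_supp]
        exact inter_subset_left
      refine ⟨⟨q0.restr (Iio δ), hc _ _, (ha q0 hq0).trans h.2.2⟩, ha q0 hq0,
        ⟨q0.restr (Iio δ)ᶜ, hc _ _, (hb q0 hq0).trans r.2.2⟩, hb q0 hq0,
        ⟨q1.restr (Iio δ)ᶜ, hc _ _, (hb q1 hq1).trans r.2.2⟩, hb q1 hq1, γ, ?_⟩
      intro n0 n1 hn0 hn1
      apply hγ n0 n1
      · have hn0' : n0 ≤ ⟨m0.p, (q0.restr (Iio δ)).ov (q0.restr (Iio δ)ᶜ)⟩ := hn0
        rwa [restr_ov_restr] at hn0'
      · have hn1' : n1 ≤ ⟨m0.p, (q0.restr (Iio δ)).ov (q1.restr (Iio δ)ᶜ)⟩ := hn1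
        rwa [hqe, restr_ov_restr] at hn1')
    ⟨m0.q.restr (Iio δ), by rw [TT.restr_supp]; exact inter_subset_left, le_rfl⟩
    ⟨m0.q.restr (Iio δ)ᶜ, by rw [TT.restr_supp]; exact inter_subset_left, le_rfl⟩
  have h0' : (h 0).1 ≤ m0.q.restr (Iio δ) := h0
  have r0' : (r []).1 ≤ m0.q.restr (Iio δ)ᶜ := r0
  obtain ⟨hw, hw1, hw2⟩ := TT.exists_lim (fun n => (h n).1) (fun n => h1 n)
  have hwsupp : hw.supp ⊆ Iio δ := by
    rintro α ⟨ξ, hα⟩
    obtain ⟨v, hv⟩ := Option.ne_none_iff_exists'.1 hα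
    obtain ⟨n, hn⟩ := hw2 α ξ v hv
    exact (h n).2.1 ⟨ξ, by rw [hn]; simp⟩
  obtain ⟨q, hq1, hq2⟩ := hM L δ (fun s => (r s).1) hw (fun s b => r1 s b) hwsupp
  have hq1' : ∀ α ξ v, hw.val α ξ = some v → q.val α ξ = some v := by
    intro α ξ v hv
    rw [← hq1] at hv
    exact (TT.restr_eq_some.1 hv).2
  obtain ⟨γs, hγs⟩ := hsit.hH (range γ) (countable_range γ)
  have hm1 : (⟨m0.p, q⟩ : MM L) ≤ m0 := by
    refine ⟨le_rfl, fun α ξ v hv => ?_⟩
    by_cases hα : α < δ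
    · refine ⟨v, ?_, fun _ _ => rfl⟩
      apply hq1'
      apply hw1 0
      apply h0'
      exact TT.restr_eq_some.2 ⟨hα, hv⟩
    · obtain ⟨w, hw3, hw4⟩ := hq2 [] α ξ v (not_lt.1 hα)
        (r0' α ξ v (TT.restr_eq_some.2 ⟨by simpa using hα, hv⟩))
      refine ⟨w, hw3, fun c _ => hw4 c ?_⟩
      intro i hi
      simp at hi
  have hunb := mem_down hm1 (hsit.unb γs)
  obtain ⟨m', hm', z, hz⟩ := mem_iSup.1 hunb _ le_rfl
  obtain ⟨m, hm, hzγ, hmz⟩ := mem_iSup.1 hz _ le_rfl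
  have hmm1 : m ≤ ⟨m0.p, q⟩ := hm.trans hm'
  obtain ⟨k, hk⟩ := exists_bound m.p δ
  set p' := m.p.union (col δ k) with hp'
  have hp'none : p'.f (δ, k) = none := by
    rw [hp', Fn.union_f_of_none (hk k le_rfl)]
    exact col_f_of_ge le_rfl
  have hp'some : ∀ i, i < k → ∃ v, p'.f (δ, i) = some v := by
    intro i hi
    rcases e : m.p.f (δ, i) with _ | v
    · exact ⟨false, by rw [hp', Fn.union_f_of_none e, col_f_of_lt hi]⟩
    · exact ⟨v, by rw [hp', Fn.union_f_of_some e]⟩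
  let t : List Bool := List.ofFn (fun i : Fin k => (p'.f (δ, i)).getD false)
  have ht : t.length = k := by simp [t]
  have hti : ∀ i (hi : i < t.length), p'.f (δ, i) = some t[i] := by
    intro i hi
    obtain ⟨v, hv⟩ := hp'some i (by rwa [ht] at hi)
    simp only [t, List.getElem_ofFn]
    rw [hv]
    simp
  let N : Bool → MM L := fun b => ⟨p'.union (Fn.single (δ, k) b), m.q⟩
  have hN : ∀ b, N b ≤ m := fun b =>
    mk_le_mk ((Fn.union_le_left _ _).trans (Fn.union_le_left _ _)) le_rfl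
  have hNk : ∀ b, (N b).p.f (δ, k) = some b := by
    intro b
    simp only [N]
    rw [Fn.union_f_of_none hp'none]
    exact Fn.single_f_self _ _
  have hNext : ∀ b, ∀ c ∈ cone (N b).p, Extends c δ (t ++ [b]) := by
    intro b c hc i hi
    rw [List.length_append, List.length_singleton] at hi
    by_cases hik : i < t.length
    · rw [List.getElem_append_left hik]
      apply hc
      simp only [N]
      exact Fn.union_f_of_some (hti i hik)
    · have hik' : i = t.length := by omega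
      subst hik'
      rw [List.getElem_append_right le_rfl]
      simp only [Nat.sub_self, List.getElem_cons_zero]
      apply hc
      rw [ht]
      exact hNk b
  have hNle : ∀ b, N b ≤ ⟨m0.p, (h (t.length + 1)).1.ov (r (t ++ [b])).1⟩ := by
    intro b
    refine ⟨(hN b).1.trans hmm1.1, fun α ξ v hv => ?_⟩
    rcases e : (h (t.length + 1)).1.val α ξ with _ | v'
    · simp only at hv
      rw [TT.ov_of_none e] at hv
      have hα : δ ≤ α := by
        by_contra hα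
        rw [val_none (r (t ++ [b])).2.1 (by simpa using hα)] at hv
        simp at hv
      obtain ⟨w, hw3, hw4⟩ := hq2 (t ++ [b]) α ξ v hα hv
      obtain ⟨v'', hv1, hv2⟩ := hmm1.2 α ξ w hw3
      refine ⟨v'', hv1, fun c hc => ?_⟩
      rw [hv2 c (cone_mono (hN b).1 hc)]
      exact hw4 c (hNext b c hc)
    · simp only at hv
      rw [TT.ov_of_some e] at hv
      obtain rfl := Option.some.inj hv
      obtain ⟨v'', hv1, hv2⟩ := hmm1.2 α ξ v' (hq1' α ξ v' (hw1 _ α ξ v' e))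
      exact ⟨v'', hv1, fun c hc => hv2 c (cone_mono (hN b).1 hc)⟩
  have hres : res (Iio δ) (N false) = res (Iio δ) (N true) := by
    apply MM.ext'
    · ext1 x
      by_cases hx : x ∈ cyl (Iio δ)
      · simp only [res, N, Fn.restr_f_of_mem hx]
        have hne : x ≠ (δ, k) := by
          rintro rfl
          exact lt_irrefl δ hx
        rcases e : p'.f x with _ | v
        · rw [Fn.union_f_of_none e, Fn.union_f_of_none e, Fn.single_f_ne hne,
            Fn.single_f_ne hne]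
        · rw [Fn.union_f_of_some e, Fn.union_f_of_some e]
      · simp only [res, Fn.restr_f_of_not_mem hx]
    · rfl
  refine hP t (N false) (N true) (hNle false) (hNle true) hres z ?_
    ⟨mem_down (hN false) hmz, mem_down (hN true) hmz⟩
  exact ((hγs _ (mem_range_self t)).trans hzγ).le

end Pool.Agent.Work.MP_dbe197_lc
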