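import Pool.Agent.Work.MP_dbe197_lc.Defs

/-!
# Boolean valued sets

`BSet B` is the Boolean valued universe over the complete Boolean algebra `B`.
-/

namespace Pool.Agent.Work.MP_dbe197_lc

open Set

/-- Names for sets over `B`. -/
inductive BSet (B : Type) : Type 1
  | mk (ι : Type) (A : ι → BSet B) (b : ι → B) : BSet B

namespace BSet

variable {B : Type} [CompleteBooleanAlgebra B]

/-- Value of `x = y`. -/
def eqv : BSet B → BSet B → B
  | mk _ A b, mk _ A' b' =>
    (⨅ i, (b i)ᶜ ⊔ ⨆ j, b' j ⊓ eqv (A i) (A' j)) ⊓ ⨅ j, (b' j)ᶜ ⊔ ⨆ i, b i ⊓ eqv (A i) (A' j)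

/-- Value of `x ∈ y`. -/
def mem (x : BSet B) : BSet B → B
  | mk _ A b => ⨆ j, b j ⊓ eqv x (A j)

theorem eqv_mk (ι κ : Type) (A : ι → BSet B) (b : ι → B) (A' : κ → BSet B) (b' : κ → B) :
    eqv (mk ι A b) (mk κ A' b') =
      (⨅ i, (b i)ᶜ ⊔ ⨆ j, b' j ⊓ eqv (A i) (A' j)) ⊓
        ⨅ j, (b' j)ᶜ ⊔ ⨆ i, b i ⊓ eqv (A i) (A' j) := by
  rw [eqv]

theorem mem_mk (x : BSet B) (ι : Type) (A : ι → BSet B) (b : ι → B) :
    mem x (mk ι A b) = ⨆ j, b j ⊓ eqv x (A j) := rfl

theorem eqv_refl (x : BSet B) : eqv x x = ⊤ := by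
  induction x with
  | mk ι A b ih =>
    rw [eqv_mk]
    have h : ∀ i, (b i)ᶜ ⊔ ⨆ j, b j ⊓ eqv (A i) (A j) = ⊤ := by
      intro i
      rw [eq_top_iff, ← compl_sup_eq_top (x := b i)]
      refine sup_le_sup le_rfl ?_
      exact le_trans (by rw [ih i, inf_top_eq]) (le_iSup (fun j => b j ⊓ eqv (A i) (A j)) i)
    have h' : ∀ j, (b j)ᶜ ⊔ ⨆ i, b i ⊓ eqv (A i) (A j) = ⊤ := by
      intro i
      rw [eq_top_iff, ← compl_sup_eq_top (x := b i)]
      refine sup_le_sup le_rfl ?_
      exact le_trans (by rw [ih i, inf_top_eq]) (le_iSup (fun j => b j ⊓ eqv (A j) (A i)) i)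
    simp [h, h']

theorem eqv_symm (x y : BSet B) : eqv x y = eqv y x := by
  induction x generalizing y with
  | mk ι A b ih =>
    cases y with
    | mk κ A' b' =>
      rw [eqv_mk, eqv_mk, inf_comm]
      congr 1
      · refine iInf_congr fun j => ?_
        congr 1
        refine iSup_congr fun i => ?_
        rw [ih]
      · refine iInf_congr fun j => ?_
        congr 1
        refine iSup_congr fun i => ?_
        rw [ih]

/-- From `x = y` get that every element of `x` is an element of `y`. -/
theorem eqv_left {ι κ : Type} (A : ι → BSet B) (b : ι → B) (A' : κ → BSet B) (b' : κ → B)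
    (i : ι) : eqv (mk ι A b) (mk κ A' b') ⊓ b i ≤ ⨆ j, b' j ⊓ eqv (A i) (A' j) := by
  rw [eqv_mk]
  refine le_trans (inf_le_inf_right _ (inf_le_left.trans (iInf_le _ i))) ?_
  rw [inf_sup_right, compl_inf_eq_bot, bot_sup_eq]
  exact inf_le_left

theorem eqv_right {ι κ : Type} (A : ι → BSet B) (b : ι → B) (A' : κ → BSet B) (b' : κ → B)
    (j : κ) : eqv (mk ι A b) (mk κ A' b') ⊓ b' j ≤ ⨆ i, b i ⊓ eqv (A i) (A' j) := by
  rw [eqv_mk]
  refine le_trans (inf_le_inf_right _ (inf_le_right.trans (iInf_le _ j))) ?_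
  rw [inf_sup_right, compl_inf_eq_bot, bot_sup_eq]
  exact inf_le_left

theorem eqv_trans (x y z : BSet B) : eqv x y ⊓ eqv y z ≤ eqv x z := by
  induction x generalizing y z with
  | mk ι A b ih =>
    cases y with
    | mk κ A' b' =>
      cases z with
      | mk μ A'' b'' =>
        rw [eqv_mk ι μ]
        refine le_inf (le_iInf fun i => ?_) (le_iInf fun k => ?_)
        · rw [sup_comm, ← himp_eq, le_himp_iff]
          calc eqv (mk ι A b) (mk κ A' b') ⊓ eqv (mk κ A' b') (mk μ A'' b'') ⊓ b i
              ≤ (⨆ j, b' j ⊓ eqv (A i) (A' j)) ⊓ eqv (mk κ A' b') (mk μ A'' b'') := by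
                refine le_inf ?_ (inf_le_left.trans inf_le_right)
                exact le_trans (inf_le_inf_right _ inf_le_left) (eqv_left A b A' b' i)
            _ ≤ _ := by
                rw [iSup_inf_eq]
                refine iSup_le fun j => ?_
                calc b' j ⊓ eqv (A i) (A' j) ⊓ eqv (mk κ A' b') (mk μ A'' b'')
                    ≤ eqv (A i) (A' j) ⊓ ⨆ k, b'' k ⊓ eqv (A' j) (A'' k) := by
                      refine le_inf (inf_le_left.trans inf_le_right) ?_
                      refine le_trans ?_ (eqv_left A' b' A'' b'' j)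
                      exact le_inf inf_le_right (inf_le_left.trans inf_le_left)
                  _ ≤ _ := by
                      rw [inf_iSup_eq]
                      refine iSup_mono fun k => ?_
                      refine le_inf (inf_le_right.trans inf_le_left) ?_
                      refine le_trans ?_ (ih i (A' j) (A'' k))
                      exact le_inf inf_le_left (inf_le_right.trans inf_le_right)
        · rw [sup_comm, ← himp_eq, le_himp_iff]
          calc eqv (mk ι A b) (mk κ A' b') ⊓ eqv (mk κ A' b') (mk μ A'' b'') ⊓ b'' k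
              ≤ (⨆ j, b' j ⊓ eqv (A' j) (A'' k)) ⊓ eqv (mk ι A b) (mk κ A' b') := by
                refine le_inf ?_ (inf_le_left.trans inf_le_left)
                exact le_trans (inf_le_inf_right _ inf_le_right) (eqv_right A' b' A'' b'' k)
            _ ≤ _ := by
                rw [iSup_inf_eq]
                refine iSup_le fun j => ?_
                calc b' j ⊓ eqv (A' j) (A'' k) ⊓ eqv (mk ι A b) (mk κ A' b')
                    ≤ eqv (A' j) (A'' k) ⊓ ⨆ i, b i ⊓ eqv (A i) (A' j) := by
                      refine le_inf (inf_le_left.trans inf_le_right) ?_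
                      refine le_trans ?_ (eqv_right A b A' b' j)
                      exact le_inf inf_le_right (inf_le_left.trans inf_le_left)
                  _ ≤ _ := by
                      rw [inf_iSup_eq]
                      refine iSup_mono fun i => ?_
                      refine le_inf (inf_le_right.trans inf_le_left) ?_
                      refine le_trans ?_ (ih i (A' j) (A'' k))
                      exact le_inf (inf_le_right.trans inf_le_right) inf_le_left

theorem mem_congr_left (x y z : BSet B) : eqv x y ⊓ mem x z ≤ mem y z := by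
  cases z with
  | mk ι A b =>
    rw [mem_mk, mem_mk, inf_iSup_eq]
    refine iSup_mono fun i => ?_
    refine le_inf (inf_le_right.trans inf_le_left) ?_
    rw [eqv_symm x y]
    refine le_trans ?_ (eqv_trans y x (A i))
    exact le_inf inf_le_left (inf_le_right.trans inf_le_right)

theorem mem_congr_right (x y z : BSet B) : eqv x y ⊓ mem z x ≤ mem z y := by
  cases x with
  | mk ι A b =>
    cases y with
    | mk κ A' b' =>
      rw [mem_mk, mem_mk, inf_iSup_eq]
      refine iSup_le fun i => ?_
      calc eqv (mk ι A b) (mk κ A' b') ⊓ (b i ⊓ eqv z (A i))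
          ≤ (⨆ j, b' j ⊓ eqv (A i) (A' j)) ⊓ eqv z (A i) := by
            refine le_inf ?_ (inf_le_right.trans inf_le_right)
            refine le_trans ?_ (eqv_left A b A' b' i)
            exact le_inf inf_le_left (inf_le_right.trans inf_le_left)
        _ ≤ _ := by
            rw [iSup_inf_eq]
            refine iSup_mono fun j => ?_
            refine le_inf (inf_le_left.trans inf_le_left) ?_
            refine le_trans ?_ (eqv_trans z (A i) (A' j))
            exact le_inf inf_le_right (inf_le_left.trans inf_le_right)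

theorem mem_fam {ι : Type} (A : ι → BSet B) (b : ι → B) (i : ι) : b i ≤ mem (A i) (mk ι A b) := by
  rw [mem_mk]
  refine le_trans ?_ (le_iSup _ i)
  rw [eqv_refl, inf_top_eq]

/-- Bounded quantification, existential. -/
theorem iSup_mem {ι : Type} (A : ι → BSet B) (b : ι → B) (φ : BSet B → B)
    (hφ : ∀ x y, eqv x y ⊓ φ x ≤ φ y) :
    ⨆ z, mem z (mk ι A b) ⊓ φ z = ⨆ i, b i ⊓ φ (A i) := by
  apply le_antisymm
  · refine iSup_le fun z => ?_
    rw [mem_mk, iSup_inf_eq]
    refine iSup_mono fun i => ?_
    refine le_inf (inf_le_left.trans inf_le_left) ?_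
    refine le_trans ?_ (hφ z (A i))
    exact le_inf (inf_le_left.trans inf_le_right) inf_le_right
  · refine iSup_le fun i => le_trans ?_ (le_iSup _ (A i))
    exact inf_le_inf_right _ (mem_fam A b i)

/-- Bounded quantification, universal. -/
theorem iInf_mem {ι : Type} (A : ι → BSet B) (b : ι → B) (φ : BSet B → B)
    (hφ : ∀ x y, eqv x y ⊓ φ x ≤ φ y) :
    ⨅ z, (mem z (mk ι A b))ᶜ ⊔ φ z = ⨅ i, (b i)ᶜ ⊔ φ (A i) := by
  apply le_antisymm
  · refine le_iInf fun i => le_trans (iInf_le _ (A i)) ?_
    exact sup_le_sup (compl_le_compl (mem_fam A b i)) le_rfl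
  · refine le_iInf fun z => ?_
    rw [sup_comm, ← himp_eq, le_himp_iff, mem_mk, inf_iSup_eq]
    refine iSup_le fun i => ?_
    have h1 : (⨅ i, (b i)ᶜ ⊔ φ (A i)) ⊓ b i ≤ φ (A i) := by
      refine le_trans (inf_le_inf_right _ (iInf_le _ i)) ?_
      rw [inf_sup_right, compl_inf_eq_bot, bot_sup_eq]
      exact inf_le_left
    calc (⨅ i, (b i)ᶜ ⊔ φ (A i)) ⊓ (b i ⊓ eqv z (A i))
        ≤ eqv (A i) z ⊓ φ (A i) := by
          refine le_inf ?_ ?_
          · rw [eqv_symm]; exact inf_le_right.trans inf_le_right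
          · exact le_trans (inf_le_inf_left _ inf_le_left) h1
      _ ≤ φ z := hφ _ _

/-- Value of `x ⊆ y`. -/
def sub (x y : BSet B) : B := ⨅ z, (mem z x)ᶜ ⊔ mem z y

theorem sub_mk {ι : Type} (A : ι → BSet B) (b : ι → B) (y : BSet B) :
    sub (mk ι A b) y = ⨅ i, (b i)ᶜ ⊔ mem (A i) y :=
  iInf_mem A b (fun z => mem z y) fun _ _ => mem_congr_left _ _ _

/-- Extensionality. -/
theorem eqv_eq (x y : BSet B) : eqv x y = sub x y ⊓ sub y x := by
  cases x with
  | mk ι A b =>
    cases y with
    | mk κ A' b' =>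
      rw [sub_mk, sub_mk, eqv_mk]
      congr 1
      refine iInf_congr fun j => ?_
      rw [mem_mk]
      congr 1
      refine iSup_congr fun i => ?_
      rw [eqv_symm]

end BSet

end Pool.Agent.Work.MP_dbe197_lc
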