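import Pool.Agent.Work.MP_dbe197_lc.Ext

/-!
# Statements of the items, part A (the iteration over an arbitrary base algebra)

Algebras of subsets of `XX 𝔸 L J = Uf 𝔸 × (L × J → Finset ℕ)`. The value of the statement
'`n` belongs to the generic real with index `(α, j)`' is the set of all points `x` such that `n`
belongs to the finite set `x.2 (α, j)`.
-/

namespace Pool.Agent.Work.MP_dbe197_lc

open Set Cardinal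

/-- `L` is (the well-ordered set of order type) a regular uncountable cardinal. -/
structure RegL (L : Type) [LinearOrder L] : Prop where
  reg : (#L).IsRegular
  unc : ℵ₀ < #L
  seg : ∀ β : L, #(Iio β) < #L

/-! ## Ultrafilters of a Boolean algebra -/

/-- Ultrafilters of a Boolean algebra. -/
structure Uf (A : Type) [BooleanAlgebra A] where
  s : Set A
  top_mem : ⊤ ∈ s
  bot_mem : ⊥ ∉ s
  inf_mem : ∀ a b, a ∈ s → b ∈ s → a ⊓ b ∈ s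
  up : ∀ a b, a ≤ b → a ∈ s → b ∈ s
  ultra : ∀ a, a ∈ s ∨ aᶜ ∈ s

def ClaimUfEx : Prop := ∀ (A : Type) [BooleanAlgebra A] (a : A), a ≠ ⊥ → ∃ u : Uf A, a ∈ u.s

/-! ## Algebras of sets -/

section SetAlg

variable {X : Type}

/-- `𝓑` is an algebra of subsets of `X`. -/
structure IsAlg (𝓑 : Set (Set X)) : Prop where
  univ : Set.univ ∈ 𝓑
  compl : ∀ b ∈ 𝓑, bᶜ ∈ 𝓑
  inter : ∀ b ∈ 𝓑, ∀ c ∈ 𝓑, b ∩ c ∈ 𝓑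

/-- Every subfamily of `𝓑` has a least upper bound in `𝓑`. -/
def CompleteIn (𝓑 : Set (Set X)) : Prop :=
  ∀ 𝓢 ⊆ 𝓑, ∃ s ∈ 𝓑, (∀ t ∈ 𝓢, t ⊆ s) ∧ ∀ b ∈ 𝓑, (∀ t ∈ 𝓢, t ⊆ b) → s ⊆ b

/-- `𝓓` is dense in `𝓑`. -/
def DenseIn (𝓓 𝓑 : Set (Set X)) : Prop :=
  𝓓 ⊆ 𝓑 ∧ ∀ b ∈ 𝓑, b.Nonempty → ∃ d ∈ 𝓓, d.Nonempty ∧ d ⊆ b

/-- `𝓑` is a regular subalgebra of `𝓑'`: every nonempty element of `𝓑'` has a reduction. -/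
def Reg (𝓑 𝓑' : Set (Set X)) : Prop :=
  𝓑 ⊆ 𝓑' ∧ ∀ b' ∈ 𝓑', b'.Nonempty → ∃ b ∈ 𝓑, b.Nonempty ∧
    ∀ c ∈ 𝓑, c.Nonempty → c ⊆ b → (c ∩ b').Nonempty

/-- Chain condition for algebras of sets. -/
def CCs (L : Type) (𝓑 : Set (Set X)) : Prop :=
  ∀ f : L → Set X, (∀ i, f i ∈ 𝓑 ∧ (f i).Nonempty) → ∃ i j, i ≠ j ∧ (f i ∩ f j).Nonempty

/-- `Z` is a name in `𝓑`. -/
def Nm (𝓑 : Set (Set X)) (Z : ℕ → Set X) : Prop := ∀ k, Z k ∈ 𝓑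

/-- On `b` the name `Z` is an infinite set. -/
def InfOn (𝓑 : Set (Set X)) (b : Set X) (Z : ℕ → Set X) : Prop :=
  ∀ c ∈ 𝓑, c.Nonempty → c ⊆ b → ∀ n, ∃ k, n ≤ k ∧ (c ∩ Z k).Nonempty

/-- `Z` is almost contained in `Z'`. -/
def SubIn (𝓑 : Set (Set X)) (Z Z' : ℕ → Set X) : Prop :=
  ∀ b ∈ 𝓑, b.Nonempty → ∃ c ∈ 𝓑, c.Nonempty ∧ c ⊆ b ∧ ∃ n, ∀ k, n ≤ k → c ∩ Z k ⊆ Z' k

/-- `Z` and `Z'` are different. -/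
def DiffIn (𝓑 : Set (Set X)) (Z Z' : ℕ → Set X) : Prop :=
  ∀ b ∈ 𝓑, b.Nonempty → ∃ k, (b ∩ (Z k \ Z' k)).Nonempty ∨ (b ∩ (Z' k \ Z k)).Nonempty

/-- `m` splits all infinite sets with names in `𝓑₀` (as computed in `𝓑`). -/
def Coh (𝓑₀ 𝓑 : Set (Set X)) (m : ℕ → Set X) : Prop :=
  ∀ T, Nm 𝓑₀ T → ∀ b ∈ 𝓑, InfOn 𝓑 b T →
    InfOn 𝓑 b (fun k => T k ∩ m k) ∧ InfOn 𝓑 b (fun k => T k \ m k)

/-- `𝓕` is (a name for) a filter of infinite sets containing the cofinite sets. -/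
structure IsFil (𝓑 : Set (Set X)) (𝓕 : Set (ℕ → Set X)) : Prop where
  nm : ∀ Z ∈ 𝓕, Nm 𝓑 Z
  inf : ∀ Z ∈ 𝓕, InfOn 𝓑 Set.univ Z
  inter : ∀ Z ∈ 𝓕, ∀ Z' ∈ 𝓕, (fun k => Z k ∩ Z' k) ∈ 𝓕
  up : ∀ Z ∈ 𝓕, ∀ Z', Nm 𝓑 Z' → SubIn 𝓑 Z Z' → Z' ∈ 𝓕
  univ : (fun _ => Set.univ) ∈ 𝓕

/-- `𝓕` decides all names. -/
def IsUlt (𝓑 : Set (Set X)) (𝓕 : Set (ℕ → Set X)) : Prop :=
  ∀ Y, Nm 𝓑 Y → ∃ b ∈ 𝓑, (fun k => Y k ∪ bᶜ) ∈ 𝓕 ∧ (fun k => (Y k)ᶜ ∪ b) ∈ 𝓕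

/-- The name of the filter of cofinite sets. -/
def Cof (𝓑 : Set (Set X)) : Set (ℕ → Set X) := {Z | Nm 𝓑 Z ∧ SubIn 𝓑 (fun _ => Set.univ) Z}

end SetAlg

/-- Completion inside a complete field `𝓔` of sets (Zorn). -/
def ClaimCompl : Prop := ∀ (X : Type) (𝓔 𝓐 : Set (Set X)), IsAlg 𝓔 →
  (∀ 𝓢 ⊆ 𝓔, ⋃₀ 𝓢 ∈ 𝓔) → IsAlg 𝓐 → 𝓐 ⊆ 𝓔 →
  ∃ 𝓑, 𝓐 ⊆ 𝓑 ∧ 𝓑 ⊆ 𝓔 ∧ IsAlg 𝓑 ∧ DenseIn 𝓐 𝓑 ∧ CompleteIn 𝓑

/-- Transfer along regular extensions. -/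
def ClaimReg : Prop := ∀ (X : Type) (𝓐 𝓑 𝓒 : Set (Set X)), IsAlg 𝓐 → IsAlg 𝓑 → IsAlg 𝓒 →
  (Reg 𝓐 𝓑 → Reg 𝓑 𝓒 → Reg 𝓐 𝓒) ∧ (DenseIn 𝓐 𝓑 → Reg 𝓐 𝓑) ∧
  (∀ Z, Nm 𝓐 Z → Reg 𝓐 𝓑 → InfOn 𝓐 univ Z → InfOn 𝓑 univ Z) ∧
  (∀ Z Z', Nm 𝓐 Z → Nm 𝓐 Z' → Reg 𝓐 𝓑 → SubIn 𝓐 Z Z' → SubIn 𝓑 Z Z') ∧
  (∀ Z Z', Nm 𝓐 Z → Nm 𝓐 Z' → Reg 𝓐 𝓑 → DiffIn 𝓐 Z Z' → DiffIn 𝓑 Z Z') ∧
  (∀ m, 𝓐 ⊆ 𝓑 → Nm 𝓑 m → Reg 𝓑 𝓒 → Coh 𝓐 𝓑 m → Coh 𝓐 𝓒 m)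

/-- Extension of a filter to an ultrafilter. -/
def ClaimUlt : Prop := ∀ (X : Type) (𝓑 : Set (Set X)) (𝓕₀ : Set (ℕ → Set X)), IsAlg 𝓑 →
  CompleteIn 𝓑 → IsFil 𝓑 𝓕₀ → ∃ 𝓕, 𝓕₀ ⊆ 𝓕 ∧ IsFil 𝓑 𝓕 ∧ IsUlt 𝓑 𝓕

/-- An algebra with a small dense set and a chain condition is small. -/
def ClaimSize : Prop := ∀ (L : Type) [LinearOrder L] [WellFoundedLT L], RegL L →
  ∀ (M : Type), #L ≤ #M → (∀ ρ : L, #(Iio ρ → M) ≤ #M) →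
  ∀ (X : Type) (𝓓 𝓑 : Set (Set X)), IsAlg 𝓑 → CompleteIn 𝓑 → DenseIn 𝓓 𝓑 → CCs L 𝓑 →
    #𝓓 ≤ #M → #𝓑 ≤ #M

/-- The union of an increasing sequence of complete algebras with the chain condition. -/
def ClaimUnion : Prop := ∀ (L : Type) [LinearOrder L] [WellFoundedLT L], RegL L →
  ∀ (X : Type) (𝓑 : L → Set (Set X)), (∀ α, IsAlg (𝓑 α) ∧ CompleteIn (𝓑 α)) →
    (∀ α β, α < β → Reg (𝓑 α) (𝓑 β)) → CCs L (⋃ α, 𝓑 α) →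
    IsAlg (⋃ α, 𝓑 α) ∧ CompleteIn (⋃ α, 𝓑 α) ∧ (∀ α, Reg (𝓑 α) (⋃ α, 𝓑 α)) ∧
    ∀ (K : Type) (f : K → Set X), #K < #L → (∀ k, f k ∈ ⋃ α, 𝓑 α) → ∃ α, ∀ k, f k ∈ 𝓑 α

/-- Uniformization of finite functions. -/
def ClaimDelta : Prop := ∀ (L : Type) [LinearOrder L] [WellFoundedLT L], RegL L →
  ∀ (I V : Type) [Countable V] (f : L → Fn I V),
    ∃ A : Set L, #A = #L ∧ ∀ i ∈ A, ∀ j ∈ A, Fn.Compat (f i) (f j)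

/-! ## The space -/

/-- The points. -/
abbrev XX (A L J : Type) [BooleanAlgebra A] : Type := Uf A × (L × J → Finset ℕ)

section Space

variable {A L J : Type} [CompleteBooleanAlgebra A] [LinearOrder L]

/-- The set given by an element of the base algebra. -/
def bs (a : A) : Set (XX A L J) := {x | a ∈ x.1.s}

/-- The set given by a condition. -/
def cylF (a : A) (F : Fn (L × J) (Finset ℕ)) : Set (XX A L J) :=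
  {x | a ∈ x.1.s ∧ ∀ i v, F.f i = some v → x.2 i = v}

/-- `b` depends only on the base and the coordinates in `S`. -/
def DepX (S : Set L) (b : Set (XX A L J)) : Prop :=
  ∀ x y : XX A L J, x.1 = y.1 → (∀ i : L × J, i.1 ∈ S → x.2 i = y.2 i) → x ∈ b → y ∈ b

/-- Every nonempty element contains a condition. -/
def HasInt (𝓑 : Set (Set (XX A L J))) : Prop :=
  ∀ b ∈ 𝓑, b.Nonempty → ∃ a : A, a ≠ ⊥ ∧ ∃ F, cylF a F ⊆ b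

/-- The generic real with index `(α, j)`. -/
def mg (α : L) (j : J) (k : ℕ) : Set (XX A L J) := {x | k ∈ x.2 (α, j)}

/-- `σ` is an initial segment of `τ`. -/
def InitSeg (σ τ : Finset ℕ) : Prop := σ ⊆ τ ∧ ∀ k ∈ τ, k ∉ σ → ∀ i ∈ σ, i < k

/-- The set of points given by a condition of the next step: `b` is in the algebra, `l` a list of
triples (index, initial segment, element of the filter). -/
def cset (α : L) (b : Set (XX A L J)) (l : List (J × Finset ℕ × (ℕ → Set (XX A L J)))) :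
    Set (XX A L J) :=
  {x | x ∈ b ∧ ∀ t ∈ l, InitSeg t.2.1 (x.2 (α, t.1)) ∧
    ∀ k ∈ x.2 (α, t.1), k ∉ t.2.1 → x ∈ t.2.2 k}

end Space

/-- The algebra of the next step: the clopen sets of the topology generated by the sets
`cset α b l` with `b ∈ 𝓑` and all filter entries of `l` in the filters `F j`. -/
def stepAlg {A L J : Type} [CompleteBooleanAlgebra A] [LinearOrder L] (α : L)
    (𝓑 : Set (Set (XX A L J))) (F : J → Set (ℕ → Set (XX A L J))) : Set (Set (XX A L J)) :=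
  {a | (∀ x ∈ a, ∃ b ∈ 𝓑, ∃ l, (∀ t ∈ l, t.2.2 ∈ F t.1) ∧ x ∈ cset α b l ∧ cset α b l ⊆ a) ∧
    ∀ x ∉ a, ∃ b ∈ 𝓑, ∃ l, (∀ t ∈ l, t.2.2 ∈ F t.1) ∧ x ∈ cset α b l ∧ cset α b l ⊆ aᶜ}

/-- Hypotheses of the step. -/
structure StepHyp {A L J : Type} [CompleteBooleanAlgebra A] [LinearOrder L] (α : L)
    (𝓑 : Set (Set (XX A L J))) (F : J → Set (ℕ → Set (XX A L J))) : Prop where
  alg : IsAlg 𝓑
  int : HasInt 𝓑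
  dep : ∀ b ∈ 𝓑, DepX (Iio α) b
  fil : ∀ j, IsFil 𝓑 (F j)

/-- The step, algebraic part. -/
def ClaimStep1 : Prop := ∀ (A L J : Type) [CompleteBooleanAlgebra A] [Nontrivial A]
  [LinearOrder L] (α : L) (𝓑 : Set (Set (XX A L J))) (F : J → Set (ℕ → Set (XX A L J))),
  StepHyp α 𝓑 F →
  IsAlg (stepAlg α 𝓑 F) ∧ Reg 𝓑 (stepAlg α 𝓑 F) ∧ HasInt (stepAlg α 𝓑 F) ∧
    (∀ b ∈ stepAlg α 𝓑 F, DepX (Iic α) b) ∧ (∀ j k, mg α j k ∈ stepAlg α 𝓑 F) ∧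
    (∀ b ∈ 𝓑, ∀ l, (∀ t ∈ l, t.2.2 ∈ F t.1) → cset α b l ∈ stepAlg α 𝓑 F) ∧
    ∀ M : Type, ℵ₀ ≤ #M → #(ℕ → M) ≤ #M → #𝓑 ≤ #M → #J ≤ #M →
      ∃ 𝓓, DenseIn 𝓓 (stepAlg α 𝓑 F) ∧ #𝓓 ≤ #M

/-- The step, the generic reals. -/
def ClaimStep2 : Prop := ∀ (A L J : Type) [CompleteBooleanAlgebra A] [Nontrivial A]
  [LinearOrder L] (α : L) (𝓑 : Set (Set (XX A L J))) (F : J → Set (ℕ → Set (XX A L J))),
  StepHyp α 𝓑 F → (∀ j, InfOn (stepAlg α 𝓑 F) univ (mg α j)) ∧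
    (∀ j, ∀ Z ∈ F j, SubIn (stepAlg α 𝓑 F) (mg α j) Z) ∧
    (∀ j j', j ≠ j' → DiffIn (stepAlg α 𝓑 F) (mg α j) (mg α j'))

/-- The step, Cohen reals. -/
def ClaimStep3 : Prop := ∀ (A L J : Type) [CompleteBooleanAlgebra A] [Nontrivial A]
  [LinearOrder L] (α : L) (𝓑 : Set (Set (XX A L J))) (F : J → Set (ℕ → Set (XX A L J))),
  StepHyp α 𝓑 F → ∀ j, F j = Cof 𝓑 → Coh 𝓑 (stepAlg α 𝓑 F) (mg α j)

/-- The chain condition. -/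
def ClaimCCint : Prop := ∀ (A L J : Type) [CompleteBooleanAlgebra A] [LinearOrder L]
  [WellFoundedLT L], RegL L → CC L A → ∀ 𝓑 : Set (Set (XX A L J)), HasInt 𝓑 → CCs L 𝓑

/-- The stages of the iteration. -/
structure Stages {A L Jt : Type} [CompleteBooleanAlgebra A] [LinearOrder L]
    (𝓑 : L → Set (Set (XX A L (Bool ⊕ Jt))))
    (F : L → Bool ⊕ Jt → Set (ℕ → Set (XX A L (Bool ⊕ Jt)))) : Prop where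
  alg : ∀ α, IsAlg (𝓑 α)
  comp : ∀ α, CompleteIn (𝓑 α)
  dep : ∀ α, ∀ b ∈ 𝓑 α, DepX (Iio α) b
  base : ∀ α, Reg (Set.range bs) (𝓑 α)
  reg : ∀ α β, α < β → Reg (𝓑 α) (𝓑 β)
  int : ∀ α, HasInt (𝓑 α)
  fil : ∀ α j, IsFil (𝓑 α) (F α j)
  ult : ∀ α, IsUlt (𝓑 α) (F α (Sum.inl true))
  main : ∀ α β, β < α → mg β (Sum.inl true) ∈ F α (Sum.inl true)
  coh : ∀ α, F α (Sum.inl false) = Cof (𝓑 α)
  fam : ∀ α (ρ : L) (T : Iio ρ → ℕ → Set (XX A L (Bool ⊕ Jt))),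
    (∃ 𝓖, IsFil (𝓑 α) 𝓖 ∧ ∀ ξ, T ξ ∈ 𝓖) → ∃ j : Jt, ∀ ξ, T ξ ∈ F α (Sum.inr j)
  mg_nm : ∀ α β, α < β → ∀ j, Nm (𝓑 β) (mg α j)
  mg_inf : ∀ α β, α < β → ∀ j, InfOn (𝓑 β) univ (mg α j)
  mg_sub : ∀ α β, α < β → ∀ j, ∀ Z ∈ F α j, SubIn (𝓑 β) (mg α j) Z
  mg_diff : ∀ α β, α < β → ∀ j j', j ≠ j' → DiffIn (𝓑 β) (mg α j) (mg α j')
  mg_coh : ∀ α β, α < β → Coh (𝓑 α) (𝓑 β) (mg α (Sum.inl false))

/-- The iteration exists. -/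
def ClaimRec : Prop := ∀ (A L Jt : Type) [CompleteBooleanAlgebra A] [Nontrivial A]
  [LinearOrder L] [WellFoundedLT L], RegL L → CC L A → #A ≤ #Jt → #L < #Jt →
  (∀ ρ : L, #(Iio ρ → Jt) ≤ #Jt) → #(ℕ → Jt) ≤ #Jt →
  ∃ (𝓑 : L → Set (Set (XX A L (Bool ⊕ Jt))))
    (F : L → Bool ⊕ Jt → Set (ℕ → Set (XX A L (Bool ⊕ Jt)))), Stages 𝓑 F

/-- The Boolean algebra of an algebra of sets. `e` is the isomorphism. -/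
structure Repr {A L J : Type} [CompleteBooleanAlgebra A] [LinearOrder L]
    (𝓑 : Set (Set (XX A L J))) {B : Type} [CompleteBooleanAlgebra B]
    (E : Ext A (L × J) B) (e : B → Set (XX A L J)) : Prop where
  mem : ∀ b, e b ∈ 𝓑
  surj : ∀ s ∈ 𝓑, ∃ b, e b = s
  le : ∀ b b', e b ⊆ e b' ↔ b ≤ b'
  inf : ∀ b b', e (b ⊓ b') = e b ∩ e b'
  compl : ∀ b, e bᶜ = (e b)ᶜ
  bot : e ⊥ = ∅
  top : e ⊤ = Set.univ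
  base : ∀ a, e (E.i a) = bs a
  sup : ∀ (ι : Type) (f : ι → B) (b : B), (e (⨆ j, f j) ∩ e b).Nonempty ↔
    ∃ j, (e (f j) ∩ e b).Nonempty

def ClaimRepr : Prop := ∀ (A L J : Type) [CompleteBooleanAlgebra A] [Nontrivial A]
  [LinearOrder L] (𝓑 : Set (Set (XX A L J))), IsAlg 𝓑 → CompleteIn 𝓑 → HasInt 𝓑 →
  Reg (Set.range bs) 𝓑 →
  ∃ (B : Type) (_ : CompleteBooleanAlgebra B) (E : Ext A (L × J) B) (e : B → Set (XX A L J)),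
    Repr 𝓑 E e

/-- Translation of the Boolean valued notions. -/
def ClaimTrans : Prop := ∀ (A L J : Type) [CompleteBooleanAlgebra A]
  [LinearOrder L] (𝓑 : Set (Set (XX A L J))) (B : Type) [CompleteBooleanAlgebra B]
  (E : Ext A (L × J) B) (e : B → Set (XX A L J)), Repr 𝓑 E e →
  (∀ r : ℕ → B, ∀ b : B, b ≤ BInf r ↔ InfOn 𝓑 (e b) (fun k => e (r k))) ∧
  (∀ r s : ℕ → B, BSub r s = ⊤ ↔ SubIn 𝓑 (fun k => e (r k)) (fun k => e (s k))) ∧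
  (∀ r s : ℕ → B, beq r s = ⊥ ↔ DiffIn 𝓑 (fun k => e (r k)) (fun k => e (s k))) ∧
  (∀ L' : Type, CCs L' 𝓑 → CC L' B)

/-- The situation after the iteration. -/
structure Sit {A L Jt : Type} [CompleteBooleanAlgebra A] [LinearOrder L]
    (𝓑 : L → Set (Set (XX A L (Bool ⊕ Jt))))
    (F : L → Bool ⊕ Jt → Set (ℕ → Set (XX A L (Bool ⊕ Jt)))) {B : Type}
    [CompleteBooleanAlgebra B] (E : Ext A (L × (Bool ⊕ Jt)) B)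
    (e : B → Set (XX A L (Bool ⊕ Jt))) : Prop where
  st : Stages 𝓑 F
  rg : RegL L
  card : #L < #Jt
  cc : CC L B
  rep : Repr (⋃ α, 𝓑 α) E e
  un : ∀ α, Reg (𝓑 α) (⋃ α, 𝓑 α)
  small : ∀ (K : Type) (f : K → Set (XX A L (Bool ⊕ Jt))), #K < #L →
    (∀ k, f k ∈ ⋃ α, 𝓑 α) → ∃ α, ∀ k, f k ∈ 𝓑 α

def ClaimTge : Prop := ∀ (A L Jt : Type) [CompleteBooleanAlgebra A] [LinearOrder L]
  [WellFoundedLT L] (𝓑) (F) (B : Type) [CompleteBooleanAlgebra B]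
  (E : Ext A (L × (Bool ⊕ Jt)) B) (e), Sit 𝓑 F E e → Tge L B

def ClaimTUle : Prop := ∀ (A L Jt : Type) [CompleteBooleanAlgebra A] [LinearOrder L]
  [WellFoundedLT L] (𝓑) (F) (B : Type) [CompleteBooleanAlgebra B]
  (E : Ext A (L × (Bool ⊕ Jt)) B) (e), Sit 𝓑 F E e → TUle L B

def ClaimUge : Prop := ∀ (A L Jt : Type) [CompleteBooleanAlgebra A] [LinearOrder L]
  [WellFoundedLT L] (𝓑) (F) (B : Type) [CompleteBooleanAlgebra B]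
  (E : Ext A (L × (Bool ⊕ Jt)) B) (e), Sit 𝓑 F E e → Uge L B

def ClaimCgt : Prop := ∀ (A L Jt : Type) [CompleteBooleanAlgebra A] [LinearOrder L]
  [WellFoundedLT L] (𝓑) (F) (B : Type) [CompleteBooleanAlgebra B]
  (E : Ext A (L × (Bool ⊕ Jt)) B) (e), Sit 𝓑 F E e → Cgt L B

/-- The result of part A. -/
def ClaimA : Prop := ∀ (A L : Type) [CompleteBooleanAlgebra A] [Nontrivial A] [LinearOrder L]
  [WellFoundedLT L], RegL L → CC L A →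
  ∃ (I B : Type) (_ : CompleteBooleanAlgebra B) (_ : Ext A I B),
    Nontrivial B ∧ CC L B ∧ Tge L B ∧ TUle L B ∧ Uge L B ∧ Cgt L B

end Pool.Agent.Work.MP_dbe197_lc
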