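import Pool.Agent.Work.MP_dbe197_lc.Fm
import Pool.Agent.Work.MP_dbe197_lc.StmtsA

/-!
# Boolean values of the notions; names; the quotient model
-/

namespace Pool.Agent.Work.MP_dbe197_lc

open BSet

set_option linter.unusedSimpArgs false

namespace BV

variable {B : Type} [CompleteBooleanAlgebra B]

def pr (a b p : BSet B) : B :=
  ⨅ z, ((mem z p)ᶜ ⊔ (eqv z a ⊔ eqv z b)) ⊓ ((eqv z a ⊔ eqv z b)ᶜ ⊔ mem z p)
def op (a b p : BSet B) : B := ⨆ s, ⨆ t, pr a a s ⊓ (pr a b t ⊓ pr s t p)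
def R (r a b : BSet B) : B := ⨆ p, op a b p ⊓ mem p r
def relOn (f a b : BSet B) : B :=
  ⨅ p, (mem p f)ᶜ ⊔ ⨆ x, mem x a ⊓ ⨆ y, mem y b ⊓ op x y p
def fn (f a b : BSet B) : B :=
  relOn f a b ⊓ ((⨅ x, (mem x a)ᶜ ⊔ ⨆ y, mem y b ⊓ R f x y) ⊓
    ⨅ x, ⨅ y, ⨅ z, (R f x y)ᶜ ⊔ ((R f x z)ᶜ ⊔ eqv y z))
def surj (f a b : BSet B) : B := fn f a b ⊓ ⨅ y, (mem y b)ᶜ ⊔ ⨆ x, mem x a ⊓ R f x y
def ord (x : BSet B) : B :=
  (⨅ y, (mem y x)ᶜ ⊔ sub y x) ⊓ ⨅ y, (mem y x)ᶜ ⊔ ⨅ z, (mem z y)ᶜ ⊔ sub z y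
def isOmega (w : BSet B) : B :=
  ord w ⊓ ((⨆ x, mem x w) ⊓ ((⨅ x, (mem x w)ᶜ ⊔ ⨆ y, mem y w ⊓ mem x y) ⊓
    ⨅ v, (mem v w)ᶜ ⊔ ((⨆ x, mem x v)ᶜ ⊔ ⨆ x, mem x v ⊓ ⨅ y, (mem y v)ᶜ ⊔ (mem x y)ᶜ)))
def isNext (a w : BSet B) : B :=
  ord w ⊓ ((⨆ x, mem x w) ⊓
    ((⨆ f, surj f a w)ᶜ ⊓ ⨅ v, (mem v w)ᶜ ⊔ ((⨆ x, mem x v)ᶜ ⊔ ⨆ f, surj f a v)))
def cofinal (a α : BSet B) : B :=
  ⨆ f, fn f a α ⊓ ⨅ β, (mem β α)ᶜ ⊔ ⨆ n, mem n a ⊓ ⨆ γ, mem γ α ⊓ (R f n γ ⊓ mem β γ)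
def club (C δ : BSet B) : B :=
  sub C δ ⊓ ((⨅ α, (mem α δ)ᶜ ⊔ ⨆ β, mem β C ⊓ mem α β) ⊓
    ⨅ α, (mem α δ)ᶜ ⊔ ((⨆ β, mem β α)ᶜ ⊔
      ((⨅ β, (mem β α)ᶜ ⊔ ⨆ γ, mem γ C ⊓ (mem γ α ⊓ mem β γ))ᶜ ⊔ mem α C)))
def stat (S δ : BSet B) : B := ⨅ C, (club C δ)ᶜ ⊔ ⨆ α, mem α C ⊓ mem α S
def sr (w0 w1 w2 : BSet B) : B :=
  ⨅ S, (sub S w2)ᶜ ⊔ ((⨅ α, (mem α S)ᶜ ⊔ cofinal w0 α)ᶜ ⊔ ((stat S w2)ᶜ ⊔
    ⨆ β, mem β w2 ⊓ ((cofinal w1 β ⊓ (cofinal w0 β)ᶜ) ⊓ stat S β)))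
def tree (T t l w : BSet B) : B :=
  fn l T w ⊓ (relOn t T T ⊓
    ((⨅ x, ⨅ y, ⨅ z, (R t x y)ᶜ ⊔ ((R t y z)ᶜ ⊔ R t x z)) ⊓
    ((⨅ x, ⨅ y, (R t x y)ᶜ ⊔ ⨅ a, ⨅ b, (R l x a)ᶜ ⊔ ((R l y b)ᶜ ⊔ mem a b)) ⊓
    ((⨅ y, ⨅ b, (R l y b)ᶜ ⊔ ⨅ a, (mem a b)ᶜ ⊔ ⨆ x, R t x y ⊓ (R l x a ⊓
      ⨅ x', (R t x' y)ᶜ ⊔ ((R l x' a)ᶜ ⊔ eqv x' x))) ⊓
    ⨅ a, (mem a w)ᶜ ⊔ ⨆ x, R l x a))))
def branch (T t l w b : BSet B) : B :=
  sub b T ⊓ ((⨅ x, ⨅ y, (mem x b)ᶜ ⊔ ((mem y b)ᶜ ⊔ (eqv x y ⊔ (R t x y ⊔ R t y x)))) ⊓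
    ⨅ a, (mem a w)ᶜ ⊔ ⨆ x, mem x b ⊓ R l x a)
def tp (w1 w2 : BSet B) : B :=
  ⨅ T, ⨅ t, ⨅ l, (tree T t l w2)ᶜ ⊔
    ((⨅ a, (mem a w2)ᶜ ⊔ ⨆ g, fn g w1 T ⊓ ⨅ x, (R l x a)ᶜ ⊔ ⨆ ξ, mem ξ w1 ⊓ R g ξ x)ᶜ ⊔
      ⨆ b, branch T t l w2 b)
def nwkh (w1 w2 : BSet B) : B :=
  ⨅ T, ⨅ t, ⨅ l, (tree T t l w1)ᶜ ⊔ ((⨆ g, surj g w1 T)ᶜ ⊔
    ⨅ G, (⨅ i, (mem i w2)ᶜ ⊔ ⨆ b, R G i b ⊓ branch T t l w1 b)ᶜ ⊔
      ((⨅ i, ⨅ b, ⨅ b', (R G i b)ᶜ ⊔ ((R G i b')ᶜ ⊔ eqv b b'))ᶜ ⊔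
        ⨆ i, ⨆ j, mem i w2 ⊓ (mem j w2 ⊓ ((eqv i j)ᶜ ⊓ ⨆ b, R G i b ⊓ R G j b))))
def ctbl (w0 x : BSet B) : B :=
  ⨆ g, (⨅ n, ⨅ y, ⨅ z, (R g n y)ᶜ ⊔ ((R g n z)ᶜ ⊔ eqv y z)) ⊓
    ⨅ z, (mem z x)ᶜ ⊔ ⨆ n, mem n w0 ⊓ R g n z
def clubP (w0 C α : BSet B) : B :=
  (⨅ x, (mem x C)ᶜ ⊔ (sub x α ⊓ ctbl w0 x)) ⊓
    ((⨅ x, (sub x α)ᶜ ⊔ ((ctbl w0 x)ᶜ ⊔ ⨆ y, mem y C ⊓ sub x y)) ⊓
    ⨅ h, (⨅ n, (mem n w0)ᶜ ⊔ ⨆ y, mem y C ⊓ R h n y)ᶜ ⊔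
      ((⨅ n, ⨅ y, ⨅ z, (R h n y)ᶜ ⊔ ((R h n z)ᶜ ⊔ eqv y z))ᶜ ⊔
      ((⨅ n, (mem n w0)ᶜ ⊔ ⨅ m, (mem m n)ᶜ ⊔ ⨅ y, ⨅ z, (R h m y)ᶜ ⊔ ((R h n z)ᶜ ⊔ sub y z))ᶜ ⊔
      ⨅ u, (⨅ z, ((mem z u)ᶜ ⊔ ⨆ n, mem n w0 ⊓ ⨆ y, R h n y ⊓ mem z y) ⊓
          ((⨆ n, mem n w0 ⊓ ⨆ y, R h n y ⊓ mem z y)ᶜ ⊔ mem z u))ᶜ ⊔ mem u C)))
def dss (w0 w1 w2 : BSet B) : B :=
  ⨆ S, ⨆ N, sub S w2 ⊓ (stat S w2 ⊓
    ((⨅ α, (mem α S)ᶜ ⊔ (cofinal w1 α ⊓ (cofinal w0 α)ᶜ)) ⊓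
    ((⨅ α, (mem α S)ᶜ ⊔ ⨅ x, (R N α x)ᶜ ⊔ (sub x α ⊓ ctbl w0 x)) ⊓
    ((⨅ α, (mem α S)ᶜ ⊔ ⨅ C, (clubP w0 C α)ᶜ ⊔ ⨆ x, R N α x ⊓ mem x C) ⊓
    ⨅ α, ⨅ β, ⨅ x, (mem α S)ᶜ ⊔ ((mem β S)ᶜ ⊔ ((R N α x)ᶜ ⊔ ((R N β x)ᶜ ⊔ eqv α β)))))))
def infS (w0 T α : BSet B) : B := ⨅ n, (mem n w0)ᶜ ⊔ ⨆ k, mem k w0 ⊓ (R T α k ⊓ mem n k)
def almS (w0 T β α : BSet B) : B :=
  ⨆ n, mem n w0 ⊓ ⨅ k, (mem k w0)ᶜ ⊔ ((mem n k)ᶜ ⊔ ((R T β k)ᶜ ⊔ R T α k))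
def tower (w0 T a : BSet B) : B :=
  (⨅ α, (mem α a)ᶜ ⊔ infS w0 T α) ⊓ ⨅ β, (mem β a)ᶜ ⊔ ⨅ α, (mem α β)ᶜ ⊔ almS w0 T β α
def psI (w0 T a r : BSet B) : B :=
  sub r w0 ⊓ ((⨅ n, (mem n w0)ᶜ ⊔ ⨆ k, mem k r ⊓ mem n k) ⊓
    ⨅ α, (mem α a)ᶜ ⊔ ⨆ n, mem n w0 ⊓ ⨅ k, (mem k r)ᶜ ⊔ ((mem n k)ᶜ ⊔ R T α k))
def teq (w0 w : BSet B) : B :=
  (⨅ ρ, (mem ρ w)ᶜ ⊔ ⨅ T, (tower w0 T ρ)ᶜ ⊔ ⨆ r, psI w0 T ρ r) ⊓
    ⨆ T, tower w0 T w ⊓ (⨆ r, psI w0 T w r)ᶜ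
def uBase (w0 T a : BSet B) : B :=
  (⨅ α, (mem α a)ᶜ ⊔ infS w0 T α) ⊓
    ((⨅ α, ⨅ β, (mem α a)ᶜ ⊔ ((mem β a)ᶜ ⊔ ⨆ γ, mem γ a ⊓
      ⨅ k, (mem k w0)ᶜ ⊔ ((R T γ k)ᶜ ⊔ (R T α k ⊓ R T β k)))) ⊓
    ⨅ r, (sub r w0)ᶜ ⊔ ((⨆ α, mem α a ⊓ ⨅ k, (mem k w0)ᶜ ⊔ ((R T α k)ᶜ ⊔ mem k r)) ⊔
      ⨆ α, mem α a ⊓ ⨅ k, (mem k w0)ᶜ ⊔ ((R T α k)ᶜ ⊔ (mem k r)ᶜ)))
def ueq (w0 w : BSet B) : B :=
  (⨅ ρ, (mem ρ w)ᶜ ⊔ (⨆ T, uBase w0 T ρ)ᶜ) ⊓ ⨆ T, uBase w0 T w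
def cgt (w0 w : BSet B) : B :=
  ⨅ G, ⨆ r, sub r w0 ⊓ ⨅ α, (mem α w)ᶜ ⊔ ⨆ k, mem k w0 ⊓
    (((R G α k)ᶜ ⊔ mem k r) ⊓ ((mem k r)ᶜ ⊔ R G α k))ᶜ

end BV

section ValF

variable {B : Type} [CompleteBooleanAlgebra B] (v : ℕ → BSet B)

@[simp] theorem Val_sub (i j : ℕ) : Val (F.sub i j) v = BSet.sub (v i) (v j) := by
  simp only [F.sub, BSet.sub, Val_all, Val_imp, Val_ex, Val_and, Val_neg, Val_or, Val_iff, Val_mem, Val_eq, cons_zero, cons_one, cons_two, cons_three, cons_four, cons_five, cons_six, cons_succ]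
@[simp] theorem Val_pr (a b p : ℕ) : Val (F.pr a b p) v = BV.pr (v a) (v b) (v p) := by
  simp only [F.pr, BV.pr, Val_all, Val_imp, Val_ex, Val_and, Val_neg, Val_or, Val_iff, Val_mem, Val_eq, cons_zero, cons_one, cons_two, cons_three, cons_four, cons_five, cons_six, cons_succ, Val_sub]
@[simp] theorem Val_op (a b p : ℕ) : Val (F.op a b p) v = BV.op (v a) (v b) (v p) := by
  simp only [F.op, BV.op, Val_all, Val_imp, Val_ex, Val_and, Val_neg, Val_or, Val_iff, Val_mem, Val_eq, cons_zero, cons_one, cons_two, cons_three, cons_four, cons_five, cons_six, cons_succ, Val_sub, Val_pr]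
@[simp] theorem Val_r (r a b : ℕ) : Val (F.r r a b) v = BV.R (v r) (v a) (v b) := by
  simp only [F.r, BV.R, Val_all, Val_imp, Val_ex, Val_and, Val_neg, Val_or, Val_iff, Val_mem, Val_eq, cons_zero, cons_one, cons_two, cons_three, cons_four, cons_five, cons_six, cons_succ, Val_sub, Val_pr, Val_op]
@[simp] theorem Val_relOn (f a b : ℕ) :
    Val (F.relOn f a b) v = BV.relOn (v f) (v a) (v b) := by simp only [F.relOn, BV.relOn, Val_all, Val_imp, Val_ex, Val_and, Val_neg, Val_or, Val_iff, Val_mem, Val_eq, cons_zero, cons_one, cons_two, cons_three, cons_four, cons_five, cons_six, cons_succ, Val_sub, Val_pr, Val_op, Val_r]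
@[simp] theorem Val_fn (f a b : ℕ) : Val (F.fn f a b) v = BV.fn (v f) (v a) (v b) := by
  simp only [F.fn, BV.fn, Val_all, Val_imp, Val_ex, Val_and, Val_neg, Val_or, Val_iff, Val_mem, Val_eq, cons_zero, cons_one, cons_two, cons_three, cons_four, cons_five, cons_six, cons_succ, Val_sub, Val_pr, Val_op, Val_r, Val_relOn]
@[simp] theorem Val_surj (f a b : ℕ) : Val (F.surj f a b) v = BV.surj (v f) (v a) (v b) := by
  simp only [F.surj, BV.surj, Val_all, Val_imp, Val_ex, Val_and, Val_neg, Val_or, Val_iff, Val_mem, Val_eq, cons_zero, cons_one, cons_two, cons_three, cons_four, cons_five, cons_six, cons_succ, Val_sub, Val_pr, Val_op, Val_r, Val_relOn, Val_fn]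
@[simp] theorem Val_ord (x : ℕ) : Val (F.ord x) v = BV.ord (v x) := by simp only [F.ord, BV.ord, Val_all, Val_imp, Val_ex, Val_and, Val_neg, Val_or, Val_iff, Val_mem, Val_eq, cons_zero, cons_one, cons_two, cons_three, cons_four, cons_five, cons_six, cons_succ, Val_sub, Val_pr, Val_op, Val_r, Val_relOn, Val_fn, Val_surj]
@[simp] theorem Val_isOmega (w : ℕ) : Val (F.isOmega w) v = BV.isOmega (v w) := by
  simp only [F.isOmega, BV.isOmega, Val_all, Val_imp, Val_ex, Val_and, Val_neg, Val_or, Val_iff, Val_mem, Val_eq, cons_zero, cons_one, cons_two, cons_three, cons_four, cons_five, cons_six, cons_succ, Val_sub, Val_pr, Val_op, Val_r, Val_relOn, Val_fn, Val_surj, Val_ord]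
@[simp] theorem Val_isNext (a w : ℕ) : Val (F.isNext a w) v = BV.isNext (v a) (v w) := by
  simp only [F.isNext, BV.isNext, Val_all, Val_imp, Val_ex, Val_and, Val_neg, Val_or, Val_iff, Val_mem, Val_eq, cons_zero, cons_one, cons_two, cons_three, cons_four, cons_five, cons_six, cons_succ, Val_sub, Val_pr, Val_op, Val_r, Val_relOn, Val_fn, Val_surj, Val_ord, Val_isOmega]
@[simp] theorem Val_cofinal (a α : ℕ) : Val (F.cofinal a α) v = BV.cofinal (v a) (v α) := by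
  simp only [F.cofinal, BV.cofinal, Val_all, Val_imp, Val_ex, Val_and, Val_neg, Val_or, Val_iff, Val_mem, Val_eq, cons_zero, cons_one, cons_two, cons_three, cons_four, cons_five, cons_six, cons_succ, Val_sub, Val_pr, Val_op, Val_r, Val_relOn, Val_fn, Val_surj, Val_ord, Val_isOmega, Val_isNext]
@[simp] theorem Val_club (C δ : ℕ) : Val (F.club C δ) v = BV.club (v C) (v δ) := by
  simp only [F.club, BV.club, Val_all, Val_imp, Val_ex, Val_and, Val_neg, Val_or, Val_iff, Val_mem, Val_eq, cons_zero, cons_one, cons_two, cons_three, cons_four, cons_five, cons_six, cons_succ, Val_sub, Val_pr, Val_op, Val_r, Val_relOn, Val_fn, Val_surj, Val_ord, Val_isOmega, Val_isNext, Val_cofinal]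
@[simp] theorem Val_stat (S δ : ℕ) : Val (F.stat S δ) v = BV.stat (v S) (v δ) := by
  simp only [F.stat, BV.stat, Val_all, Val_imp, Val_ex, Val_and, Val_neg, Val_or, Val_iff, Val_mem, Val_eq, cons_zero, cons_one, cons_two, cons_three, cons_four, cons_five, cons_six, cons_succ, Val_sub, Val_pr, Val_op, Val_r, Val_relOn, Val_fn, Val_surj, Val_ord, Val_isOmega, Val_isNext, Val_cofinal, Val_club]
@[simp] theorem Val_sr (w0 w1 w2 : ℕ) :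
    Val (F.sr w0 w1 w2) v = BV.sr (v w0) (v w1) (v w2) := by simp only [F.sr, BV.sr, Val_all, Val_imp, Val_ex, Val_and, Val_neg, Val_or, Val_iff, Val_mem, Val_eq, cons_zero, cons_one, cons_two, cons_three, cons_four, cons_five, cons_six, cons_succ, Val_sub, Val_pr, Val_op, Val_r, Val_relOn, Val_fn, Val_surj, Val_ord, Val_isOmega, Val_isNext, Val_cofinal, Val_club, Val_stat]
@[simp] theorem Val_tree (T t l w : ℕ) :
    Val (F.tree T t l w) v = BV.tree (v T) (v t) (v l) (v w) := by simp only [F.tree, BV.tree, Val_all, Val_imp, Val_ex, Val_and, Val_neg, Val_or, Val_iff, Val_mem, Val_eq, cons_zero, cons_one, cons_two, cons_three, cons_four, cons_five, cons_six, cons_succ, Val_sub, Val_pr, Val_op, Val_r, Val_relOn, Val_fn, Val_surj, Val_ord, Val_isOmega, Val_isNext, Val_cofinal, Val_club, Val_stat, Val_sr]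
@[simp] theorem Val_branch (T t l w b : ℕ) :
    Val (F.branch T t l w b) v = BV.branch (v T) (v t) (v l) (v w) (v b) := by
  simp only [F.branch, BV.branch, Val_all, Val_imp, Val_ex, Val_and, Val_neg, Val_or, Val_iff, Val_mem, Val_eq, cons_zero, cons_one, cons_two, cons_three, cons_four, cons_five, cons_six, cons_succ, Val_sub, Val_pr, Val_op, Val_r, Val_relOn, Val_fn, Val_surj, Val_ord, Val_isOmega, Val_isNext, Val_cofinal, Val_club, Val_stat, Val_sr, Val_tree]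
@[simp] theorem Val_tp (w1 w2 : ℕ) : Val (F.tp w1 w2) v = BV.tp (v w1) (v w2) := by
  simp only [F.tp, BV.tp, Val_all, Val_imp, Val_ex, Val_and, Val_neg, Val_or, Val_iff, Val_mem, Val_eq, cons_zero, cons_one, cons_two, cons_three, cons_four, cons_five, cons_six, cons_succ, Val_sub, Val_pr, Val_op, Val_r, Val_relOn, Val_fn, Val_surj, Val_ord, Val_isOmega, Val_isNext, Val_cofinal, Val_club, Val_stat, Val_sr, Val_tree, Val_branch]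
@[simp] theorem Val_nwkh (w1 w2 : ℕ) : Val (F.nwkh w1 w2) v = BV.nwkh (v w1) (v w2) := by
  simp only [F.nwkh, BV.nwkh, Val_all, Val_imp, Val_ex, Val_and, Val_neg, Val_or, Val_iff, Val_mem, Val_eq, cons_zero, cons_one, cons_two, cons_three, cons_four, cons_five, cons_six, cons_succ, Val_sub, Val_pr, Val_op, Val_r, Val_relOn, Val_fn, Val_surj, Val_ord, Val_isOmega, Val_isNext, Val_cofinal, Val_club, Val_stat, Val_sr, Val_tree, Val_branch, Val_tp]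
@[simp] theorem Val_ctbl (w0 x : ℕ) : Val (F.ctbl w0 x) v = BV.ctbl (v w0) (v x) := by
  simp only [F.ctbl, BV.ctbl, Val_all, Val_imp, Val_ex, Val_and, Val_neg, Val_or, Val_iff, Val_mem, Val_eq, cons_zero, cons_one, cons_two, cons_three, cons_four, cons_five, cons_six, cons_succ, Val_sub, Val_pr, Val_op, Val_r, Val_relOn, Val_fn, Val_surj, Val_ord, Val_isOmega, Val_isNext, Val_cofinal, Val_club, Val_stat, Val_sr, Val_tree, Val_branch, Val_tp, Val_nwkh]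
@[simp] theorem Val_clubP (w0 C α : ℕ) :
    Val (F.clubP w0 C α) v = BV.clubP (v w0) (v C) (v α) := by simp only [F.clubP, BV.clubP, Val_all, Val_imp, Val_ex, Val_and, Val_neg, Val_or, Val_iff, Val_mem, Val_eq, cons_zero, cons_one, cons_two, cons_three, cons_four, cons_five, cons_six, cons_succ, Val_sub, Val_pr, Val_op, Val_r, Val_relOn, Val_fn, Val_surj, Val_ord, Val_isOmega, Val_isNext, Val_cofinal, Val_club, Val_stat, Val_sr, Val_tree, Val_branch, Val_tp, Val_nwkh, Val_ctbl]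
@[simp] theorem Val_dss (w0 w1 w2 : ℕ) :
    Val (F.dss w0 w1 w2) v = BV.dss (v w0) (v w1) (v w2) := by simp only [F.dss, BV.dss, Val_all, Val_imp, Val_ex, Val_and, Val_neg, Val_or, Val_iff, Val_mem, Val_eq, cons_zero, cons_one, cons_two, cons_three, cons_four, cons_five, cons_six, cons_succ, Val_sub, Val_pr, Val_op, Val_r, Val_relOn, Val_fn, Val_surj, Val_ord, Val_isOmega, Val_isNext, Val_cofinal, Val_club, Val_stat, Val_sr, Val_tree, Val_branch, Val_tp, Val_nwkh, Val_ctbl, Val_clubP]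
@[simp] theorem Val_infS (w0 T α : ℕ) :
    Val (F.infS w0 T α) v = BV.infS (v w0) (v T) (v α) := by simp only [F.infS, BV.infS, Val_all, Val_imp, Val_ex, Val_and, Val_neg, Val_or, Val_iff, Val_mem, Val_eq, cons_zero, cons_one, cons_two, cons_three, cons_four, cons_five, cons_six, cons_succ, Val_sub, Val_pr, Val_op, Val_r, Val_relOn, Val_fn, Val_surj, Val_ord, Val_isOmega, Val_isNext, Val_cofinal, Val_club, Val_stat, Val_sr, Val_tree, Val_branch, Val_tp, Val_nwkh, Val_ctbl, Val_clubP, Val_dss]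
@[simp] theorem Val_almS (w0 T β α : ℕ) :
    Val (F.almS w0 T β α) v = BV.almS (v w0) (v T) (v β) (v α) := by simp only [F.almS, BV.almS, Val_all, Val_imp, Val_ex, Val_and, Val_neg, Val_or, Val_iff, Val_mem, Val_eq, cons_zero, cons_one, cons_two, cons_three, cons_four, cons_five, cons_six, cons_succ, Val_sub, Val_pr, Val_op, Val_r, Val_relOn, Val_fn, Val_surj, Val_ord, Val_isOmega, Val_isNext, Val_cofinal, Val_club, Val_stat, Val_sr, Val_tree, Val_branch, Val_tp, Val_nwkh, Val_ctbl, Val_clubP, Val_dss, Val_infS]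
@[simp] theorem Val_tower (w0 T a : ℕ) :
    Val (F.tower w0 T a) v = BV.tower (v w0) (v T) (v a) := by simp only [F.tower, BV.tower, Val_all, Val_imp, Val_ex, Val_and, Val_neg, Val_or, Val_iff, Val_mem, Val_eq, cons_zero, cons_one, cons_two, cons_three, cons_four, cons_five, cons_six, cons_succ, Val_sub, Val_pr, Val_op, Val_r, Val_relOn, Val_fn, Val_surj, Val_ord, Val_isOmega, Val_isNext, Val_cofinal, Val_club, Val_stat, Val_sr, Val_tree, Val_branch, Val_tp, Val_nwkh, Val_ctbl, Val_clubP, Val_dss, Val_infS, Val_almS]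
@[simp] theorem Val_psI (w0 T a r : ℕ) :
    Val (F.psI w0 T a r) v = BV.psI (v w0) (v T) (v a) (v r) := by simp only [F.psI, BV.psI, Val_all, Val_imp, Val_ex, Val_and, Val_neg, Val_or, Val_iff, Val_mem, Val_eq, cons_zero, cons_one, cons_two, cons_three, cons_four, cons_five, cons_six, cons_succ, Val_sub, Val_pr, Val_op, Val_r, Val_relOn, Val_fn, Val_surj, Val_ord, Val_isOmega, Val_isNext, Val_cofinal, Val_club, Val_stat, Val_sr, Val_tree, Val_branch, Val_tp, Val_nwkh, Val_ctbl, Val_clubP, Val_dss, Val_infS, Val_almS, Val_tower]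
@[simp] theorem Val_teq (w0 w : ℕ) : Val (F.teq w0 w) v = BV.teq (v w0) (v w) := by
  simp only [F.teq, BV.teq, Val_all, Val_imp, Val_ex, Val_and, Val_neg, Val_or, Val_iff, Val_mem, Val_eq, cons_zero, cons_one, cons_two, cons_three, cons_four, cons_five, cons_six, cons_succ, Val_sub, Val_pr, Val_op, Val_r, Val_relOn, Val_fn, Val_surj, Val_ord, Val_isOmega, Val_isNext, Val_cofinal, Val_club, Val_stat, Val_sr, Val_tree, Val_branch, Val_tp, Val_nwkh, Val_ctbl, Val_clubP, Val_dss, Val_infS, Val_almS, Val_tower, Val_psI]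
@[simp] theorem Val_uBase (w0 T a : ℕ) :
    Val (F.uBase w0 T a) v = BV.uBase (v w0) (v T) (v a) := by simp only [F.uBase, BV.uBase, Val_all, Val_imp, Val_ex, Val_and, Val_neg, Val_or, Val_iff, Val_mem, Val_eq, cons_zero, cons_one, cons_two, cons_three, cons_four, cons_five, cons_six, cons_succ, Val_sub, Val_pr, Val_op, Val_r, Val_relOn, Val_fn, Val_surj, Val_ord, Val_isOmega, Val_isNext, Val_cofinal, Val_club, Val_stat, Val_sr, Val_tree, Val_branch, Val_tp, Val_nwkh, Val_ctbl, Val_clubP, Val_dss, Val_infS, Val_almS, Val_tower, Val_psI, Val_teq]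
@[simp] theorem Val_ueq (w0 w : ℕ) : Val (F.ueq w0 w) v = BV.ueq (v w0) (v w) := by
  simp only [F.ueq, BV.ueq, Val_all, Val_imp, Val_ex, Val_and, Val_neg, Val_or, Val_iff, Val_mem, Val_eq, cons_zero, cons_one, cons_two, cons_three, cons_four, cons_five, cons_six, cons_succ, Val_sub, Val_pr, Val_op, Val_r, Val_relOn, Val_fn, Val_surj, Val_ord, Val_isOmega, Val_isNext, Val_cofinal, Val_club, Val_stat, Val_sr, Val_tree, Val_branch, Val_tp, Val_nwkh, Val_ctbl, Val_clubP, Val_dss, Val_infS, Val_almS, Val_tower, Val_psI, Val_teq, Val_uBase]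
@[simp] theorem Val_cgt (w0 w : ℕ) : Val (F.cgt w0 w) v = BV.cgt (v w0) (v w) := by
  simp only [F.cgt, BV.cgt, Val_all, Val_imp, Val_ex, Val_and, Val_neg, Val_or, Val_iff, Val_mem, Val_eq, cons_zero, cons_one, cons_two, cons_three, cons_four, cons_five, cons_six, cons_succ, Val_sub, Val_pr, Val_op, Val_r, Val_relOn, Val_fn, Val_surj, Val_ord, Val_isOmega, Val_isNext, Val_cofinal, Val_club, Val_stat, Val_sr, Val_tree, Val_branch, Val_tp, Val_nwkh, Val_ctbl, Val_clubP, Val_dss, Val_infS, Val_almS, Val_tower, Val_psI, Val_teq, Val_uBase, Val_ueq]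

end ValF

end Pool.Agent.Work.MP_dbe197_lc
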