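import Pool.Agent.Work.MP_dbe197_lc.Ext

/-!
# Statements of the items, part M (the Mitchell algebra and its extensions)
-/

namespace Pool.Agent.Work.MP_dbe197_lc

open Set Cardinal RO MM

/-- The segment `S` is a measurable cardinal with the normal ultrafilter `U`. -/
structure Seg {L : Type} [LinearOrder L] (S : Set L) (U : Set (Set L)) : Prop where
  low : IsLowerSet S
  inacc : Inacc S
  nm : NM S U

/-- The segment below `δ` is a measurable cardinal. -/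
def Ms {L : Type} [LinearOrder L] (δ : L) : Prop := ∃ W, Seg (Iio δ) W

/-- The ground model cofinality of `α` is `ω`. -/
def CfG {L : Type} [LinearOrder L] (α : L) : Prop :=
  ∃ f : ℕ → L, (∀ n, f n < α) ∧ ∀ β < α, ∃ n, β < f n

/-! ## N: normal ultrafilters -/

/-- Consequences of `Seg S U`. -/
structure NMFacts {L : Type} [LinearOrder L] (S : Set L) (U : Set (Set L)) : Prop where
  inter2 : ∀ A B, A ∈ U → B ∈ U → A ∩ B ∈ U
  interN : ∀ A : ℕ → Set L, (∀ n, A n ∈ U) → (⋂ n, A n) ∈ U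
  interB : ∀ (A : L → Set L), ∀ β ∈ S, (∀ γ < β, A γ ∈ U) → {α | ∀ γ < β, α ∈ A γ} ∈ U
  inter1 : ∀ A : O1 → Set L, (∀ ξ, A ξ ∈ U) → (⋂ ξ, A ξ) ∈ U
  pick : ∀ A ∈ U, ∀ β ∈ S, ∃ α ∈ A, α ∈ S ∧ β < α
  const : ∀ (X : Type) (f : L → X), #X < #S → ∃ x, {α | f α = x} ∈ U
  split : ∀ (X : Type) (A : X → Set L), #X < #S → (⋃ x, A x) ∈ U → ∃ x, A x ∈ U
  diag : ∀ A : L → Set L, (∀ β ∈ S, A β ∈ U) → {α | α ∈ S ∧ ∀ β < α, α ∈ A β} ∈ U
  ctbl : ∀ f : L → Set L, {α | (f α).Countable ∧ f α ⊆ Iio α} ∈ U → ∃ C, {α | f α = C} ∈ U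
  bdd : ∀ C : Set L, C ⊆ S → #C < #S → ∃ β ∈ S, ∀ γ ∈ C, γ < β
  bddN : ∀ C : Set L, C ⊆ S → C.Countable → ∃ β ∈ S, ∀ γ ∈ C, γ < β
  clos : ∀ g : L → L, (∀ β ∈ S, g β ∈ S) → {α | ∀ β < α, g β < α} ∈ U
  limit : ∀ β ∈ S, ∃ γ ∈ S, β < γ
  aleph1 : #O1 < #S
  large : ∀ A ∈ U, #(A ∩ S : Set L) = #S

def ClaimN : Prop := ∀ (L : Type) [LinearOrder L] [WellFoundedLT L] (S : Set L) (U : Set (Set L)),
  Seg S U → NMFacts S U

/-! ## M: the Mitchell algebra -/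

/-- Few bounded conditions. -/
def ClaimSmall : Prop := ∀ (L : Type) [LinearOrder L] [WellFoundedLT L] (S : Set L),
  IsLowerSet S → Inacc S → ∀ β ∈ S,
    #{v : Pt L → L | (∀ c, v c ≤ β) ∧ ∀ c c' : Pt L, (∀ γ ≤ β, c γ = c' γ) → v c = v c'} < #S ∧
    #{q : TT L | q.supp ⊆ Iio β} < #S ∧
    #{m : MM L | m.supp ⊆ Iio β} < #S ∧
    #{a : RO (MM L) | DepM (Iio β) a} < #S

/-- The heads of an `L`-sequence of conditions are constant on a large set. -/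
def ClaimHead : Prop := ∀ (L : Type) [LinearOrder L] [WellFoundedLT L] (S : Set L)
  (U : Set (Set L)), Seg S U → ∀ m : L → MM L,
    ∃ m0 : MM L, {α | res (Iio α) (m α) = m0} ∈ U ∧ ∃ β ∈ S, m0.supp ⊆ Iio β

/-- Strong chain condition. -/
def ClaimSun : Prop := ∀ (L : Type) [LinearOrder L] [WellFoundedLT L] (S : Set L)
  (U : Set (Set L)), Seg S U → ∀ m : L → MM L, (∀ α, (m α).supp ⊆ S) →
    ∃ A ∈ U, ∀ α ∈ A, ∀ β ∈ A, α < β → (m α).supp ⊆ Iio β ∧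
      Fn.Compat (m α).p (m β).p ∧ TT.Compat (m α).q (m β).q

def ClaimCCM : Prop := ∀ (L : Type) [LinearOrder L] [WellFoundedLT L] (U : Set (Set L)),
  Seg Set.univ U → CC L (RO (MM L))

/-- Every element is bounded. -/
def ClaimBdd : Prop := ∀ (L : Type) [LinearOrder L] [WellFoundedLT L] (S : Set L)
  (U : Set (Set L)), Seg S U → ∀ a : RO (MM L), DepM S a → ∃ β ∈ S, DepM (Iio β) a

def ClaimCard : Prop := ∀ (L : Type) [LinearOrder L] [WellFoundedLT L] (U : Set (Set L)),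
  Seg Set.univ U → #(RO (MM L)) ≤ #L

/-! ## D: countable covering -/

/-- The abstract closing-off lemma. -/
def ClaimClos : Prop := ∀ (N A V A' V' D Q : Type) [Countable N] [Countable V] [Countable V']
  [Preorder Q], (∀ f : ℕ → Q, (∀ n, f (n + 1) ≤ f n) → ∃ q, ∀ n, q ≤ f n) →
  ∀ Ψ : N → Fn A V → Fn A' V' → Q → D → Prop,
    (∀ n s s' q q' d, Ψ n s s' q d → q' ≤ q → Ψ n s s' q' d) →
    ∀ q0 : Q, ∃ q ≤ q0, ∃ D0 : Set D, D0.Countable ∧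
      ∀ n s s' q1 d, q1 ≤ q → Ψ n s s' q1 d →
        ∃ t t' d', d' ∈ D0 ∧ Fn.Compat s t ∧ Fn.Compat s' t' ∧ Ψ n t t' q d'

/-- Countable covering in extensions of the Mitchell algebra. -/
def ClaimDL : Prop := ∀ (L : Type) [LinearOrder L] (I B : Type) [CompleteBooleanAlgebra B]
  (E : Ext (RO (MM L)) I B) (ι : Type) (D : ℕ → ι → B) (p : Fn (L × ℕ) Bool) (q0 : TT L),
    (∀ n, E.i (gen ⟨p, q0⟩) ≤ ⨆ j, D n j) →
    ∃ q ≤ q0, ∃ C : Set ι, C.Countable ∧ ∀ n, E.i (gen ⟨p, q⟩) ≤ ⨆ j ∈ C, D n j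

/-- All initial segments of `L` are collapsed to `ω₁`. -/
def ClaimColl : Prop := ∀ (L : Type) [LinearOrder L] (I B : Type) [CompleteBooleanAlgebra B]
  (_ : Ext (RO (MM L)) I B) (α : L),
    ∃ f : O1 → L → B, IsFun f ∧ (∀ ξ, ∀ β, ¬ β ≤ α → f ξ β = ⊥) ∧ ∀ β ≤ α, ⨆ ξ, f ξ β = ⊤

def ClaimOm2 : Prop := ∀ (L : Type) [LinearOrder L] [WellFoundedLT L] (U : Set (Set L)),
  Seg Set.univ U → ∀ (I B : Type) [CompleteBooleanAlgebra B] (_ : Ext (RO (MM L)) I B),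
    CC L B → Om2 L B

def ClaimCf : Prop := ∀ (L : Type) [LinearOrder L] [WellFoundedLT L] (U : Set (Set L)),
  Seg Set.univ U → ∀ (I B : Type) [CompleteBooleanAlgebra B] (_ : Ext (RO (MM L)) I B) (α : L),
    (CfG α → cfω B α = ⊤) ∧ (¬ CfG α → cfω B α = ⊥) ∧
    (¬ CfG α → (∃ β, β < α) → (∀ β < α, ∃ γ, β < γ ∧ γ < α) → cfω1 B α = ⊤) ∧
    (Ms α → cfω1 B α = ⊤)

/-- Names of clubs contain ground model clubs. -/
def ClaimClubU : Prop := ∀ (L : Type) [LinearOrder L] [WellFoundedLT L] (U : Set (Set L)),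
  Seg Set.univ U → ∀ (B : Type) [CompleteBooleanAlgebra B], CC L B →
    (∀ C : L → B, club C = ⊤ → {α | C α = ⊤} ∈ U) ∧
    (∀ b : L → B, ∀ A ∈ U, (∀ δ ∈ A, b δ ≠ ⊥) →
      ⨅ γ : L, ⨆ δ ∈ A, ⨆ (_ : γ < δ), b δ ≠ ⊥)

/-- Maximum principle for (non)stationarity. -/
def ClaimMix : Prop := ∀ (L : Type) [LinearOrder L] (B : Type) [CompleteBooleanAlgebra B],
  (∀ α : L, ∃ β, α < β) → ∀ (S : L → B) (b : B), b ≤ (stat S)ᶜ →
    ∃ C : L → B, club C = ⊤ ∧ b ⊓ (⨆ α, C α ⊓ S α) = ⊥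

/-! ## App: no new branches -/

/-- `R` is (a family of values of) a tree order on the nodes `H × W`. -/
structure TreeLike {A H W : Type} [CompleteBooleanAlgebra A] [LinearOrder H]
    (R : H × W → H × W → A) : Prop where
  lvl : ∀ x y, ¬ x.1 < y.1 → R x y = ⊥
  trans : ∀ x y z, R x y ⊓ R y z ≤ R x z
  tree : ∀ x y z, x.1 < y.1 → R x z ⊓ R y z ≤ R x y
  uniq : ∀ x y z, x.1 = y.1 → x ≠ y → R x z ⊓ R y z = ⊥

/-- `d` is a downward closed chain for the tree order `R`. -/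
structure Br {A H W : Type} [CompleteBooleanAlgebra A] [LinearOrder H]
    (R : H × W → H × W → A) (d : H × W → A) : Prop where
  coh : ∀ x y, x.1 < y.1 → d x ⊓ d y ≤ R x y
  uniq : ∀ x y, x.1 = y.1 → x ≠ y → d x ⊓ d y = ⊥
  down : ∀ x y, x.1 < y.1 → R x y ⊓ d y ≤ d x

/-- Value of: `y0` and `y1` have no common upper bound. -/
def incv {A H W : Type} [CompleteBooleanAlgebra A] (R : H × W → H × W → A)
    (y0 y1 : H × W) : A := ⨅ z, (R y0 z ⊓ R y1 z)ᶜ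

/-- Situation of the lemmas on new branches. -/
structure AppSit {L : Type} [LinearOrder L] {H W : Type} [LinearOrder H] (δ : L)
    (R : H × W → H × W → RO (MM L)) (d : H × W → RO (MM L)) (m0 : MM L) : Prop where
  hH : ∀ C : Set H, C.Countable → ∃ γ, ∀ β ∈ C, β < γ
  hR : TreeLike R
  dep : ∀ x y, DepM (Iio δ) (R x y)
  hd : Br R d
  unb : ∀ γ : H, m0 ∈ ⨆ x : H × W, ⨆ (_ : γ < x.1), d x

/-- Splitting into incomparable nodes with the same head. -/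
def ClaimAppN : Prop := ∀ (L : Type) [LinearOrder L] (H W : Type) [LinearOrder H] (δ : L)
  (R : H × W → H × W → RO (MM L)) (d : H × W → RO (MM L)) (m0 : MM L), AppSit δ R d m0 →
  (∀ m ≤ m0, ∀ ν : H × W → RO (MM L), (∀ x, DepM (Iio δ) (ν x)) → m ∉ beq d ν) →
  ∀ n0 n1 : MM L, n0 ≤ m0 → n1 ≤ m0 → res (Iio δ) n0 = res (Iio δ) n1 →
    ∃ k0 k1 : MM L, k0 ≤ n0 ∧ k1 ≤ n1 ∧ res (Iio δ) k0 = res (Iio δ) k1 ∧
      ∃ y0 y1 : H × W, k0 ∈ d y0 ∧ k1 ∈ d y1 ∧ k0 ∈ incv R y0 y1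

/-- Splitting of the term part. -/
def ClaimAppS : Prop := ∀ (L : Type) [LinearOrder L] (H W : Type) [LinearOrder H] (δ : L)
  (R : H × W → H × W → RO (MM L)) (d : H × W → RO (MM L)) (m0 : MM L), AppSit δ R d m0 →
  (∀ m ≤ m0, ∀ ν : H × W → RO (MM L), (∀ x, DepM (Iio δ) (ν x)) → m ∉ beq d ν) →
  ∀ q ≤ m0.q, ∃ q0 ≤ q, ∃ q1 ≤ q, q0.restr (Iio δ) = q1.restr (Iio δ) ∧ ∃ γ : H,
    ∀ n0 n1 : MM L, n0 ≤ ⟨m0.p, q0⟩ → n1 ≤ ⟨m0.p, q1⟩ → res (Iio δ) n0 = res (Iio δ) n1 →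
      ∀ z : H × W, γ ≤ z.1 → ¬ (n0 ∈ d z ∧ n1 ∈ d z)

/-- Abstract fusion. -/
def ClaimFusion : Prop := ∀ (H R Γ : Type) [Preorder H] [Preorder R]
  (P : H → R → R → Γ → Prop),
  (∀ h h' r0 r0' r1 r1' γ, P h r0 r1 γ → h' ≤ h → r0' ≤ r0 → r1' ≤ r1 → P h' r0' r1' γ) →
  (∀ h r, ∃ h' ≤ h, ∃ r0 ≤ r, ∃ r1 ≤ r, ∃ γ, P h' r0 r1 γ) →
  ∀ h0 r0, ∃ (h : ℕ → H) (r : List Bool → R) (γ : List Bool → Γ),
    h 0 ≤ h0 ∧ (∀ n, h (n + 1) ≤ h n) ∧ r [] ≤ r0 ∧ (∀ s b, r (s ++ [b]) ≤ r s) ∧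
    ∀ s, P (h (s.length + 1)) (r (s ++ [false])) (r (s ++ [true])) (γ s)

/-- The point `c` at the coordinate `δ` extends the finite sequence `s`. -/
def Extends {L : Type} (c : Pt L) (δ : L) (s : List Bool) : Prop :=
  ∀ i (h : i < s.length), c δ i = s[i]

/-- Mixing a binary tree of term conditions with the Cohen real with index `δ`. -/
def ClaimMixT : Prop := ∀ (L : Type) [LinearOrder L] (δ : L) (r : List Bool → TT L) (h0 : TT L),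
  (∀ s b, r (s ++ [b]) ≤ r s) → h0.supp ⊆ Iio δ →
  ∃ q : TT L, q.restr (Iio δ) = h0 ∧
    ∀ s α ξ v, δ ≤ α → (r s).val α ξ = some v →
      ∃ w, q.val α ξ = some w ∧ ∀ c, Extends c δ s → w c = v c

/-- No new branches (approximation property). -/
def ClaimApp : Prop := ∀ (L : Type) [LinearOrder L] (H W : Type) [LinearOrder H] (δ : L)
  (R : H × W → H × W → RO (MM L)) (d : H × W → RO (MM L)) (m0 : MM L), AppSit δ R d m0 →
  ∃ m ≤ m0, ∃ ν : H × W → RO (MM L), (∀ x, DepM (Iio δ) (ν x)) ∧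
    (∀ x y, x.1 = y.1 → x ≠ y → ν x ⊓ ν y = ⊥) ∧ m ∈ beq d ν

/-! ## Cover: reduction of an extension to the Mitchell algebra -/

/-- `h` is a sequence of maps onto the base algebra, each a homomorphism of meet semilattices
preserving `⊥` and extending the identity, which covers all elements of `V`. -/
structure Cov {A I B : Type} [CompleteBooleanAlgebra A] [CompleteBooleanAlgebra B]
    (E : Ext A I B) (V : Set B) (h : ℕ → B → A) : Prop where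
  inf : ∀ n b b', h n (b ⊓ b') = h n b ⊓ h n b'
  bot : ∀ n, h n ⊥ = ⊥
  base : ∀ n a, h n (E.i a) = a
  cov : ∀ b ∈ V, ∀ a, b ⊓ E.i a ≠ ⊥ → ∃ n, h n b ⊓ a ≠ ⊥

def ClaimCover : Prop := ∀ (L : Type) [LinearOrder L] [WellFoundedLT L] (U : Set (Set L)),
  Seg Set.univ U → ∀ (I B : Type) [CompleteBooleanAlgebra B] (E : Ext (RO (MM L)) I B)
    (V : Set B), #V ≤ #L → ∃ h, Cov E V h

/-! ## TP: the tree property -/

/-- Guessing below `δ`. -/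
def ClaimGuess : Prop := ∀ (L : Type) [LinearOrder L] (H W : Type) [LinearOrder H] (δ : L)
  (R : ℕ → H × W → H × W → RO (MM L)) (d : ℕ → H × W → RO (MM L)),
  (∀ C : Set H, C.Countable → ∃ γ, ∀ β ∈ C, β < γ) → (∀ n, TreeLike (R n)) →
  (∀ n x y, DepM (Iio δ) (R n x y)) → (∀ n, Br (R n) (d n)) →
  ∀ (p : Fn (L × ℕ) Bool) (q0 : TT L), ∃ q ≤ q0, ∃ ν : ℕ → H × W → RO (MM L),
    (∀ k x, DepM (Iio δ) (ν k x)) ∧ (∀ k x y, x.1 = y.1 → x ≠ y → ν k x ⊓ ν k y = ⊥) ∧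
    ∃ γ : H, ∀ n x, γ < x.1 → gen ⟨p, q⟩ ⊓ d n x ≤ ⨆ k, ν k x

/-- The global guess: limit along the ultrafilter. `d δ n` is a branch of `R n` below `δ`. -/
def ClaimLim : Prop := ∀ (L : Type) [LinearOrder L] [WellFoundedLT L] (U : Set (Set L)),
  Seg Set.univ U → {δ : L | Ms δ} ∈ U →
  ∀ (R : ℕ → L × O1 → L × O1 → RO (MM L)) (d : L → ℕ → L × O1 → RO (MM L)),
  (∀ n, TreeLike (R n)) →
  (∀ δ n x y, x.1 < y.1 → y.1 < δ → d δ n x ⊓ d δ n y ≤ R n x y) →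
  (∀ δ n x y, x.1 = y.1 → x ≠ y → x.1 < δ → d δ n x ⊓ d δ n y = ⊥) →
  (∀ δ n x y, x.1 < y.1 → y.1 < δ → R n x y ⊓ d δ n y ≤ d δ n x) →
  ∀ m0 : MM L, ∃ (q1 : TT L) (Z : ℕ → L × O1 → RO (MM L)) (γs : L) (A : Set L)
    (q : L → TT L), q1 ≤ m0.q ∧ A ∈ U ∧
    (∀ k x y, x.1 = y.1 → x ≠ y → Z k x ⊓ Z k y = ⊥) ∧
    (∀ δ ∈ A, q δ ≤ q1 ∧ ∀ n x, γs < x.1 → x.1 < δ →
      gen (⟨m0.p, q δ⟩ : MM L) ⊓ d δ n x ≤ ⨆ k, Z k x) ∧
    ∀ γ : L, gen (⟨m0.p, q1⟩ : MM L) ≤ ⨆ δ ∈ A, ⨆ (_ : γ < δ), gen (⟨m0.p, q δ⟩ : MM L)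

/-- The thin subtree given by `z` and `γs`. -/
def thin {B L W : Type} [CompleteBooleanAlgebra B] [LinearOrder L] (T : BTree B L W)
    (z : ℕ → L × W → B) (γs : L) (x : L × W) : B :=
  T.D x ⊓ (⨆ k, z k x) ⊓ ⨅ y : L × W, ⨅ (_ : γs < y.1), (T.t y x)ᶜ ⊔ ⨆ k, z k y

/-- Local branches. -/
structure PBr {B L W : Type} [CompleteBooleanAlgebra B] [LinearOrder L] (T : BTree B L W)
    (b : B) (f : L × W → B) : Prop where
  le : ∀ x, f x ≤ T.D x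
  chain : ∀ x y, x.1 < y.1 → f x ⊓ f y ≤ T.t x y
  uniq : ∀ x y, x.1 = y.1 → x ≠ y → f x ⊓ f y = ⊥
  full : ∀ α, b ≤ ⨆ w, f (α, w)

/-- Every tree has locally a subtree with countable levels. -/
def ClaimThin : Prop := ∀ (L : Type) [LinearOrder L] [WellFoundedLT L] (U : Set (Set L)),
  Seg Set.univ U → {δ : L | Ms δ} ∈ U →
  ∀ (I B : Type) [CompleteBooleanAlgebra B] (_ : Ext (RO (MM L)) I B) (T : BTree B L O1) (b0 : B),
    b0 ≠ ⊥ → ∃ b ≤ b0, b ≠ ⊥ ∧ ∃ (z : ℕ → L × O1 → B) (γs : L),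
      (∀ k x y, x.1 = y.1 → x ≠ y → z k x ⊓ z k y = ⊥) ∧
      ∀ α, γs < α → b ≤ ⨆ w, thin T z γs (α, w)

/-- Kurepa's theorem: thin subtrees have local branches. -/
def ClaimKur : Prop := ∀ (L : Type) [LinearOrder L] [WellFoundedLT L] (U : Set (Set L)),
  Seg Set.univ U → {δ : L | Ms δ} ∈ U →
  ∀ (I B : Type) [CompleteBooleanAlgebra B] (_ : Ext (RO (MM L)) I B), CC L B →
  ∀ (T : BTree B L O1) (b : B) (z : ℕ → L × O1 → B) (γs : L), b ≠ ⊥ →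
    (∀ k x y, x.1 = y.1 → x ≠ y → z k x ⊓ z k y = ⊥) →
    (∀ α, γs < α → b ≤ ⨆ w, thin T z γs (α, w)) →
    ∃ b' ≤ b, b' ≠ ⊥ ∧ ∃ f, PBr T b' f

def ClaimMixBr : Prop := ∀ (B L W : Type) [CompleteBooleanAlgebra B] [LinearOrder L]
  (T : BTree B L W), (∀ b : B, b ≠ ⊥ → ∃ b' ≤ b, b' ≠ ⊥ ∧ ∃ f, PBr T b' f) → ∃ f, IsBr T f

def ClaimTP : Prop := ∀ (L : Type) [LinearOrder L] [WellFoundedLT L] (U : Set (Set L)),
  Seg Set.univ U → {δ : L | Ms δ} ∈ U →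
  ∀ (I B : Type) [CompleteBooleanAlgebra B] (_ : Ext (RO (MM L)) I B), CC L B → TP L B

def ClaimKH : Prop := ∀ (L : Type) [LinearOrder L] [WellFoundedLT L] (U : Set (Set L)),
  Seg Set.univ U →
  ∀ (I B : Type) [CompleteBooleanAlgebra B] (_ : Ext (RO (MM L)) I B), CC L B → NwKH L B

/-! ## SR: stationary reflection -/

/-- `C` is a ground model club of the segment below `δ`. -/
def ClubG {L : Type} [LinearOrder L] (δ : L) (C : Set L) : Prop :=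
  (∀ α < δ, ∃ β ∈ C, α < β ∧ β < δ) ∧
    ∀ α < δ, (∃ β, β < α) → (∀ β < α, ∃ γ ∈ C, β < γ ∧ γ < α) → α ∈ C

/-- Preservation of stationarity at one `δ`. -/
def ClaimSRd : Prop := ∀ (L : Type) [LinearOrder L] [WellFoundedLT L] (δ : L), Ms δ →
  ∀ (S : L → RO (MM L)), (∀ α < δ, DepM (Iio δ) (S α)) → (∀ α, S α ≠ ⊥ → CfG α) →
  ∀ m : MM L, (∀ C, ClubG δ C → m ∈ ⨆ α ∈ C, ⨆ (_ : α < δ), S α) → m ∈ stat (below δ S)

/-- Reflection in the Mitchell algebra. -/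
def ClaimSRA : Prop := ∀ (L : Type) [LinearOrder L] [WellFoundedLT L] (U : Set (Set L)),
  Seg Set.univ U → {δ : L | Ms δ} ∈ U → ∀ (S : L → RO (MM L)), (∀ α, S α ≠ ⊥ → CfG α) →
  ∀ m ∈ stat S, ∃ δ, Ms δ ∧ m ∈ stat (below δ S)

def ClaimSR : Prop := ∀ (L : Type) [LinearOrder L] [WellFoundedLT L] (U : Set (Set L)),
  Seg Set.univ U → {δ : L | Ms δ} ∈ U →
  ∀ (I B : Type) [CompleteBooleanAlgebra B] (_ : Ext (RO (MM L)) I B), CC L B → SR L B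

/-! ## DSS: the disjoint stationary sequence -/

/-- Value of: `x` is a subset of `δ` in the extension by the Cohen reals with index `≤ δ`, but
not in the extension by those with index `< δ`. -/
def Nd {L I B : Type} [LinearOrder L] [CompleteBooleanAlgebra B] (E : Ext (RO (MM L)) I B)
    (δ : L) (x : L → B) : B :=
  (⨆ (y : L → RO (MM L)) (_ : {a | y a ≠ ⊥}.Countable ∧ (∀ a, ¬ a < δ → y a = ⊥) ∧
      ∀ a, DepC (Iic δ) (y a)), beq x (fun a => E.i (y a))) ⊓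
    (⨆ (y : L → RO (MM L)) (_ : ∀ a, DepC (Iio δ) (y a)), beq x (fun a => E.i (y a)))ᶜ

def ClaimNd : Prop := ∀ (L : Type) [LinearOrder L] [Nonempty L] (I B : Type)
  [CompleteBooleanAlgebra B] (E : Ext (RO (MM L)) I B),
    (∀ δ x y, Nd E δ x ⊓ beq x y ≤ Nd E δ y) ∧ (∀ δ x, Nd E δ x ≤ ctblSub δ x) ∧
    ∀ δ δ' x, δ ≠ δ' → Nd E δ x ⊓ Nd E δ' x = ⊥

/-- The countable set `y` of elements below `δ` is closed under `F` below `q`. -/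
def Pos {L I B : Type} [LinearOrder L] [CompleteBooleanAlgebra B] (E : Ext (RO (MM L)) I B)
    (δ : L) (F : List L → L → B) (q : TT L) (y : Set L) : Prop :=
  y.Countable ∧ y ⊆ Iio δ ∧
    ∀ u : List L, (∀ a ∈ u, a ∈ y) → E.i (gen ⟨Fn.empty, q⟩) ≤ ⨆ γ ∈ y, F u γ

def ClaimPos : Prop := ∀ (L : Type) [LinearOrder L] (I B : Type)
  [CompleteBooleanAlgebra B] (E : Ext (RO (MM L)) I B) (δ : L) (F : List L → L → B),
  IsFun F → (∀ u b, ¬ b < δ → F u b = ⊥) → ∀ (q : TT L) (y : Set L), y.Countable →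
    y ⊆ Iio δ → ∃ q' ≤ q, ∃ y' : Set L, y ⊆ y' ∧ Pos E δ F q' y'

/-- The tree of positions. -/
def ClaimTree : Prop := ∀ (L : Type) [LinearOrder L] [WellFoundedLT L] (δ : L)
  (W : Set (Set L)), Seg (Iio δ) W → ∀ (q : List L → TT L) (y : List L → Set L),
  (∀ u g, q (u ++ [g]) ≤ q u) → (∀ u g, y u ⊆ y (u ++ [g])) →
  (∀ u g, g < δ → g ∈ y (u ++ [g])) → (∀ u, (y u).Countable) →
  (∀ u, y u ⊆ Iio δ) →
  ∃ (u : List Bool → List L) (g : List Bool → L), u [] = [] ∧ (∀ s, g s < δ) ∧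
    (∀ s b, u (s ++ [b]) = u s ++ [g (s ++ [b])]) ∧
    (∀ s t, TT.Compat ((q (u s)).restr (Iio δ)) ((q (u t)).restr (Iio δ))) ∧
    ∀ s t, g (s ++ [false]) ∈ y (u t) → ¬ (s ++ [true]) <+: t

/-- Stationarity of `Nd`. -/
def ClaimNst : Prop := ∀ (L : Type) [LinearOrder L] [WellFoundedLT L] (δ : L), Ms δ →
  ∀ (I B : Type) [CompleteBooleanAlgebra B] (E : Ext (RO (MM L)) I B), statP δ (Nd E δ) = ⊤

def ClaimDSS : Prop := ∀ (L : Type) [LinearOrder L] [WellFoundedLT L] (U : Set (Set L)),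
  Seg Set.univ U → {δ : L | Ms δ} ∈ U →
  ∀ (I B : Type) [CompleteBooleanAlgebra B] (_ : Ext (RO (MM L)) I B), CC L B → DSS L B

end Pool.Agent.Work.MP_dbe197_lc
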