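import Pool.Agent.Work.MP_dbe197_lc.StmtsA

/-!
# The recursion
-/

namespace Pool.Agent.Work.MP_dbe197_lc

open Set Cardinal

set_option linter.unusedSectionVars false

namespace RecAux

/-! ## Filters -/

section Filters

variable {X : Type}

theorem rec_subIn_refl {𝓑 : Set (Set X)} (Z : ℕ → Set X) : SubIn 𝓑 Z Z :=
  fun b hb hbn => ⟨b, hb, hbn, subset_rfl, 0, fun _ _ _ h => h.2⟩

theorem rec_subIn_trans {𝓑 : Set (Set X)} {Z Z' Z'' : ℕ → Set X} (h : SubIn 𝓑 Z Z')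
    (h' : SubIn 𝓑 Z' Z'') : SubIn 𝓑 Z Z'' := by
  intro b hb hbn
  obtain ⟨c, hc, hcn, hcb, n, hn⟩ := h b hb hbn
  obtain ⟨d, hd, hdn, hdc, n', hn'⟩ := h' c hc hcn
  refine ⟨d, hd, hdn, hdc.trans hcb, max n n', ?_⟩
  intro k hk x hx
  have h1 := hn k ((le_max_left _ _).trans hk) ⟨hdc hx.1, hx.2⟩
  exact hn' k ((le_max_right _ _).trans hk) ⟨hx.1, h1⟩

theorem rec_subIn_inter {𝓑 : Set (Set X)} {T Z Z' : ℕ → Set X} (h : SubIn 𝓑 T Z)
    (h' : SubIn 𝓑 T Z') : SubIn 𝓑 T (fun k => Z k ∩ Z' k) := by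
  intro b hb hbn
  obtain ⟨c, hc, hcn, hcb, n, hn⟩ := h b hb hbn
  obtain ⟨d, hd, hdn, hdc, n', hn'⟩ := h' c hc hcn
  refine ⟨d, hd, hdn, hdc.trans hcb, max n n', ?_⟩
  intro k hk x hx
  exact ⟨hn k ((le_max_left _ _).trans hk) ⟨hdc hx.1, hx.2⟩,
    hn' k ((le_max_right _ _).trans hk) ⟨hx.1, hx.2⟩⟩

theorem rec_infOn_subIn {𝓑 : Set (Set X)} {T Z : ℕ → Set X} (hT : InfOn 𝓑 Set.univ T)
    (h : SubIn 𝓑 T Z) : InfOn 𝓑 Set.univ Z := by
  intro c hc hcn _ n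
  obtain ⟨d, hd, hdn, hdc, n', hn'⟩ := h c hc hcn
  obtain ⟨k, hk, x, hx⟩ := hT d hd hdn (subset_univ _) (max n n')
  exact ⟨k, (le_max_left _ _).trans hk, x, hdc hx.1,
    hn' k ((le_max_right _ _).trans hk) hx⟩

/-- The filter generated by a directed family. -/
theorem rec_gen_isFil {𝓑 : Set (Set X)} (hA : IsAlg 𝓑) (G : Set (ℕ → Set X))
    (hne : (fun _ => Set.univ) ∈ G) (hinf : ∀ T ∈ G, InfOn 𝓑 Set.univ T)
    (hdir : ∀ T ∈ G, ∀ T' ∈ G, ∃ T'' ∈ G, SubIn 𝓑 T'' T ∧ SubIn 𝓑 T'' T') :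
    IsFil 𝓑 {Z | Nm 𝓑 Z ∧ ∃ T ∈ G, SubIn 𝓑 T Z} where
  nm := fun Z hZ => hZ.1
  inf := by
    rintro Z ⟨_, T, hT, hs⟩
    exact rec_infOn_subIn (hinf T hT) hs
  inter := by
    rintro Z ⟨hZ, T, hT, hs⟩ Z' ⟨hZ', T', hT', hs'⟩
    refine ⟨fun k => hA.inter _ (hZ k) _ (hZ' k), ?_⟩
    obtain ⟨T'', hT'', h1, h2⟩ := hdir T hT T' hT'
    exact ⟨T'', hT'', rec_subIn_inter (rec_subIn_trans h1 hs) (rec_subIn_trans h2 hs')⟩
  up := by
    rintro Z ⟨_, T, hT, hs⟩ Z' hZ' h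
    exact ⟨hZ', T, hT, rec_subIn_trans hs h⟩
  univ := ⟨fun _ => hA.univ, _, hne, rec_subIn_refl _⟩

theorem rec_univ_infOn {𝓑 : Set (Set X)} : InfOn 𝓑 Set.univ (fun _ => Set.univ) := by
  intro c _ hcn _ n
  exact ⟨n, le_rfl, by simpa using hcn⟩

theorem rec_cof_isFil {𝓑 : Set (Set X)} (hA : IsAlg 𝓑) : IsFil 𝓑 (Cof 𝓑) := by
  have h := rec_gen_isFil hA {fun _ => Set.univ} rfl
    (by rintro T rfl; exact rec_univ_infOn)
    (by rintro T rfl T' rfl; exact ⟨_, rfl, rec_subIn_refl _, rec_subIn_refl _⟩)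
  have heq : Cof 𝓑 = {Z | Nm 𝓑 Z ∧ ∃ T ∈ ({fun _ => Set.univ} : Set (ℕ → Set X)),
      SubIn 𝓑 T Z} := by
    ext Z
    constructor
    · rintro ⟨h1, h2⟩
      exact ⟨h1, _, rfl, h2⟩
    · rintro ⟨h1, T, rfl, h2⟩
      exact ⟨h1, h2⟩
  rw [heq]
  exact h

end Filters

/-! ## The definition of the stages -/

section Defs

variable {A L Jt : Type} [CompleteBooleanAlgebra A] [LinearOrder L]

/-- The property of the filter at the main index. -/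
def Main (α : L) (𝓑 : Set (Set (XX A L (Bool ⊕ Jt))))
    (𝓕 : Set (ℕ → Set (XX A L (Bool ⊕ Jt)))) : Prop :=
  IsFil 𝓑 𝓕 ∧ IsUlt 𝓑 𝓕 ∧ ∀ β < α, mg β (Sum.inl true) ∈ 𝓕

/-- The property of the enumeration of filters. -/
def Enum (L : Type) [LinearOrder L] (Jt : Type) {X : Type} (𝓑 : Set (Set X))
    (g : Jt → Set (ℕ → Set X)) : Prop :=
  (∀ j, IsFil 𝓑 (g j)) ∧ ∀ (ρ : L) (T : Iio ρ → ℕ → Set X),
    (∃ 𝓖, IsFil 𝓑 𝓖 ∧ ∀ ξ, T ξ ∈ 𝓖) → ∃ j, ∀ ξ, T ξ ∈ g j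

open Classical in
/-- The filters chosen at a stage. -/
noncomputable def Fch (α : L) (𝓑 : Set (Set (XX A L (Bool ⊕ Jt)))) :
    Bool ⊕ Jt → Set (ℕ → Set (XX A L (Bool ⊕ Jt)))
  | Sum.inl false => Cof 𝓑
  | Sum.inl true => if h : ∃ 𝓕, Main α 𝓑 𝓕 then h.choose else Cof 𝓑
  | Sum.inr j => if h : ∃ g, Enum L Jt 𝓑 g then h.choose j else Cof 𝓑

/-- The algebra before completion. -/
def Pre (α : L) (prev : (β : L) → β < α → Set (Set (XX A L (Bool ⊕ Jt)))) :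
    Set (Set (XX A L (Bool ⊕ Jt))) :=
  Set.range bs ∪ ⋃ (β : L) (h : β < α), stepAlg β (prev β h) (Fch β (prev β h))

open Classical in
/-- The next stage. -/
noncomputable def Nxt (α : L) (prev : (β : L) → β < α → Set (Set (XX A L (Bool ⊕ Jt)))) :
    Set (Set (XX A L (Bool ⊕ Jt))) :=
  if h : ∃ 𝓑, Pre α prev ⊆ 𝓑 ∧ 𝓑 ⊆ {b | DepX (Iio α) b} ∧ IsAlg 𝓑 ∧ DenseIn (Pre α prev) 𝓑 ∧
    CompleteIn 𝓑 then h.choose else ∅

variable [WellFoundedLT L]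

/-- The stages. -/
noncomputable def BB (A L Jt : Type) [CompleteBooleanAlgebra A] [LinearOrder L]
    [WellFoundedLT L] : L → Set (Set (XX A L (Bool ⊕ Jt))) :=
  WellFounded.fix (wellFounded_lt (α := L)) Nxt

/-- The filters. -/
noncomputable def FF (A L Jt : Type) [CompleteBooleanAlgebra A] [LinearOrder L]
    [WellFoundedLT L] (α : L) : Bool ⊕ Jt → Set (ℕ → Set (XX A L (Bool ⊕ Jt))) :=
  Fch α (BB A L Jt α)

/-- The steps. -/
noncomputable def CCC (A L Jt : Type) [CompleteBooleanAlgebra A] [LinearOrder L]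
    [WellFoundedLT L] (α : L) : Set (Set (XX A L (Bool ⊕ Jt))) :=
  stepAlg α (BB A L Jt α) (FF A L Jt α)

theorem BB_eq (α : L) : BB A L Jt α = Nxt α (fun β _ => BB A L Jt β) :=
  WellFounded.fix_eq _ _ _

/-- The algebra before completion. -/
noncomputable def PP (A L Jt : Type) [CompleteBooleanAlgebra A] [LinearOrder L]
    [WellFoundedLT L] (α : L) : Set (Set (XX A L (Bool ⊕ Jt))) :=
  Set.range bs ∪ ⋃ (β : L) (_ : β < α), CCC A L Jt β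

theorem mem_PP {α : L} {b : Set (XX A L (Bool ⊕ Jt))} :
    b ∈ PP A L Jt α ↔ b ∈ Set.range bs ∨ ∃ β < α, b ∈ CCC A L Jt β := by
  simp [PP]

/-- The invariant of the recursion. -/
structure Inv (A L Jt : Type) [CompleteBooleanAlgebra A] [LinearOrder L]
    [WellFoundedLT L] (α : L) : Prop where
  alg : IsAlg (BB A L Jt α)
  comp : CompleteIn (BB A L Jt α)
  dep : ∀ b ∈ BB A L Jt α, DepX (Iio α) b
  int : HasInt (BB A L Jt α)
  base : Reg (Set.range bs) (BB A L Jt α)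
  step : ∀ β < α, Reg (CCC A L Jt β) (BB A L Jt α)
  size : #(BB A L Jt α) ≤ #Jt
  main : Main α (BB A L Jt α) (FF A L Jt α (Sum.inl true))
  enum : Enum L Jt (BB A L Jt α) (fun j => FF A L Jt α (Sum.inr j))

theorem Inv.fil {α : L} (h : Inv A L Jt α) : ∀ j, IsFil (BB A L Jt α) (FF A L Jt α j)
  | Sum.inl false => rec_cof_isFil h.alg
  | Sum.inl true => h.main.1
  | Sum.inr j => h.enum.1 j

theorem Inv.stepHyp {α : L} (h : Inv A L Jt α) :
    StepHyp α (BB A L Jt α) (FF A L Jt α) :=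
  ⟨h.alg, h.int, h.dep, h.fil⟩

end Defs

/-! ## Algebra of the base -/

section Base

variable {A L J : Type} [CompleteBooleanAlgebra A] [LinearOrder L]

theorem bs_top : (bs (⊤ : A) : Set (XX A L J)) = Set.univ := by
  ext x; simp [bs, x.1.top_mem]

theorem bs_inf (a b : A) : (bs (a ⊓ b) : Set (XX A L J)) = bs a ∩ bs b := by
  ext x
  constructor
  · intro h
    exact ⟨x.1.up _ _ inf_le_left h, x.1.up _ _ inf_le_right h⟩
  · rintro ⟨h1, h2⟩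
    exact x.1.inf_mem _ _ h1 h2

theorem bs_compl (a : A) : (bs aᶜ : Set (XX A L J)) = (bs a)ᶜ := by
  ext x
  constructor
  · intro h h'
    have := x.1.inf_mem _ _ h' h
    rw [inf_compl_eq_bot] at this
    exact x.1.bot_mem this
  · intro h
    rcases x.1.ultra a with h' | h'
    · exact absurd h' h
    · exact h'

theorem range_isAlg : IsAlg (Set.range (bs : A → Set (XX A L J))) where
  univ := ⟨⊤, bs_top⟩
  compl := by
    rintro _ ⟨a, rfl⟩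
    exact ⟨aᶜ, bs_compl a⟩
  inter := by
    rintro _ ⟨a, rfl⟩ _ ⟨b, rfl⟩
    exact ⟨a ⊓ b, bs_inf a b⟩

theorem range_hasInt : HasInt (Set.range (bs : A → Set (XX A L J))) := by
  rintro _ ⟨a, rfl⟩ ⟨x, hx⟩
  refine ⟨a, ?_, Fn.empty, fun y hy => hy.1⟩
  rintro rfl
  exact x.1.bot_mem hx

theorem depX_bs (S : Set L) (a : A) : DepX S (bs a : Set (XX A L J)) := by
  intro x y hxy _ hx
  have : a ∈ y.1.s := hxy ▸ hx
  exact this

theorem rec_depX_mono {S T : Set L} (h : S ⊆ T) {b : Set (XX A L J)} (hb : DepX S b) : DepX T b :=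
  fun x y h1 h2 hx => hb x y h1 (fun i hi => h2 i (h hi)) hx

theorem depX_isAlg (S : Set L) : IsAlg {b : Set (XX A L J) | DepX S b} where
  univ := fun _ _ _ _ _ => trivial
  compl := by
    intro b hb x y h1 h2 hx hy
    exact hx (hb y x h1.symm (fun i hi => (h2 i hi).symm) hy)
  inter := by
    intro b hb c hc x y h1 h2 hx
    exact ⟨hb x y h1 h2 hx.1, hc x y h1 h2 hx.2⟩

theorem depX_sUnion (S : Set L) (𝓢 : Set (Set (XX A L J))) (h : 𝓢 ⊆ {b | DepX S b}) :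
    DepX S (⋃₀ 𝓢) := by
  rintro x y h1 h2 ⟨b, hb, hx⟩
  exact ⟨b, hb, h hb x y h1 h2 hx⟩

theorem reg_refl {X : Type} {𝓑 : Set (Set X)} : Reg 𝓑 𝓑 := by
  refine ⟨subset_rfl, fun b hb hbn => ⟨b, hb, hbn, ?_⟩⟩
  intro c _ hcn hcb
  obtain ⟨x, hx⟩ := hcn
  exact ⟨x, hx, hcb hx⟩

end Base

/-! ## The step of the induction -/

section Main

variable {A L Jt : Type} [CompleteBooleanAlgebra A] [Nontrivial A] [LinearOrder L]
  [WellFoundedLT L]

theorem reg_BC (h1 : ClaimStep1) {α : L} (h : Inv A L Jt α) :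
    Reg (BB A L Jt α) (CCC A L Jt α) :=
  (h1 A L (Bool ⊕ Jt) α _ _ h.stepHyp).2.1

theorem alg_C (h1 : ClaimStep1) {α : L} (h : Inv A L Jt α) : IsAlg (CCC A L Jt α) :=
  (h1 A L (Bool ⊕ Jt) α _ _ h.stepHyp).1

theorem int_C (h1 : ClaimStep1) {α : L} (h : Inv A L Jt α) : HasInt (CCC A L Jt α) :=
  (h1 A L (Bool ⊕ Jt) α _ _ h.stepHyp).2.2.1

theorem dep_C (h1 : ClaimStep1) {α : L} (h : Inv A L Jt α) :
    ∀ b ∈ CCC A L Jt α, DepX (Iic α) b :=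
  (h1 A L (Bool ⊕ Jt) α _ _ h.stepHyp).2.2.2.1

theorem mg_C (h1 : ClaimStep1) {α : L} (h : Inv A L Jt α) (j : Bool ⊕ Jt) :
    Nm (CCC A L Jt α) (mg α j) :=
  (h1 A L (Bool ⊕ Jt) α _ _ h.stepHyp).2.2.2.2.1 j

theorem base_C (h1 : ClaimStep1) (hR : ClaimReg) {α : L} (h : Inv A L Jt α) :
    Reg (Set.range bs) (CCC A L Jt α) :=
  (hR _ _ _ _ range_isAlg h.alg (alg_C h1 h)).1 h.base (reg_BC h1 h)

theorem reg_CC (h1 : ClaimStep1) (hR : ClaimReg) {α β : L} (hβ : Inv A L Jt β)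
    (hα : Inv A L Jt α) (hlt : β < α) : Reg (CCC A L Jt β) (CCC A L Jt α) :=
  (hR _ _ _ _ (alg_C h1 hβ) hα.alg (alg_C h1 hα)).1 (hα.step β hlt) (reg_BC h1 hα)

section Step

variable (h1 : ClaimStep1) (hR : ClaimReg) {α : L} (ih : ∀ β < α, Inv A L Jt β)

include h1 hR ih

theorem reg_CP {β : L} (hβ : β < α) : Reg (CCC A L Jt β) (PP A L Jt α) := by
  refine ⟨fun b hb => mem_PP.2 (Or.inr ⟨β, hβ, hb⟩), ?_⟩
  intro b' hb' hne
  have self : ∀ b' ∈ CCC A L Jt β, b'.Nonempty → ∃ b ∈ CCC A L Jt β, b.Nonempty ∧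
      ∀ c ∈ CCC A L Jt β, c.Nonempty → c ⊆ b → (c ∩ b').Nonempty := reg_refl.2
  rcases mem_PP.1 hb' with h | ⟨γ, hγ, h⟩
  · exact self b' ((base_C h1 hR (ih β hβ)).1 h) hne
  · rcases lt_trichotomy γ β with hlt | rfl | hlt
    · exact self b' ((reg_CC h1 hR (ih γ hγ) (ih β hβ) hlt).1 h) hne
    · exact self b' h hne
    · exact (reg_CC h1 hR (ih β hβ) (ih γ hγ) hlt).2 b' h hne

theorem reg_bP : Reg (Set.range bs) (PP A L Jt α) := by
  refine ⟨fun b hb => mem_PP.2 (Or.inl hb), ?_⟩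
  intro b' hb' hne
  rcases mem_PP.1 hb' with h | ⟨γ, hγ, h⟩
  · exact reg_refl.2 b' h hne
  · exact (base_C h1 hR (ih γ hγ)).2 b' h hne

theorem int_P : HasInt (PP A L Jt α) := by
  intro b hb hne
  rcases mem_PP.1 hb with h | ⟨γ, hγ, h⟩
  · exact range_hasInt b h hne
  · exact int_C h1 (ih γ hγ) b h hne

theorem dep_P : PP A L Jt α ⊆ {b | DepX (Iio α) b} := by
  intro b hb
  rcases mem_PP.1 hb with ⟨a, rfl⟩ | ⟨γ, hγ, h⟩
  · exact depX_bs _ a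
  · exact rec_depX_mono (fun x hx => lt_of_le_of_lt hx hγ) (dep_C h1 (ih γ hγ) b h)

theorem alg_P : IsAlg (PP A L Jt α) where
  univ := mem_PP.2 (Or.inl range_isAlg.univ)
  compl := by
    intro b hb
    rcases mem_PP.1 hb with h | ⟨γ, hγ, h⟩
    · exact mem_PP.2 (Or.inl (range_isAlg.compl b h))
    · exact mem_PP.2 (Or.inr ⟨γ, hγ, (alg_C h1 (ih γ hγ)).compl b h⟩)
  inter := by
    intro b hb c hc
    rcases mem_PP.1 hb with h | ⟨γ, hγ, h⟩ <;> rcases mem_PP.1 hc with h' | ⟨γ', hγ', h'⟩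
    · exact mem_PP.2 (Or.inl (range_isAlg.inter b h c h'))
    · exact mem_PP.2 (Or.inr ⟨γ', hγ', (alg_C h1 (ih γ' hγ')).inter b
        ((base_C h1 hR (ih γ' hγ')).1 h) c h'⟩)
    · exact mem_PP.2 (Or.inr ⟨γ, hγ, (alg_C h1 (ih γ hγ)).inter b h c
        ((base_C h1 hR (ih γ hγ)).1 h')⟩)
    · rcases lt_trichotomy γ γ' with hlt | rfl | hlt
      · exact mem_PP.2 (Or.inr ⟨γ', hγ', (alg_C h1 (ih γ' hγ')).inter b
          ((reg_CC h1 hR (ih γ hγ) (ih γ' hγ') hlt).1 h) c h'⟩)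
      · exact mem_PP.2 (Or.inr ⟨γ, hγ, (alg_C h1 (ih γ hγ)).inter b h c h'⟩)
      · exact mem_PP.2 (Or.inr ⟨γ, hγ, (alg_C h1 (ih γ hγ)).inter b h c
          ((reg_CC h1 hR (ih γ' hγ') (ih γ hγ) hlt).1 h')⟩)

theorem BB_spec (hCo : ClaimCompl) : PP A L Jt α ⊆ BB A L Jt α ∧
    BB A L Jt α ⊆ {b | DepX (Iio α) b} ∧ IsAlg (BB A L Jt α) ∧
    DenseIn (PP A L Jt α) (BB A L Jt α) ∧ CompleteIn (BB A L Jt α) := by
  have hex : ∃ 𝓑, PP A L Jt α ⊆ 𝓑 ∧ 𝓑 ⊆ {b | DepX (Iio α) b} ∧ IsAlg 𝓑 ∧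
      DenseIn (PP A L Jt α) 𝓑 ∧ CompleteIn 𝓑 :=
    hCo _ {b | DepX (Iio α) b} (PP A L Jt α) (depX_isAlg _)
      (fun 𝓢 h𝓢 => depX_sUnion _ 𝓢 h𝓢) (alg_P h1 hR ih) (dep_P h1 hR ih)
  have heq : BB A L Jt α = hex.choose := by
    rw [BB_eq, Nxt]
    exact dif_pos hex
  rw [heq]
  exact hex.choose_spec

end Step

end Main

/-! ## Cardinalities -/

section Card

theorem card_bool_sum {Jt : Type} (h : ℵ₀ ≤ #Jt) : #(Bool ⊕ Jt) ≤ #Jt := by
  rw [Cardinal.mk_sum, Cardinal.lift_id, Cardinal.lift_id]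
  refine Cardinal.add_le_of_le h ?_ le_rfl
  exact (Cardinal.mk_le_aleph0 (α := Bool)).trans h

/-- The enumeration of the filters exists. -/
theorem enum_ex {L Jt X : Type} [LinearOrder L] (𝓑 : Set (Set X)) (hA : IsAlg 𝓑)
    (hL : #L < #Jt) (hinf : ℵ₀ ≤ #Jt) (hB : #𝓑 ≤ #Jt) (hρ : ∀ ρ : L, #(Iio ρ → Jt) ≤ #Jt)
    (hN : #(ℕ → Jt) ≤ #Jt) : ∃ g, Enum L Jt 𝓑 g := by
  classical
  let P : Type := {p : Σ ρ : L, (Iio ρ → ℕ → Set X) // ∃ 𝓖, IsFil 𝓑 𝓖 ∧ ∀ ξ, p.2 ξ ∈ 𝓖}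
  have hP : #P ≤ #Jt := by
    have hinj : #P ≤ #(Σ ρ : L, (Iio ρ → ℕ → 𝓑)) := by
      refine Cardinal.mk_le_of_injective (f := fun p : P => (⟨p.1.1, fun ξ n => ⟨p.1.2 ξ n, ?_⟩⟩ :
        Σ ρ : L, (Iio ρ → ℕ → 𝓑))) ?_
      · obtain ⟨𝓖, h1, h2⟩ := p.2
        exact h1.nm _ (h2 ξ) n
      · rintro ⟨⟨ρ, T⟩, hT⟩ ⟨⟨ρ', T'⟩, hT'⟩ heq
        simp only [Sigma.mk.injEq] at heq
        obtain ⟨h1, h2⟩ := heq
        subst h1
        have h3 := eq_of_heq h2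
        have h4 : T = T' := by
          funext ξ n
          have := congrFun (congrFun h3 ξ) n
          exact Subtype.mk.inj this
        subst h4
        rfl
    refine hinj.trans ?_
    rw [Cardinal.mk_sigma]
    refine (Cardinal.sum_le_mk_mul_iSup _).trans ?_
    refine Cardinal.mul_le_of_le hinf hL.le (ciSup_le' fun ρ => ?_)
    -- each fibre
    obtain ⟨e1⟩ : Nonempty (𝓑 ↪ Jt) := Cardinal.le_def _ _ |>.1 hB
    obtain ⟨e2⟩ : Nonempty ((ℕ → Jt) ↪ Jt) := Cardinal.le_def _ _ |>.1 hN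
    refine le_trans ?_ (hρ ρ)
    refine Cardinal.mk_le_of_injective (f := fun T : (Iio ρ → ℕ → 𝓑) => fun ξ =>
      e2 (fun n => e1 (T ξ n))) ?_
    intro T T' h
    funext ξ n
    have h3 := e2.injective (congrFun h ξ)
    exact e1.injective (congrFun h3 n)
  obtain ⟨e⟩ : Nonempty (P ↪ Jt) := Cardinal.le_def _ _ |>.1 hP
  refine ⟨fun j => if h : ∃ p : P, e p = j then h.choose.2.choose else Cof 𝓑, ?_, ?_⟩
  · intro j
    by_cases h : ∃ p : P, e p = j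
    · simp only [h, dite_true]
      exact h.choose.2.choose_spec.1
    · simp only [h, dite_false]
      exact rec_cof_isFil hA
  · intro ρ T hT
    let p : P := ⟨⟨ρ, T⟩, hT⟩
    refine ⟨e p, ?_⟩
    have h : ∃ p' : P, e p' = e p := ⟨p, rfl⟩
    have hch : h.choose = p := e.injective h.choose_spec
    intro ξ
    simp only [h, dite_true]
    have h4 := p.2.choose_spec.2 ξ
    rw [hch]
    exact h4

end Card

section Main2

variable {A L Jt : Type} [CompleteBooleanAlgebra A] [Nontrivial A] [LinearOrder L]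
  [WellFoundedLT L]

theorem inv_all (hCo : ClaimCompl) (hR : ClaimReg) (hUl : ClaimUlt)
    (hSz : ClaimSize) (h1 : ClaimStep1) (h2 : ClaimStep2) (hCC : ClaimCCint)
    (hL : RegL L) (hcc : CC L A) (hA : #A ≤ #Jt) (hLJ : #L < #Jt)
    (hρ : ∀ ρ : L, #(Iio ρ → Jt) ≤ #Jt) (hN : #(ℕ → Jt) ≤ #Jt) (α : L) : Inv A L Jt α := by
  classical
  have hinf : ℵ₀ ≤ #Jt := (hL.unc.trans hLJ).le
  induction α using WellFoundedLT.induction with
  | ind α ih =>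
    obtain ⟨s1, s2, s3, s4, s5⟩ := BB_spec h1 hR ih hCo
    have regPB : Reg (PP A L Jt α) (BB A L Jt α) :=
      (hR _ _ _ _ (alg_P h1 hR ih) s3 s3).2.1 s4
    have hbase : Reg (Set.range bs) (BB A L Jt α) :=
      (hR _ _ _ _ range_isAlg (alg_P h1 hR ih) s3).1 (reg_bP h1 hR ih) regPB
    have hstep : ∀ β < α, Reg (CCC A L Jt β) (BB A L Jt α) := fun β hβ =>
      (hR _ _ _ _ (alg_C h1 (ih β hβ)) (alg_P h1 hR ih) s3).1 (reg_CP h1 hR ih hβ) regPB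
    have hint : HasInt (BB A L Jt α) := by
      intro b hb hne
      obtain ⟨d, hd, hdn, hdb⟩ := s4.2 b hb hne
      obtain ⟨a, ha, F, hF⟩ := int_P h1 hR ih d hd hdn
      exact ⟨a, ha, F, hF.trans hdb⟩
    have hccs : CCs L (BB A L Jt α) := hCC A L (Bool ⊕ Jt) hL hcc _ hint
    -- size
    have hsize : #(BB A L Jt α) ≤ #Jt := by
      have hD : ∀ β : Iio α, ∃ 𝓓, DenseIn 𝓓 (CCC A L Jt β.1) ∧ #𝓓 ≤ #Jt := fun β =>
        (h1 A L (Bool ⊕ Jt) β.1 _ _ (ih β.1 β.2).stepHyp).2.2.2.2.2.2 Jt hinf hN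
          (ih β.1 β.2).size (card_bool_sum hinf)
      choose 𝓓 h𝓓 h𝓓c using hD
      refine hSz L hL Jt hLJ.le hρ _ (Set.range bs ∪ ⋃ β : Iio α, 𝓓 β) _ s3 s5 ?_ hccs ?_
      · constructor
        · rintro b (hb | hb)
          · exact hbase.1 hb
          · obtain ⟨β, hβ⟩ := mem_iUnion.1 hb
            exact (hstep β.1 β.2).1 ((h𝓓 β).1 hβ)
        · intro b hb hne
          obtain ⟨d, hd, hdn, hdb⟩ := s4.2 b hb hne
          rcases mem_PP.1 hd with h | ⟨γ, hγ, h⟩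
          · exact ⟨d, Or.inl h, hdn, hdb⟩
          · obtain ⟨e, he, hen, hed⟩ := (h𝓓 ⟨γ, hγ⟩).2 d h hdn
            exact ⟨e, Or.inr (mem_iUnion.2 ⟨⟨γ, hγ⟩, he⟩), hen, hed.trans hdb⟩
      · refine (Cardinal.mk_union_le _ _).trans (Cardinal.add_le_of_le hinf ?_ ?_)
        · exact Cardinal.mk_range_le.trans hA
        · refine (Cardinal.mk_iUnion_le _).trans ?_
          exact Cardinal.mul_le_of_le hinf ((hL.seg α).le.trans hLJ.le)
            (ciSup_le' fun β => h𝓓c β)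
    -- the main filter
    have hmain : ∃ 𝓕, Main α (BB A L Jt α) 𝓕 := by
      let G : Set (ℕ → Set (XX A L (Bool ⊕ Jt))) :=
        {T | T = (fun _ => Set.univ) ∨ ∃ β < α, T = mg β (Sum.inl true)}
      have hsub : ∀ β < α, ∀ β' < α, β < β' →
          SubIn (BB A L Jt α) (mg β' (Sum.inl true)) (mg β (Sum.inl true)) := by
        intro β hβ β' hβ' hlt
        have hmem := (ih β' hβ').main.2.2 β hlt
        have hs := (h2 A L (Bool ⊕ Jt) β' _ _ (ih β' hβ').stepHyp).2.1 (Sum.inl true) _ hmem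
        refine (hR _ (CCC A L Jt β') (BB A L Jt α) (BB A L Jt α) (alg_C h1 (ih β' hβ')) s3
          s3).2.2.2.1 _ _ (mg_C h1 (ih β' hβ') _) ?_ (hstep β' hβ') hs
        intro k
        exact (reg_CC h1 hR (ih β hβ) (ih β' hβ') hlt).1 (mg_C h1 (ih β hβ) _ k)
      have hsubu : ∀ T : ℕ → Set (XX A L (Bool ⊕ Jt)),
          SubIn (BB A L Jt α) T (fun _ => Set.univ) := fun T b hb hbn =>
        ⟨b, hb, hbn, subset_rfl, 0, fun _ _ _ _ => trivial⟩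
      have hfil := rec_gen_isFil s3 G (Or.inl rfl)
        (by
          rintro T (rfl | ⟨β, hβ, rfl⟩)
          · exact rec_univ_infOn
          · exact (hR _ (CCC A L Jt β) (BB A L Jt α) (BB A L Jt α) (alg_C h1 (ih β hβ)) s3
              s3).2.2.1 _ (mg_C h1 (ih β hβ) _) (hstep β hβ)
              ((h2 A L (Bool ⊕ Jt) β _ _ (ih β hβ).stepHyp).1 _))
        (by
          rintro T (rfl | ⟨β, hβ, rfl⟩) T' (rfl | ⟨β', hβ', rfl⟩)
          · exact ⟨_, Or.inl rfl, rec_subIn_refl _, rec_subIn_refl _⟩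
          · exact ⟨_, Or.inr ⟨β', hβ', rfl⟩, hsubu _, rec_subIn_refl _⟩
          · exact ⟨_, Or.inr ⟨β, hβ, rfl⟩, rec_subIn_refl _, hsubu _⟩
          · rcases lt_trichotomy β β' with hlt | rfl | hlt
            · exact ⟨_, Or.inr ⟨β', hβ', rfl⟩, hsub β hβ β' hβ' hlt, rec_subIn_refl _⟩
            · exact ⟨_, Or.inr ⟨β, hβ, rfl⟩, rec_subIn_refl _, rec_subIn_refl _⟩
            · exact ⟨_, Or.inr ⟨β, hβ, rfl⟩, rec_subIn_refl _, hsub β' hβ' β hβ hlt⟩)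
      obtain ⟨𝓕, h3, h4, h5⟩ := hUl _ _ _ s3 s5 hfil
      refine ⟨𝓕, h4, h5, fun β hβ => h3 ⟨?_, _, Or.inr ⟨β, hβ, rfl⟩, rec_subIn_refl _⟩⟩
      intro k
      exact (hstep β hβ).1 (mg_C h1 (ih β hβ) _ k)
    have henum : ∃ g, Enum L Jt (BB A L Jt α) g := enum_ex _ s3 hLJ hinf hsize hρ hN
    refine ⟨s3, s5, fun b hb => s2 hb, hint, hbase, hstep, hsize, ?_, ?_⟩
    · have : FF A L Jt α (Sum.inl true) = hmain.choose := by
        change (if h : ∃ 𝓕, Main α (BB A L Jt α) 𝓕 then h.choose else Cof _) = _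
        exact dif_pos hmain
      rw [this]
      exact hmain.choose_spec
    · have : (fun j => FF A L Jt α (Sum.inr j)) = henum.choose := by
        funext j
        change (if h : ∃ g, Enum L Jt (BB A L Jt α) g then h.choose j else Cof _) = _
        exact dif_pos henum
      rw [this]
      exact henum.choose_spec

end Main2

end RecAux

open RecAux in
theorem claimRec (_hU : ClaimUfEx) (hCo : ClaimCompl) (hR : ClaimReg) (hUl : ClaimUlt)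
    (hSz : ClaimSize) (h1 : ClaimStep1) (h2 : ClaimStep2) (h3 : ClaimStep3)
    (hCC : ClaimCCint) : ClaimRec := by
  intro A L Jt _ _ _ _ hL hcc hA hLJ hρ hN
  have inv : ∀ α, Inv A L Jt α :=
    inv_all hCo hR hUl hSz h1 h2 hCC hL hcc hA hLJ hρ hN
  have sh : ∀ α, StepHyp α (BB A L Jt α) (FF A L Jt α) := fun α => (inv α).stepHyp
  refine ⟨BB A L Jt, FF A L Jt, ?_⟩
  refine ⟨fun α => (inv α).alg, fun α => (inv α).comp, fun α => (inv α).dep,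
    fun α => (inv α).base, ?_, fun α => (inv α).int, fun α => (inv α).fil,
    fun α => (inv α).main.2.1, fun α => (inv α).main.2.2, fun α => rfl,
    fun α => (inv α).enum.2, ?_, ?_, ?_, ?_, ?_⟩
  · intro α β hlt
    exact (hR _ _ _ _ (inv α).alg (alg_C h1 (inv α)) (inv β).alg).1 (reg_BC h1 (inv α))
      ((inv β).step α hlt)
  · intro α β hlt j k
    exact ((inv β).step α hlt).1 (mg_C h1 (inv α) j k)
  · intro α β hlt j
    exact (hR _ (CCC A L Jt α) (BB A L Jt β) (BB A L Jt β) (alg_C h1 (inv α)) (inv β).alg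
      (inv β).alg).2.2.1 _ (mg_C h1 (inv α) _) ((inv β).step α hlt)
      ((h2 A L (Bool ⊕ Jt) α _ _ (sh α)).1 _)
  · intro α β hlt j Z hZ
    refine (hR _ (CCC A L Jt α) (BB A L Jt β) (BB A L Jt β) (alg_C h1 (inv α)) (inv β).alg
      (inv β).alg).2.2.2.1 _ _ (mg_C h1 (inv α) _) ?_ ((inv β).step α hlt)
      ((h2 A L (Bool ⊕ Jt) α _ _ (sh α)).2.1 j Z hZ)
    intro k
    exact (reg_BC h1 (inv α)).1 (((inv α).fil j).nm Z hZ k)
  · intro α β hlt j j' hjj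
    exact (hR _ (CCC A L Jt α) (BB A L Jt β) (BB A L Jt β) (alg_C h1 (inv α)) (inv β).alg
      (inv β).alg).2.2.2.2.1 _ _ (mg_C h1 (inv α) _) (mg_C h1 (inv α) _) ((inv β).step α hlt)
      ((h2 A L (Bool ⊕ Jt) α _ _ (sh α)).2.2 j j' hjj)
  · intro α β hlt
    exact (hR _ (BB A L Jt α) (CCC A L Jt α) (BB A L Jt β) (inv α).alg (alg_C h1 (inv α))
      (inv β).alg).2.2.2.2.2 _ (reg_BC h1 (inv α)).1 (mg_C h1 (inv α) _) ((inv β).step α hlt)
      (h3 A L (Bool ⊕ Jt) α _ _ (sh α) (Sum.inl false) rfl)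

end Pool.Agent.Work.MP_dbe197_lc
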