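import Pool.Agent.Work.MP_dbe197_lc.StmtsA

/-!
# Item A10: the Boolean algebra of a complete algebra of sets, translation of the notions
-/

namespace Pool.Agent.Work.MP_dbe197_lc

open Set Cardinal

/-- The elements of the complete algebra of sets `𝓑`. -/
structure ReprT {X : Type} (𝓑 : Set (Set X)) (h : IsAlg 𝓑) (hc : CompleteIn 𝓑) where
  s : Set X
  mem : s ∈ 𝓑

namespace ReprT

variable {X : Type} {𝓑 : Set (Set X)} {h : IsAlg 𝓑} {hc : CompleteIn 𝓑}

theorem ext_s {a b : ReprT 𝓑 h hc} (hab : a.s = b.s) : a = b := by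
  cases a; cases b; congr

instance instPO : PartialOrder (ReprT 𝓑 h hc) where
  le a b := a.s ⊆ b.s
  le_refl a := subset_rfl
  le_trans a b c h1 h2 := h1.trans h2
  le_antisymm a b h1 h2 := ext_s (h1.antisymm h2)

theorem le_iff {a b : ReprT 𝓑 h hc} : a ≤ b ↔ a.s ⊆ b.s := Iff.rfl

theorem union_mem (h : IsAlg 𝓑) {b c : Set X} (hb : b ∈ 𝓑) (hc : c ∈ 𝓑) : b ∪ c ∈ 𝓑 := by
  have := h.compl _ (h.inter _ (h.compl _ hb) _ (h.compl _ hc))
  rwa [compl_inter, compl_compl, compl_compl] at this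

instance instLattice : Lattice (ReprT 𝓑 h hc) :=
  { instPO with
    sup := fun a b => ⟨a.s ∪ b.s, union_mem h a.mem b.mem⟩
    inf := fun a b => ⟨a.s ∩ b.s, h.inter _ a.mem _ b.mem⟩
    le_sup_left := fun _ _ => subset_union_left
    le_sup_right := fun _ _ => subset_union_right
    sup_le := fun _ _ _ h1 h2 => union_subset h1 h2
    inf_le_left := fun _ _ => inter_subset_left
    inf_le_right := fun _ _ => inter_subset_right
    le_inf := fun _ _ _ h1 h2 => subset_inter h1 h2 }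

theorem inf_s (a b : ReprT 𝓑 h hc) : (a ⊓ b).s = a.s ∩ b.s := rfl

theorem sup_s (a b : ReprT 𝓑 h hc) : (a ⊔ b).s = a.s ∪ b.s := rfl

instance instDistribLattice : DistribLattice (ReprT 𝓑 h hc) :=
  { instLattice with
    le_sup_inf := by
      intro a b c
      rw [le_iff, inf_s, sup_s, sup_s, sup_s, inf_s, union_inter_distrib_left] }

noncomputable instance instBooleanAlgebra : BooleanAlgebra (ReprT 𝓑 h hc) :=
  { instDistribLattice with
    top := ⟨univ, h.univ⟩
    bot := ⟨univᶜ, h.compl _ h.univ⟩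
    compl := fun a => ⟨a.sᶜ, h.compl _ a.mem⟩
    sdiff := fun a b => a ⊓ ⟨b.sᶜ, h.compl _ b.mem⟩
    himp := fun a b => b ⊔ ⟨a.sᶜ, h.compl _ a.mem⟩
    inf_compl_le_bot := by
      intro a x hx
      exact absurd hx.1 hx.2
    top_le_sup_compl := by
      intro a x _
      exact em (x ∈ a.s)
    le_top := fun a => subset_univ _
    bot_le := fun a x hx => absurd trivial hx
    sdiff_eq := fun _ _ => rfl
    himp_eq := fun _ _ => rfl }

theorem top_s : (⊤ : ReprT 𝓑 h hc).s = Set.univ := rfl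

theorem bot_s : (⊥ : ReprT 𝓑 h hc).s = ∅ := compl_univ

theorem compl_s (a : ReprT 𝓑 h hc) : (aᶜ).s = (a.s)ᶜ := rfl

theorem exLub (S : Set (ReprT 𝓑 h hc)) : ∃ s : ReprT 𝓑 h hc, IsLUB S s := by
  obtain ⟨s, hs, h1, h2⟩ := hc ((fun a => a.s) '' S) (by rintro _ ⟨a, _, rfl⟩; exact a.mem)
  refine ⟨⟨s, hs⟩, ?_, ?_⟩
  · intro a ha
    exact h1 _ ⟨a, ha, rfl⟩
  · intro b hb
    refine h2 _ b.mem ?_
    rintro _ ⟨a, ha, rfl⟩
    exact hb ha

open Classical in
noncomputable instance instCBA : CompleteBooleanAlgebra (ReprT 𝓑 h hc) :=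
  { instBooleanAlgebra with
    sSup := fun S => (exLub S).choose
    sInf := fun S => ((exLub ((fun a => aᶜ) '' S)).choose)ᶜ
    isLUB_sSup := fun S => (exLub S).choose_spec
    isGLB_sInf := fun S => by
      have hsp := (exLub ((fun a => aᶜ) '' S)).choose_spec
      refine ⟨?_, ?_⟩
      · intro a ha
        have := hsp.1 ⟨a, ha, rfl⟩
        exact compl_le_of_compl_le this
      · intro b hb
        refine le_compl_comm.1 (hsp.2 ?_)
        rintro _ ⟨a, ha, rfl⟩
        exact compl_le_compl (hb ha) }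

end ReprT

section

variable {A L J : Type} [CompleteBooleanAlgebra A]

theorem Repr_mem_inf (u : Uf A) (a b : A) : a ⊓ b ∈ u.s ↔ a ∈ u.s ∧ b ∈ u.s :=
  ⟨fun h => ⟨u.up _ _ inf_le_left h, u.up _ _ inf_le_right h⟩, fun h => u.inf_mem _ _ h.1 h.2⟩

theorem Repr_mem_compl (u : Uf A) (a : A) : aᶜ ∈ u.s ↔ a ∉ u.s := by
  constructor
  · intro h1 h2
    have := u.inf_mem _ _ h2 h1
    rw [inf_compl_self] at this
    exact u.bot_mem this
  · intro h
    exact (u.ultra a).resolve_left h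

theorem Repr_bs_inf (a b : A) : (bs (a ⊓ b) : Set (XX A L J)) = bs a ∩ bs b := by
  ext x; exact Repr_mem_inf x.1 a b

theorem Repr_bs_compl (a : A) : (bs aᶜ : Set (XX A L J)) = (bs a)ᶜ := by
  ext x; exact Repr_mem_compl x.1 a

theorem Repr_bs_mono {a b : A} (h : a ≤ b) : (bs a : Set (XX A L J)) ⊆ bs b :=
  fun x hx => x.1.up _ _ h hx

theorem Repr_cyl_ne (hU : ClaimUfEx) {a : A} (ha : a ≠ ⊥) (F : Fn (L × J) (Finset ℕ)) :
    (cylF a F : Set (XX A L J)).Nonempty := by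
  obtain ⟨u, hu⟩ := hU A a ha
  refine ⟨(u, fun p => (F.f p).getD ∅), hu, fun p v hv => ?_⟩
  show (F.f p).getD ∅ = v
  rw [hv]; rfl

theorem Repr_bs_ne (hU : ClaimUfEx) {a : A} (ha : a ≠ ⊥) : (bs a : Set (XX A L J)).Nonempty := by
  obtain ⟨x, hx⟩ := Repr_cyl_ne (L := L) (J := J) hU ha Fn.empty
  exact ⟨x, hx.1⟩

theorem Repr_ne_of_bs {a : A} (h : (bs a : Set (XX A L J)).Nonempty) : a ≠ ⊥ := by
  rintro rfl
  obtain ⟨x, hx⟩ := h
  exact x.1.bot_mem hx

end

theorem claimRepr (hU : ClaimUfEx) : ClaimRepr := by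
  intro A L J _ _ _ 𝓑 hA hC hInt hReg
  let E : Ext A (L × J) (ReprT 𝓑 hA hC) :=
    { i := fun a => ⟨bs a, hReg.1 (mem_range_self a)⟩
      i_inf := fun a b => ReprT.ext_s (Repr_bs_inf a b)
      i_compl := fun a => ReprT.ext_s (Repr_bs_compl a)
      i_sSup := by
        intro s
        apply le_antisymm
        · rw [ReprT.le_iff]
          by_contra hn
          obtain ⟨x, hx, hxc⟩ := not_subset.1 hn
          set c : ReprT 𝓑 hA hC :=
            ⨆ a ∈ s, (⟨bs a, hReg.1 (mem_range_self a)⟩ : ReprT 𝓑 hA hC) with hcdef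
          obtain ⟨b, ⟨a0, rfl⟩, hne, hred⟩ := hReg.2 (bs (sSup s) ∩ (c.s)ᶜ)
            (hA.inter _ (hReg.1 (mem_range_self _)) _ (hA.compl _ c.mem)) ⟨x, hx, hxc⟩
          obtain ⟨y, hy0, hy1, hy2⟩ := hred _ (mem_range_self a0) hne subset_rfl
          have h1 : a0 ⊓ sSup s ≠ ⊥ := by
            intro h0
            have := y.1.inf_mem _ _ hy0 hy1
            rw [h0] at this
            exact y.1.bot_mem this
          rw [inf_sSup_eq] at h1
          have h2 : ∃ a1 ∈ s, a0 ⊓ a1 ≠ ⊥ := by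
            by_contra hno
            push Not at hno
            apply h1
            rw [eq_bot_iff]
            exact iSup₂_le fun a1 ha1 => (hno a1 ha1).le
          obtain ⟨a1, ha1, hne1⟩ := h2
          obtain ⟨z, hz0, hz1, hz2⟩ := hred _ (mem_range_self (a0 ⊓ a1)) (Repr_bs_ne hU hne1)
            (Repr_bs_mono inf_le_left)
          apply hz2
          have h3 : (⟨bs a1, hReg.1 (mem_range_self a1)⟩ : ReprT 𝓑 hA hC) ≤ c :=
            le_iSup₂_of_le a1 ha1 le_rfl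
          exact h3 (Repr_bs_mono inf_le_right hz0)
        · exact iSup₂_le fun a ha => Repr_bs_mono (le_sSup ha)
      cov := fun a F b => cylF a F ⊆ b.s
      cov_mono := by
        intro a a' F F' b b' h1 h2 h3 h4 x hx
        exact h4 (h1 ⟨x.1.up _ _ h2 hx.1, fun i v hv => hx.2 i v (h3 i v hv)⟩)
      cov_inf := fun a F b b' h1 h2 => subset_inter h1 h2
      cov_bot := by
        intro a F h1
        by_contra ha
        obtain ⟨x, hx⟩ := Repr_cyl_ne (L := L) (J := J) hU ha F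
        have := h1 hx
        rw [ReprT.bot_s] at this
        exact this
      cov_ex := by
        intro b hb
        have hne : b.s.Nonempty := by
          rw [Set.nonempty_iff_ne_empty]
          intro h0
          apply hb
          apply ReprT.ext_s
          rw [h0, ReprT.bot_s]
        obtain ⟨a, ha, F, hF⟩ := hInt b.s b.mem hne
        exact ⟨a, F, ha, hF⟩
      cov_i := by
        intro a a' F
        constructor
        · intro h1
          by_contra hn
          have h2 : a ⊓ a'ᶜ ≠ ⊥ := by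
            rw [Ne, ← _root_.sdiff_eq, sdiff_eq_bot_iff]
            exact hn
          obtain ⟨x, hx⟩ := Repr_cyl_ne (L := L) (J := J) hU h2 F
          have h3 : x ∈ bs a' := h1 ⟨x.1.up _ _ inf_le_left hx.1, hx.2⟩
          exact (Repr_mem_compl x.1 a').1 (x.1.up _ _ inf_le_right hx.1) h3
        · intro h1 x hx
          exact x.1.up _ _ h1 hx.1 }
  refine ⟨ReprT 𝓑 hA hC, ReprT.instCBA, E, fun b => b.s, ?_⟩
  refine ⟨fun b => b.mem, fun s hs => ⟨⟨s, hs⟩, rfl⟩, fun b b' => Iff.rfl, fun b b' => rfl,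
    fun b => rfl, ReprT.bot_s, rfl, fun a => rfl, ?_⟩
  intro ι f b
  constructor
  · rintro ⟨x, hx, hxb⟩
    by_contra hno
    push Not at hno
    have h1 : (⨆ j, f j) ≤ bᶜ := by
      refine iSup_le fun j => ?_
      intro y hy hyb
      exact (Set.eq_empty_iff_forall_notMem.1 (hno j)) y ⟨hy, hyb⟩
    exact h1 hx hxb
  · rintro ⟨j, x, hx, hxb⟩
    exact ⟨x, (le_iSup f j) hx, hxb⟩

section

variable {A L J : Type} [CompleteBooleanAlgebra A] [LinearOrder L]
  {𝓑 : Set (Set (XX A L J))} {B : Type} [CompleteBooleanAlgebra B]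
  {E : Ext A (L × J) B} {e : B → Set (XX A L J)}

theorem Repr_ne (R : Repr 𝓑 E e) {b : B} : (e b).Nonempty ↔ b ≠ ⊥ := by
  constructor
  · rintro ⟨x, hx⟩ rfl
    rw [R.bot] at hx
    exact hx
  · intro hb
    by_contra hne
    rw [Set.not_nonempty_iff_eq_empty] at hne
    apply hb
    rw [← le_bot_iff, ← R.le, hne, R.bot]

theorem Repr_mono (R : Repr 𝓑 E e) {b b' : B} (h : b ≤ b') : e b ⊆ e b' := (R.le b b').2 h

theorem Repr_le_iff (R : Repr 𝓑 E e) {b s : B} :
    b ≤ s ↔ ∀ c ∈ 𝓑, c.Nonempty → c ⊆ e b → (e s ∩ c).Nonempty := by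
  constructor
  · intro h c hc hne hcb
    obtain ⟨x, hx⟩ := hne
    exact ⟨x, Repr_mono R h (hcb hx), hx⟩
  · intro h
    by_contra hn
    have h2 : b ⊓ sᶜ ≠ ⊥ := by
      rw [Ne, ← _root_.sdiff_eq, sdiff_eq_bot_iff]
      exact hn
    obtain ⟨x, hx1, hx2⟩ := h (e (b ⊓ sᶜ)) (R.mem _) ((Repr_ne R).2 h2) (Repr_mono R inf_le_left)
    rw [R.inf, R.compl] at hx2
    exact hx2.2 hx1

theorem Repr_inf_le (R : Repr 𝓑 E e) {b c d : B} : b ⊓ c ≤ d ↔ e b ∩ e c ⊆ e d := by
  rw [← R.le, R.inf]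

end

theorem claimTrans : ClaimTrans := by
  intro A L J _ _ 𝓑 B _ E e R
  refine ⟨?_, ?_, ?_, ?_⟩
  · intro r b
    rw [BInf, le_iInf_iff]
    constructor
    · intro h c hc hne hcb n
      obtain ⟨c', rfl⟩ := R.surj c hc
      have h1 := (Repr_le_iff R).1 (h n) _ hc hne hcb
      rw [iSup_subtype' (p := fun k => n ≤ k) (f := fun k _ => r k), R.sup] at h1
      obtain ⟨⟨k, hk⟩, x, hx1, hx2⟩ := h1
      exact ⟨k, hk, x, hx2, hx1⟩
    · intro h n
      rw [Repr_le_iff R]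
      intro c hc hne hcb
      obtain ⟨k, hk, x, hx1, hx2⟩ := h c hc hne hcb n
      exact ⟨x, Repr_mono R (le_iSup₂_of_le k hk le_rfl) hx2, hx1⟩
  · intro r s
    constructor
    · intro h b hb hne
      obtain ⟨b', rfl⟩ := R.surj b hb
      have h1 : (e (BSub r s) ∩ e b').Nonempty := by
        rw [h, R.top, univ_inter]; exact hne
      rw [BSub, R.sup] at h1
      obtain ⟨n, hn⟩ := h1
      refine ⟨e ((⨅ k, ⨅ (_ : n ≤ k), (r k)ᶜ ⊔ s k) ⊓ b'), R.mem _, ?_, Repr_mono R inf_le_right,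
        n, ?_⟩
      · rw [R.inf]; exact hn
      · intro k hk
        rw [← Repr_inf_le R]
        calc (⨅ k, ⨅ (_ : n ≤ k), (r k)ᶜ ⊔ s k) ⊓ b' ⊓ r k
            ≤ ((r k)ᶜ ⊔ s k) ⊓ r k :=
              inf_le_inf_right _ (inf_le_left.trans (iInf₂_le k hk))
          _ ≤ s k := by
              rw [inf_sup_right]
              simp
    · intro h
      by_contra hn
      have h2 : (BSub r s)ᶜ ≠ ⊥ := by
        rw [Ne, compl_eq_bot]; exact hn
      obtain ⟨c, hc, hcne, hcb, n, hk⟩ := h (e (BSub r s)ᶜ) (R.mem _) ((Repr_ne R).2 h2)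
      obtain ⟨c', rfl⟩ := R.surj c hc
      have h3 : c' ≤ BSub r s := by
        refine le_trans ?_ (le_iSup _ n)
        refine le_iInf₂ fun k hnk => ?_
        have h4 := (Repr_inf_le R).2 (hk k hnk)
        rw [sup_comm]
        calc c' = (c' ⊓ r k) ⊔ (c' ⊓ (r k)ᶜ) := by rw [← inf_sup_left]; simp
          _ ≤ _ := sup_le_sup h4 inf_le_right
      have h5 : c' ≤ (BSub r s)ᶜ := (R.le _ _).1 hcb
      have h6 : c' = ⊥ := by
        rw [← le_bot_iff]
        calc c' ≤ BSub r s ⊓ (BSub r s)ᶜ := le_inf h3 h5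
          _ = ⊥ := inf_compl_self _
      exact (Repr_ne R).1 hcne h6
  · intro r s
    constructor
    · intro h b hb hne
      obtain ⟨b', rfl⟩ := R.surj b hb
      by_contra hno
      push Not at hno
      apply (Repr_ne R).1 hne
      rw [← le_bot_iff, ← h, beq]
      refine le_iInf fun k => ?_
      have h1 : b' ⊓ r k ≤ s k := by
        rw [Repr_inf_le R]
        rintro x ⟨hx1, hx2⟩
        by_contra hx3
        exact (Set.eq_empty_iff_forall_notMem.1 (hno k).1) x ⟨hx1, hx2, hx3⟩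
      have h2 : b' ⊓ s k ≤ r k := by
        rw [Repr_inf_le R]
        rintro x ⟨hx1, hx2⟩
        by_contra hx3
        exact (Set.eq_empty_iff_forall_notMem.1 (hno k).2) x ⟨hx1, hx2, hx3⟩
      have h3 : b' ⊓ (r k)ᶜ ≤ (s k)ᶜ := by
        rw [le_compl_iff_disjoint_right, disjoint_iff]
        rw [← le_bot_iff]
        calc b' ⊓ (r k)ᶜ ⊓ s k = (b' ⊓ s k) ⊓ (r k)ᶜ := by ac_rfl
          _ ≤ r k ⊓ (r k)ᶜ := inf_le_inf_right _ h2
          _ = ⊥ := inf_compl_self _
      calc b' = (b' ⊓ r k) ⊔ (b' ⊓ (r k)ᶜ) := by rw [← inf_sup_left]; simp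
        _ ≤ _ := sup_le_sup (le_inf inf_le_right h1) (le_inf inf_le_right h3)
    · intro h
      by_contra hn
      obtain ⟨k, hk⟩ := h (e (beq r s)) (R.mem _) ((Repr_ne R).2 hn)
      have h1 : beq r s ≤ (r k ⊓ s k) ⊔ ((r k)ᶜ ⊓ (s k)ᶜ) := iInf_le _ k
      rcases hk with ⟨x, hx1, hx2, hx3⟩ | ⟨x, hx1, hx2, hx3⟩
      · have h2 : beq r s ⊓ r k ≤ s k := by
          calc beq r s ⊓ r k ≤ ((r k ⊓ s k) ⊔ ((r k)ᶜ ⊓ (s k)ᶜ)) ⊓ r k := inf_le_inf_right _ h1
            _ ≤ s k := by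
              rw [inf_sup_right]
              apply sup_le
              · exact inf_le_left.trans inf_le_right
              · have : (r k)ᶜ ⊓ (s k)ᶜ ⊓ r k = ⊥ := by
                  rw [← le_bot_iff]
                  calc (r k)ᶜ ⊓ (s k)ᶜ ⊓ r k ≤ (r k)ᶜ ⊓ r k := inf_le_inf_right _ inf_le_left
                    _ = ⊥ := compl_inf_self _
                rw [this]; exact bot_le
        exact hx3 ((Repr_inf_le R).1 h2 ⟨hx1, hx2⟩)
      · have h2 : beq r s ⊓ s k ≤ r k := by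
          calc beq r s ⊓ s k ≤ ((r k ⊓ s k) ⊔ ((r k)ᶜ ⊓ (s k)ᶜ)) ⊓ s k := inf_le_inf_right _ h1
            _ ≤ r k := by
              rw [inf_sup_right]
              apply sup_le
              · exact inf_le_left.trans inf_le_left
              · have : (r k)ᶜ ⊓ (s k)ᶜ ⊓ s k = ⊥ := by
                  rw [← le_bot_iff]
                  calc (r k)ᶜ ⊓ (s k)ᶜ ⊓ s k ≤ (s k)ᶜ ⊓ s k := inf_le_inf_right _ inf_le_right
                    _ = ⊥ := compl_inf_self _
                rw [this]; exact bot_le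
        exact hx3 ((Repr_inf_le R).1 h2 ⟨hx1, hx2⟩)
  · intro L' hcc f hf
    obtain ⟨i, j, hij, x, hx1, hx2⟩ := hcc (fun i => e (f i))
      (fun i => ⟨R.mem _, (Repr_ne R).2 (hf i)⟩)
    refine ⟨i, j, hij, (Repr_ne R).1 ⟨x, ?_⟩⟩
    rw [R.inf]
    exact ⟨hx1, hx2⟩

end Pool.Agent.Work.MP_dbe197_lc
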