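import Pool.Agent.Work.MP_dbe197_lc.BV

/-!
# Statements of the items, part Z (the model of ZFC)
-/

namespace Pool.Agent.Work.MP_dbe197_lc

open Set Cardinal BSet

section Names

variable {B : Type} [CompleteBooleanAlgebra B]

/-- The name of the set of all `nm x`. -/
def hatF {X : Type} (nm : X → BSet B) : BSet B := .mk X nm (fun _ => ⊤)

/-- The name of the subset of `hatF nm` with values `s`. -/
def sb {X : Type} (nm : X → BSet B) (s : X → B) : BSet B := .mk X nm s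

/-- Unordered pair. -/
def upn (x y : BSet B) : BSet B := .mk Bool (fun b => cond b x y) (fun _ => ⊤)

/-- Ordered pair. -/
def opn (x y : BSet B) : BSet B := upn (upn x x) (upn x y)

/-- The name of the relation with values `r`. -/
def rl {X Y : Type} (nmX : X → BSet B) (nmY : Y → BSet B) (r : X → Y → B) : BSet B :=
  .mk (X × Y) (fun p => opn (nmX p.1) (nmY p.2)) (fun p => r p.1 p.2)

/-- Canonical names of ordinals: `onm x` is the set of the `onm y`, `y < x`. -/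
noncomputable def onm {X : Type} [LinearOrder X] [WellFoundedLT X] : X → BSet B :=
  WellFounded.fix (wellFounded_lt (α := X))
    (fun x ih => .mk (Iio x) (fun y => ih y.1 y.2) (fun _ => ⊤))

theorem onm_eq {X : Type} [LinearOrder X] [WellFoundedLT X] (x : X) :
    (onm x : BSet B) = hatF (fun y : Iio x => (onm y.1 : BSet B)) :=
  WellFounded.fix_eq _ _ _

/-- Distinct elements have names which are different with value `1`. -/
def Disc {X : Type} (nm : X → BSet B) : Prop := ∀ x y, x ≠ y → eqv (nm x) (nm y) = ⊥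

/-- Extensional functions. -/
def Extl (φ : BSet B → B) : Prop := ∀ x y, eqv x y ⊓ φ x ≤ φ y

end Names

/-! ## The Boolean valued universe -/

def ClaimMixS : Prop := ∀ (B : Type) [CompleteBooleanAlgebra B] (ι : Type) (c : ι → B)
  (x : ι → BSet B), (∀ i j, i ≠ j → c i ⊓ c j = ⊥) → ∃ y, ∀ i, c i ≤ eqv y (x i)

/-- The maximum principle. -/
def ClaimFull : Prop := ∀ (B : Type) [CompleteBooleanAlgebra B] (φ : BSet B → B), Extl φ →
  ∃ x, ⨆ y, φ y ≤ φ x

/-- Congruence. -/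
def ClaimCongr : Prop := ∀ (B : Type) [CompleteBooleanAlgebra B] (φ : Fml) (v w : ℕ → BSet B),
  (⨅ n, eqv (v n) (w n)) ⊓ Val φ v ≤ Val φ w

/-- Facts on names, part 1. -/
structure Nice1 (B : Type) [CompleteBooleanAlgebra B] : Prop where
  onm_disc : ∀ (X : Type) [LinearOrder X] [WellFoundedLT X], Disc (onm : X → BSet B)
  onm_lt : ∀ (X : Type) [LinearOrder X] [WellFoundedLT X] (x y : X), x < y →
    mem (onm x : BSet B) (onm y) = ⊤
  onm_nlt : ∀ (X : Type) [LinearOrder X] [WellFoundedLT X] (x y : X), ¬ x < y →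
    mem (onm x : BSet B) (onm y) = ⊥
  mem_sb : ∀ (X : Type) (nm : X → BSet B) (s : X → B), Disc nm → ∀ x, mem (nm x) (sb nm s) = s x
  mem_sb' : ∀ (X : Type) (nm : X → BSet B) (s : X → B) (z : BSet B),
    mem z (sb nm s) = ⨆ x, s x ⊓ eqv z (nm x)
  mem_hat : ∀ (X : Type) (nm : X → BSet B) (z : BSet B), mem z (hatF nm) = ⨆ x, eqv z (nm x)
  sub_sb : ∀ (X : Type) (nm : X → BSet B) (s : X → B), sub (sb nm s) (hatF nm) = ⊤
  sub_le : ∀ (X : Type) (nm : X → BSet B) (z : BSet B),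
    sub z (hatF nm) ≤ eqv z (sb nm (fun x => mem (nm x) z))
  eqv_sb : ∀ (X : Type) (nm : X → BSet B) (s s' : X → B), Disc nm →
    eqv (sb nm s) (sb nm s') = beq s s'
  ex_sub : ∀ (X : Type) (nm : X → BSet B) (φ : BSet B → B), Extl φ →
    ⨆ z, sub z (hatF nm) ⊓ φ z = ⨆ s : X → B, φ (sb nm s)
  all_sub : ∀ (X : Type) (nm : X → BSet B) (φ : BSet B → B), Extl φ →
    ⨅ z, (sub z (hatF nm))ᶜ ⊔ φ z = ⨅ s : X → B, φ (sb nm s)
  ex_mem : ∀ (X : Type) (nm : X → BSet B) (φ : BSet B → B), Extl φ →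
    ⨆ z, mem z (hatF nm) ⊓ φ z = ⨆ x, φ (nm x)
  all_mem : ∀ (X : Type) (nm : X → BSet B) (φ : BSet B → B), Extl φ →
    ⨅ z, (mem z (hatF nm))ᶜ ⊔ φ z = ⨅ x, φ (nm x)

/-- Facts on names, part 2. -/
structure Nice2 (B : Type) [CompleteBooleanAlgebra B] : Prop where
  op_eq : ∀ x y p : BSet B, BV.op x y p = eqv p (opn x y)
  opn_eqv : ∀ x y x' y' : BSet B, eqv (opn x y) (opn x' y') = eqv x x' ⊓ eqv y y'
  R_eq : ∀ r a b : BSet B, BV.R r a b = mem (opn a b) r
  R_rl' : ∀ (X Y : Type) (nmX : X → BSet B) (nmY : Y → BSet B) (r : X → Y → B) (a b : BSet B),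
    BV.R (rl nmX nmY r) a b = ⨆ x, ⨆ y, r x y ⊓ (eqv a (nmX x) ⊓ eqv b (nmY y))
  R_rl : ∀ (X Y : Type) (nmX : X → BSet B) (nmY : Y → BSet B) (r : X → Y → B),
    Disc nmX → Disc nmY → ∀ x y, BV.R (rl nmX nmY r) (nmX x) (nmY y) = r x y
  rel_rl : ∀ (X Y : Type) (nmX : X → BSet B) (nmY : Y → BSet B) (r : X → Y → B),
    BV.relOn (rl nmX nmY r) (hatF nmX) (hatF nmY) = ⊤
  rel_le : ∀ (X Y : Type) (nmX : X → BSet B) (nmY : Y → BSet B) (f : BSet B),
    BV.relOn f (hatF nmX) (hatF nmY) ≤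
      eqv f (rl nmX nmY (fun x y => BV.R f (nmX x) (nmY y)))
  fn_rl : ∀ (X Y : Type) (nmX : X → BSet B) (nmY : Y → BSet B) (r : X → Y → B),
    Disc nmX → Disc nmY → BV.fn (rl nmX nmY r) (hatF nmX) (hatF nmY) =
      (⨅ x, ⨆ y, r x y) ⊓ ⨅ x, ⨅ y, ⨅ z, ⨅ (_ : y ≠ z), (r x y ⊓ r x z)ᶜ
  ex_fn : ∀ (X Y : Type) [Nonempty Y] (nmX : X → BSet B) (nmY : Y → BSet B), Disc nmX →
    Disc nmY → ∀ φ : BSet B → B, Extl φ →
      ⨆ f, BV.fn f (hatF nmX) (hatF nmY) ⊓ φ f = ⨆ (r : X → Y → B) (_ : IsFun r), φ (rl nmX nmY r)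

def ClaimNice1 : Prop := ∀ (B : Type) [CompleteBooleanAlgebra B], Nice1 B
def ClaimNice2 : Prop := ∀ (B : Type) [CompleteBooleanAlgebra B], Nice2 B

/-! ## The quotient model -/

section Quot

variable {B : Type} [CompleteBooleanAlgebra B] (U : Uf B)

/-- Equality modulo the ultrafilter. -/
def setoidU : Setoid (BSet B) where
  r x y := eqv x y ∈ U.s
  iseqv :=
    { refl := fun x => by rw [eqv_refl]; exact U.top_mem
      symm := fun {x y} h => by rw [eqv_symm]; exact h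
      trans := fun {x y z} h1 h2 => U.up _ _ (eqv_trans x y z) (U.inf_mem _ _ h1 h2) }

/-- The quotient of the Boolean valued universe by the ultrafilter. -/
def MU : Type 1 := Quotient (setoidU U)

/-- The membership relation of the quotient. -/
def EU (x y : MU U) : Prop :=
  Quotient.lift₂ (fun a b : BSet B => mem a b ∈ U.s) (by
    intro a b a' b' ha hb
    have ha' : eqv a a' ∈ U.s := ha
    have hb' : eqv b b' ∈ U.s := hb
    apply propext
    constructor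
    · intro h
      refine U.up _ _ (mem_congr_right b b' a') (U.inf_mem _ _ hb' ?_)
      exact U.up _ _ (mem_congr_left a a' b) (U.inf_mem _ _ ha' h)
    · intro h
      rw [eqv_symm] at ha' hb'
      refine U.up _ _ (mem_congr_right b' b a) (U.inf_mem _ _ hb' ?_)
      exact U.up _ _ (mem_congr_left a' a b') (U.inf_mem _ _ ha' h)) x y

/-- The class of a name. -/
def cls (x : BSet B) : MU U := Quotient.mk (setoidU U) x

theorem EU_cls (x y : BSet B) : EU U (cls U x) (cls U y) ↔ mem x y ∈ U.s := Iff.rfl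

theorem cls_eq (x y : BSet B) : cls U x = cls U y ↔ eqv x y ∈ U.s :=
  ⟨fun h => Quotient.exact h, fun h => Quotient.sound h⟩

theorem cls_surj (x : MU U) : ∃ a, cls U a = x := Quotient.exists_rep x

end Quot

/-- Los's theorem. -/
def ClaimLos : Prop := ∀ (B : Type) [CompleteBooleanAlgebra B] (U : Uf B) (φ : Fml)
  (v : ℕ → BSet B), MZ.Sat (EU U) φ (fun n => cls U (v n)) ↔ Val φ v ∈ U.s

def ClaimZ1 : Prop := ∀ (B : Type) [CompleteBooleanAlgebra B] (U : Uf B),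
  (∀ x y : MU U, (∀ z, EU U z x ↔ EU U z y) → x = y) ∧
  (∀ x y : MU U, ∃ p, ∀ z, EU U z p ↔ z = x ∨ z = y) ∧
  (∀ x : MU U, ∃ u, ∀ z, EU U z u ↔ ∃ y, EU U y x ∧ EU U z y) ∧
  (∀ x : MU U, ∃ p, ∀ z, EU U z p ↔ ∀ w, EU U w z → EU U w x)

def ClaimZ2 : Prop := ∀ (B : Type) [CompleteBooleanAlgebra B] (U : Uf B),
  (∃ x : MU U, (∃ e, (∀ z, ¬ EU U z e) ∧ EU U e x) ∧
    ∀ y, EU U y x → ∃ s, EU U s x ∧ ∀ z, EU U z s ↔ EU U z y ∨ z = y) ∧
  (∀ x : MU U, (∃ y, EU U y x) → ∃ y, EU U y x ∧ ∀ z, EU U z y → ¬ EU U z x)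

def ClaimZ3 : Prop := ∀ (B : Type) [CompleteBooleanAlgebra B] (U : Uf B),
  (∀ (φ : Fml) (v : ℕ → MU U) (x : MU U), ∃ y, ∀ z,
    EU U z y ↔ EU U z x ∧ MZ.Sat (EU U) φ (cons z v)) ∧
  (∀ (φ : Fml) (v : ℕ → MU U) (x : MU U),
    (∀ z, EU U z x → ∃! w, MZ.Sat (EU U) φ (cons w (cons z v))) →
      ∃ y, ∀ w, EU U w y ↔ ∃ z, EU U z x ∧ MZ.Sat (EU U) φ (cons w (cons z v)))

def ClaimZ4 : Prop := ∀ (B : Type) [CompleteBooleanAlgebra B] (U : Uf B) (x : MU U),
  (∀ y, EU U y x → ∃ z, EU U z y) →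
    (∀ y z, EU U y x → EU U z x → y ≠ z → ¬ ∃ w, EU U w y ∧ EU U w z) →
      ∃ c, ∀ y, EU U y x → ∃! w, EU U w y ∧ EU U w c

/-! ## Evaluation of the notions at canonical names -/

/-- The name of `ω`. -/
noncomputable def w0 (B : Type) [CompleteBooleanAlgebra B] : BSet B := hatF (onm : ℕ → BSet B)
/-- The name of `ω₁`. -/
noncomputable def w1 (B : Type) [CompleteBooleanAlgebra B] : BSet B := hatF (onm : O1 → BSet B)
/-- The name of `L`. -/
noncomputable def w2 (L : Type) [LinearOrder L] [WellFoundedLT L] (B : Type)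
    [CompleteBooleanAlgebra B] : BSet B := hatF (onm : L → BSet B)

def ClaimEvCof : Prop := ∀ (B : Type) [CompleteBooleanAlgebra B] (L : Type) [LinearOrder L]
  [WellFoundedLT L] (N : Type) [Nonempty N] (nm : N → BSet B), Disc nm → ∀ α : L,
    BV.cofinal (hatF nm) (onm α) =
      ⨆ (f : N → Iio α → B) (_ : IsFun f),
        ⨅ β : Iio α, ⨆ n, ⨆ γ : Iio α, ⨆ (_ : β < γ), f n γ

def ClaimEvStat : Prop := ∀ (B : Type) [CompleteBooleanAlgebra B] (L : Type) [LinearOrder L]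
  [WellFoundedLT L] (S : L → B),
    (∀ C : L → B, BV.club (sb onm C) (w2 L B) = club C) ∧
    BV.stat (sb onm S) (w2 L B) = stat S ∧
    ∀ δ : L, BV.stat (sb onm S) (onm δ) = stat (below δ S)

def ClaimEvCtbl : Prop := ∀ (B : Type) [CompleteBooleanAlgebra B] (L : Type) [LinearOrder L]
  [WellFoundedLT L] [Nonempty L] (α : L) (x : L → B),
    sub (sb onm x) (onm α) ⊓ BV.ctbl (w0 B) (sb onm x) = ctblSub α x

def ClaimEv0 : Prop := ∀ (B : Type) [CompleteBooleanAlgebra B] [Nontrivial B] (L : Type)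
  [LinearOrder L] [WellFoundedLT L] [Nonempty L], Om2 L B →
    BV.isOmega (w0 B) = ⊤ ∧ BV.isNext (w0 B) (w1 B) = ⊤ ∧ BV.isNext (w1 B) (w2 L B) = ⊤

def ClaimEvSR : Prop := ∀ (B : Type) [CompleteBooleanAlgebra B] (L : Type)
  [LinearOrder L] [WellFoundedLT L], SR L B → BV.sr (w0 B) (w1 B) (w2 L B) = ⊤

def ClaimEvTP : Prop := ∀ (B : Type) [CompleteBooleanAlgebra B] (L : Type)
  [LinearOrder L] [WellFoundedLT L], TP L B → BV.tp (w1 B) (w2 L B) = ⊤

def ClaimEvKH : Prop := ∀ (B : Type) [CompleteBooleanAlgebra B] (L : Type)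
  [LinearOrder L] [WellFoundedLT L], NwKH L B → BV.nwkh (w1 B) (w2 L B) = ⊤

/-- Sets meeting all sets closed under a function meet all clubs of countable sets. -/
def ClaimEvP : Prop := ∀ (B : Type) [CompleteBooleanAlgebra B] (L : Type) [LinearOrder L]
  [WellFoundedLT L] (α : L) (N : (L → B) → B) (b : B), (∀ x y, N x ⊓ beq x y ≤ N y) →
    (∀ x, b ⊓ N x ≤ ctblSub α x) → b ≤ statP α N → (∃ β, β < α) →
    ∀ C : BSet B, b ⊓ BV.clubP (w0 B) C (onm α) ≤ ⨆ x : L → B, N x ⊓ mem (sb onm x) C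

def ClaimEvDSS : Prop := ∀ (B : Type) [CompleteBooleanAlgebra B] (L : Type)
  [LinearOrder L] [WellFoundedLT L], DSS L B → BV.dss (w0 B) (w1 B) (w2 L B) = ⊤

def ClaimEvT : Prop := ∀ (B : Type) [CompleteBooleanAlgebra B] (L : Type)
  [LinearOrder L] [WellFoundedLT L], Tge L B → TUle L B → BV.teq (w0 B) (w2 L B) = ⊤

def ClaimEvU : Prop := ∀ (B : Type) [CompleteBooleanAlgebra B] (L : Type)
  [LinearOrder L] [WellFoundedLT L], (∃ e : L → L × ℕ, Function.Surjective e) → Uge L B →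
    TUle L B → BV.ueq (w0 B) (w2 L B) = ⊤

def ClaimEvC : Prop := ∀ (B : Type) [CompleteBooleanAlgebra B] (L : Type)
  [LinearOrder L] [WellFoundedLT L], Cgt L B → BV.cgt (w0 B) (w2 L B) = ⊤

end Pool.Agent.Work.MP_dbe197_lc
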