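import Pool.Agent.Work.MP_dbe197_lc.LC

/-!
# MP_dbe197_lc: definitions

Boolean-valued statements over a complete Boolean algebra `B` (the value of the
statement in the Boolean-valued universe).
-/

namespace Pool.Agent.Work.MP_dbe197_lc

open Set Cardinal

/-- The well-ordered set of order type `ω₁`. -/
abbrev O1 : Type := OO (Cardinal.aleph 1)

/-! ## Boolean-valued notions

`B` is a complete Boolean algebra; a name for a subset of `X` is a function `X → B`, a name for a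
function from `X` to `Y` is an `f : X → Y → B` with `IsFun f`. -/

section Bval

variable {B : Type} [CompleteBooleanAlgebra B]

/-- `f` names a function from `X` to `Y`. -/
structure IsFun {X Y : Type} (f : X → Y → B) : Prop where
  tot : ∀ x, ⨆ y, f x y = ⊤
  uniq : ∀ x y z, y ≠ z → f x y ⊓ f x z = ⊥

/-- Value of the equality of two subsets of `X`. -/
def beq {X : Type} (x y : X → B) : B := ⨅ a, (x a ⊓ y a) ⊔ ((x a)ᶜ ⊓ (y a)ᶜ)

/-- Value of: the cofinality of `α` is `ω`. -/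
def cfω {L : Type} [LinearOrder L] (B : Type) [CompleteBooleanAlgebra B] (α : L) : B :=
  ⨆ (f : ℕ → Iio α → B) (_ : IsFun f), ⨅ β : Iio α, ⨆ n, ⨆ γ : Iio α, ⨆ (_ : β < γ), f n γ

/-- Value of: the cofinality of `α` is `ω₁`. -/
def cfω1 {L : Type} [LinearOrder L] (B : Type) [CompleteBooleanAlgebra B] (α : L) : B :=
  (⨆ (f : O1 → Iio α → B) (_ : IsFun f),
      ⨅ β : Iio α, ⨆ ξ, ⨆ γ : Iio α, ⨆ (_ : β < γ), f ξ γ) ⊓ (cfω B α)ᶜ

/-- Value of: `C` is closed and unbounded in the linear order `L`. -/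
def club {L : Type} [LinearOrder L] (C : L → B) : B :=
  (⨅ α, ⨆ β, ⨆ (_ : α < β), C β) ⊓
    ⨅ α, ⨅ (_ : ∃ β, β < α), (⨆ β, ⨆ (_ : β < α), ⨅ γ, ⨅ (_ : β < γ), ⨅ (_ : γ < α), (C γ)ᶜ) ⊔ C α

/-- Value of: `S` is stationary in the linear order `L`. -/
def stat {L : Type} [LinearOrder L] (S : L → B) : B :=
  ⨅ C : L → B, (club C)ᶜ ⊔ ⨆ α, C α ⊓ S α

/-- The restriction of a name of a subset of `L` to the initial segment below `β`. -/
def below {L : Type} [LinearOrder L] (β : L) (S : L → B) : Iio β → B := fun α => S α.1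

/-- `ω₁` is not collapsed and `L` becomes `ω₂`: no countable sequence enumerates `ω₁`,
no `ω₁`-sequence enumerates `L`, and every initial segment of `L` has size at most `ω₁`. -/
structure Om2 (L : Type) [LinearOrder L] (B : Type) [CompleteBooleanAlgebra B] : Prop where
  pres1 : ∀ f : ℕ → O1 → B, IsFun f → ⨅ ξ, ⨆ n, f n ξ = ⊥
  pres2 : ∀ f : O1 → L → B, IsFun f → ⨅ α, ⨆ ξ, f ξ α = ⊥
  coll : ∀ α : L, ∃ f : O1 → L → B, IsFun f ∧ ∀ β ≤ α, ⨆ ξ, f ξ β = ⊤

/-- Stationary reflection. -/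
def SR (L : Type) [LinearOrder L] (B : Type) [CompleteBooleanAlgebra B] : Prop :=
  ∀ S : L → B, (∀ α, S α ≤ cfω B α) → stat S ≤ ⨆ β, cfω1 B β ⊓ stat (below β S)

/-- A name for a tree of height `L` whose level `α` is a nonempty subset of `{α} × W`. -/
structure BTree (B : Type) [CompleteBooleanAlgebra B] (L W : Type) [LinearOrder L] where
  D : L × W → B
  t : L × W → L × W → B
  t_le : ∀ x y, t x y ≤ D x ⊓ D y
  t_lvl : ∀ x y, ¬ x.1 < y.1 → t x y = ⊥
  t_trans : ∀ x y z, t x y ⊓ t y z ≤ t x z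
  t_tree : ∀ x y z, x.1 < y.1 → t x z ⊓ t y z ≤ t x y
  t_uniq : ∀ x y z, x.1 = y.1 → x ≠ y → t x z ⊓ t y z = ⊥
  t_pred : ∀ z, ∀ α < z.1, D z ≤ ⨆ w, t (α, w) z
  lvl : ∀ α, ⨆ w, D (α, w) = ⊤

/-- `f` names a branch of the tree `T` meeting all levels. -/
structure IsBr {L W : Type} [LinearOrder L] (T : BTree B L W) (f : L × W → B) : Prop where
  le : ∀ x, f x ≤ T.D x
  chain : ∀ x y, x.1 < y.1 → f x ⊓ f y ≤ T.t x y
  uniq : ∀ x y, x.1 = y.1 → x ≠ y → f x ⊓ f y = ⊥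
  full : ∀ α, ⨆ w, f (α, w) = ⊤

/-- The tree property: every tree of height `L` with levels of size at most `ω₁` has a
cofinal branch. -/
def TP (L : Type) [LinearOrder L] (B : Type) [CompleteBooleanAlgebra B] : Prop :=
  ∀ T : BTree B L O1, ∃ f, IsBr T f

/-- The failure of the weak Kurepa hypothesis: for every tree of height and size `ω₁` no
`L`-sequence of cofinal branches is one-to-one. -/
def NwKH (L : Type) [LinearOrder L] (B : Type) [CompleteBooleanAlgebra B] : Prop :=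
  ∀ (T : BTree B O1 O1) (f : L → O1 × O1 → B), (∀ i, IsBr T (f i)) →
    ⨅ i, ⨅ j, ⨅ (_ : i < j), (beq (f i) (f j))ᶜ = ⊥

/-- Value of: `x` is a countable subset of the initial segment below `α`. -/
def ctblSub {L : Type} [LinearOrder L] (α : L) (x : L → B) : B :=
  ⨆ (f : ℕ → L → B) (_ : IsFun f), ⨅ a, (x a)ᶜ ⊔ ((⨆ n, f n a) ⊓ ⨆ (_ : a < α), ⊤)

/-- Value of: `x` is closed under the function `F` from finite sequences to elements. -/
def closedUnder {L : Type} (F : List L → L → B) (x : L → B) : B :=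
  ⨅ u : List L, (⨆ a ∈ u, (x a)ᶜ) ⊔ ⨆ b, F u b ⊓ x b

/-- Value of: the set `N` of subsets of `α` is stationary in the countable subsets of `α`
(it contains a set closed under any given function from finite sequences of elements of `α`
to elements of `α`). -/
def statP {L : Type} [LinearOrder L] (α : L) (N : (L → B) → B) : B :=
  ⨅ (F : List L → L → B) (_ : IsFun F ∧ ∀ u, ∀ b, ¬ b < α → F u b = ⊥),
    ⨆ x : L → B, N x ⊓ closedUnder F x

/-- There is a disjoint stationary sequence. -/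
def DSS (L : Type) [LinearOrder L] (B : Type) [CompleteBooleanAlgebra B] : Prop :=
  ∃ (S : L → B) (N : L → (L → B) → B),
    stat S = ⊤ ∧ (∀ α, S α ≤ cfω1 B α) ∧
    (∀ α x y, N α x ⊓ beq x y ≤ N α y) ∧
    (∀ α x, S α ⊓ N α x ≤ ctblSub α x) ∧
    (∀ α, S α ≤ statP α (N α)) ∧
    (∀ α β x, α ≠ β → S α ⊓ S β ⊓ (N α x ⊓ N β x) = ⊥)

/-! ### Cardinal characteristics -/

/-- Value of: `r` is an infinite subset of `ω`. -/
def BInf (r : ℕ → B) : B := ⨅ n, ⨆ k, ⨆ (_ : n ≤ k), r k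

/-- Value of: `r` is almost contained in `s`. -/
def BSub (r s : ℕ → B) : B := ⨆ n, ⨅ k, ⨅ (_ : n ≤ k), (r k)ᶜ ⊔ s k

/-- `𝔱 ≥ L`: every tower of length `ρ ∈ L` of infinite sets has an infinite
pseudo-intersection. -/
def Tge (L : Type) [LinearOrder L] (B : Type) [CompleteBooleanAlgebra B] : Prop :=
  ∀ (ρ : L) (T : Iio ρ → ℕ → B), (∀ α, BInf (T α) = ⊤) →
    (∀ α β, α < β → BSub (T β) (T α) = ⊤) →
    ∃ r : ℕ → B, BInf r = ⊤ ∧ ∀ α, BSub r (T α) = ⊤

/-- `𝔱 ≤ L` and `𝔲 ≤ L`: there is a tower of length `L` of infinite sets which has no infinite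
pseudo-intersection and which generates an ultrafilter. -/
def TUle (L : Type) [LinearOrder L] (B : Type) [CompleteBooleanAlgebra B] : Prop :=
  ∃ m : L → ℕ → B, (∀ α, BInf (m α) = ⊤) ∧
    (∀ α β, α < β → BSub (m β) (m α) = ⊤) ∧
    (∀ r : ℕ → B, BInf r ⊓ (⨅ α, BSub r (m α)) = ⊥) ∧
    (∀ r : ℕ → B, (⨆ α, BSub (m α) r) ⊔ (⨆ α, BSub (m α) (fun n => (r n)ᶜ)) = ⊤)

/-- Value of: the family `T` is a base of a nonprincipal ultrafilter on `ω`. -/
def ufBase {X : Type} (T : X → ℕ → B) : B :=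
  (⨅ α, BInf (T α)) ⊓ (⨅ α, ⨅ β, ⨆ γ, ⨅ n, (T γ n)ᶜ ⊔ (T α n ⊓ T β n)) ⊓
    ⨅ r : ℕ → B, (⨆ α, ⨅ n, (T α n)ᶜ ⊔ r n) ⊔ (⨆ α, ⨅ n, (T α n)ᶜ ⊔ (r n)ᶜ)

/-- `𝔲 ≥ L`: no family indexed by some `ρ ∈ L` is a base of a nonprincipal ultrafilter. -/
def Uge (L : Type) [LinearOrder L] (B : Type) [CompleteBooleanAlgebra B] : Prop :=
  ∀ (ρ : L) (T : Iio ρ → ℕ → B), ufBase T = ⊥

/-- `2^ω > L`: no `L`-sequence enumerates all subsets of `ω`. -/
def Cgt (L : Type) (B : Type) [CompleteBooleanAlgebra B] : Prop :=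
  ∀ f : L → ℕ → B, ⨆ r : ℕ → B, ⨅ α, (beq r (f α))ᶜ = ⊤

end Bval

end Pool.Agent.Work.MP_dbe197_lc
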