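import Pool.Agent.Work.MP_dbe197_lc.Stmts2

/-!
# The failure of the weak Kurepa hypothesis for general trees
-/

namespace Pool.Agent.Work.MP_dbe197_lc

open Set Cardinal BSet

namespace EvKH

section Basic

variable {B : Type} [CompleteBooleanAlgebra B]

theorem mp {c a b : B} (h : c ≤ aᶜ ⊔ b) (ha : c ≤ a) : c ≤ b := by
  have h1 : c ≤ (aᶜ ⊔ b) ⊓ a := le_inf h ha
  refine h1.trans ?_
  rw [inf_sup_right, compl_inf_eq_bot, bot_sup_eq]
  exact inf_le_left

theorem intr {c a b : B} (h : c ⊓ a ≤ b) : c ≤ aᶜ ⊔ b := by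
  rw [sup_comm, ← himp_eq, le_himp_iff]
  exact h

theorem cov {ι : Sort*} {c X : B} {d : ι → B} (h : c ≤ ⨆ i, d i)
    (k : ∀ i, ∀ c' ≤ c, c' ≤ d i → c' ≤ X) : c ≤ X := by
  have e : c ≤ ⨆ i, c ⊓ d i := by
    rw [← inf_iSup_eq]
    exact le_inf le_rfl h
  exact e.trans (iSup_le fun i => k i _ inf_le_left inf_le_right)

theorem cov2 {c X a b : B} (h : c ≤ a ⊔ b) (k1 : ∀ c' ≤ c, c' ≤ a → c' ≤ X)
    (k2 : ∀ c' ≤ c, c' ≤ b → c' ≤ X) : c ≤ X := by
  have e : c ≤ (c ⊓ a) ⊔ (c ⊓ b) := by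
    rw [← inf_sup_left]
    exact le_inf le_rfl h
  exact e.trans (sup_le (k1 _ inf_le_left inf_le_right) (k2 _ inf_le_left inf_le_right))

theorem abs {c a X : B} (h1 : c ≤ a) (h2 : c ≤ aᶜ) : c ≤ X := by
  have h3 : c ≤ a ⊓ aᶜ := le_inf h1 h2
  rw [inf_compl_eq_bot] at h3
  exact h3.trans bot_le

theorem least {X : Type} [LinearOrder X] [WellFoundedLT X] (d : X → B) {c : B}
    (h : c ≤ ⨆ ξ, d ξ) : c ≤ ⨆ ξ, d ξ ⊓ ⨅ ξ', ⨅ (_ : ξ' < ξ), (d ξ')ᶜ := by
  refine h.trans (iSup_le fun ξ => ?_)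
  induction ξ using WellFoundedLT.induction with
  | ind ξ ih =>
    have h1 : d ξ ≤ (d ξ ⊓ ⨅ ξ', ⨅ (_ : ξ' < ξ), (d ξ')ᶜ) ⊔
        (⨅ ξ', ⨅ (_ : ξ' < ξ), (d ξ')ᶜ)ᶜ := by
      rw [sup_inf_right, sup_compl_eq_top, inf_top_eq]
      exact le_sup_left
    refine h1.trans (sup_le (le_iSup (fun ξ => d ξ ⊓ ⨅ ξ', ⨅ (_ : ξ' < ξ), (d ξ')ᶜ) ξ) ?_)
    simp only [compl_iInf, compl_compl]
    exact iSup₂_le ih

theorem extl_val (hC : ClaimCongr) (φ : Fml) (v : ℕ → BSet B) :
    Extl (fun x => Val φ (cons x v)) := by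
  intro x y
  refine le_trans ?_ (hC B φ (cons x v) (cons y v))
  refine inf_le_inf_right _ (le_iInf fun n => ?_)
  cases n with
  | zero => exact le_rfl
  | succ n =>
    simp only [cons_succ, eqv_refl]
    exact le_top

/-- Choice of a witness. -/
theorem wit (hF : ClaimFull) {φ : BSet B → B} (hφ : Extl φ) {c : B} (h : c ≤ ⨆ x, φ x) :
    ∃ x, c ≤ φ x := by
  obtain ⟨x, hx⟩ := hF B φ hφ
  exact ⟨x, h.trans hx⟩

theorem mem_l {c : B} {x y z : BSet B} (h : c ≤ eqv x y) (h2 : c ≤ mem x z) : c ≤ mem y z :=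
  (le_inf h h2).trans (mem_congr_left x y z)

theorem symm' {c : B} {x y : BSet B} (h : c ≤ eqv x y) : c ≤ eqv y x := by
  rw [eqv_symm]
  exact h

theorem trans' {c : B} {x y z : BSet B} (h : c ≤ eqv x y) (h2 : c ≤ eqv y z) : c ≤ eqv x z :=
  (le_inf h h2).trans (eqv_trans x y z)

/-- Congruence of `R`. -/
theorem R_congr (h2 : ClaimNice2) {c : B} {r a b a' b' : BSet B} (ha : c ≤ eqv a a')
    (hb : c ≤ eqv b b') (h : c ≤ BV.R r a b) : c ≤ BV.R r a' b' := by
  have hN := h2 B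
  rw [hN.R_eq] at h ⊢
  refine mem_l ?_ h
  rw [hN.opn_eqv]
  exact le_inf ha hb

theorem refl' {c : B} {x : BSet B} : c ≤ eqv x x := by
  rw [eqv_refl]
  exact le_top

end Basic

/-- The facts on the tree below `b0`. -/
structure TF {B : Type} [CompleteBooleanAlgebra B] (b0 : B) (T t l : BSet B) (X : Type)
    [LinearOrder X] [WellFoundedLT X] : Prop where
  lT : ∀ c ≤ b0, ∀ x a, c ≤ BV.R l x a → c ≤ mem x T
  lw : ∀ c ≤ b0, ∀ x, c ≤ mem x T → c ≤ ⨆ α : X, BV.R l x (onm α)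
  lf : ∀ c ≤ b0, ∀ x a a', c ≤ BV.R l x a → c ≤ BV.R l x a' → c ≤ eqv a a'
  tT : ∀ c ≤ b0, ∀ x y, c ≤ BV.R t x y → c ≤ mem x T ∧ c ≤ mem y T
  tr : ∀ c ≤ b0, ∀ x y z, c ≤ BV.R t x y → c ≤ BV.R t y z → c ≤ BV.R t x z
  lv : ∀ c ≤ b0, ∀ x y a b, c ≤ BV.R t x y → c ≤ BV.R l x a → c ≤ BV.R l y b → c ≤ mem a b
  pr : ∀ c ≤ b0, ∀ y b, c ≤ BV.R l y b → ∀ a, c ≤ mem a b → c ≤ ⨆ x, BV.R t x y ⊓
    (BV.R l x a ⊓ ⨅ x', (BV.R t x' y)ᶜ ⊔ ((BV.R l x' a)ᶜ ⊔ eqv x' x))
  ne : ∀ α : X, b0 ≤ ⨆ x, BV.R l x (onm α)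

section Facts

variable {B : Type} [CompleteBooleanAlgebra B]

/-- Elements of a relation. -/
theorem rel_R (h2 : ClaimNice2) {c : B} {f a b x y : BSet B} (h : c ≤ BV.relOn f a b)
    (hR : c ≤ BV.R f x y) : c ≤ mem x a ∧ c ≤ mem y b := by
  have hN := h2 B
  have h1 : c ≤ (mem (opn x y) f)ᶜ ⊔ ⨆ x', mem x' a ⊓ ⨆ y', mem y' b ⊓ BV.op x' y' (opn x y) :=
    h.trans (iInf_le _ _)
  rw [hN.R_eq] at hR
  have h3 := mp h1 hR
  have h4 : ∀ c' ≤ c, ∀ x' y', c' ≤ mem x' a → c' ≤ mem y' b ⊓ BV.op x' y' (opn x y) →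
      c' ≤ mem x a ⊓ mem y b := by
    intro c' _ x' y' hx hy
    have h5 : c' ≤ eqv (opn x y) (opn x' y') := by
      rw [← hN.op_eq]
      exact hy.trans inf_le_right
    rw [hN.opn_eqv] at h5
    exact le_inf (mem_l (symm' (h5.trans inf_le_left)) hx)
      (mem_l (symm' (h5.trans inf_le_right)) (hy.trans inf_le_left))
  have h6 : c ≤ mem x a ⊓ mem y b := by
    refine cov h3 fun x' c' hc' h7 => ?_
    refine cov (h7.trans inf_le_right) fun y' c'' hc'' h8 => ?_
    exact h4 c'' (hc''.trans hc') x' y' (hc''.trans (h7.trans inf_le_left)) h8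
  exact ⟨h6.trans inf_le_left, h6.trans inf_le_right⟩

theorem fn_tot {c : B} {f a b x : BSet B} (h : c ≤ BV.fn f a b) (hx : c ≤ mem x a) :
    c ≤ ⨆ y, mem y b ⊓ BV.R f x y :=
  mp ((h.trans (inf_le_right.trans inf_le_left)).trans (iInf_le _ x)) hx

theorem fn_un {c : B} {f a b x y z : BSet B} (h : c ≤ BV.fn f a b) (h1 : c ≤ BV.R f x y)
    (h2 : c ≤ BV.R f x z) : c ≤ eqv y z :=
  mp (mp (((h.trans (inf_le_right.trans inf_le_right)).trans (iInf_le _ x)).trans
    ((iInf_le _ y).trans (iInf_le _ z))) h1) h2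

theorem mem_hat_onm (h1 : ClaimNice1) {X : Type} [LinearOrder X] [WellFoundedLT X] (α : X)
    {c : B} : c ≤ mem (onm α : BSet B) (hatF (onm : X → BSet B)) := by
  rw [(h1 B).mem_hat]
  refine le_trans ?_ (le_iSup _ α)
  exact refl'

/-- The facts on the tree. -/
theorem facts (h1 : ClaimNice1) (h2 : ClaimNice2) (hC : ClaimCongr) {b0 : B} {T t l : BSet B}
    {X : Type} [LinearOrder X] [WellFoundedLT X]
    (h : b0 ≤ BV.tree T t l (hatF (onm : X → BSet B))) : TF b0 T t l X := by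
  have hfn : b0 ≤ BV.fn l T (hatF (onm : X → BSet B)) := h.trans inf_le_left
  have h' := h.trans inf_le_right
  have hrel : b0 ≤ BV.relOn t T T := h'.trans inf_le_left
  have h'' := h'.trans inf_le_right
  have htr := h''.trans inf_le_left
  have h3 := h''.trans inf_le_right
  have hlv := h3.trans inf_le_left
  have h4 := h3.trans inf_le_right
  have hpr := h4.trans inf_le_left
  have hne := h4.trans inf_le_right
  refine ⟨?_, ?_, ?_, ?_, ?_, ?_, ?_, ?_⟩
  · intro c hc x a hR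
    exact (rel_R h2 (hc.trans (hfn.trans inf_le_left)) hR).1
  · intro c hc x hx
    have h5 := fn_tot (hc.trans hfn) hx
    have h6 := (h1 B).ex_mem X onm (fun y => BV.R l x y) (by
      have := extl_val hC (F.r 1 2 0) (cons l (fun _ => x) : ℕ → BSet B)
      simpa using this)
    rw [h6] at h5
    exact h5
  · intro c hc x a a' ha ha'
    exact fn_un (hc.trans hfn) ha ha'
  · intro c hc x y hR
    exact rel_R h2 (hc.trans hrel) hR
  · intro c hc x y z hxy hyz
    exact mp (mp ((hc.trans htr).trans ((iInf_le _ x).trans ((iInf_le _ y).trans (iInf_le _ z))))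
      hxy) hyz
  · intro c hc x y a b hR ha hb
    exact mp (mp ((mp ((hc.trans hlv).trans ((iInf_le _ x).trans (iInf_le _ y))) hR).trans
      ((iInf_le _ a).trans (iInf_le _ b))) ha) hb
  · intro c hc y b hb a ha
    exact mp ((mp ((hc.trans hpr).trans ((iInf_le _ y).trans (iInf_le _ b))) hb).trans
      (iInf_le _ a)) ha
  · intro α
    exact mp (hne.trans (iInf_le _ (onm α))) (mem_hat_onm h1 α)

/-- The value of: `y p` is an element of level `p.1`, and `p.2` is the least index. -/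
noncomputable def V {X W : Type} [LinearOrder W] [LinearOrder X] [WellFoundedLT X] (l : BSet B)
    (y : X × W → BSet B) (p : X × W) : B :=
  BV.R l (y p) (onm p.1) ⊓ ⨅ ξ', ⨅ (_ : ξ' < p.2), (eqv (y (p.1, ξ')) (y p))ᶜ

/-- Covering by the least index. -/
theorem V_cov (h2 : ClaimNice2) {X W : Type} [LinearOrder W] [WellFoundedLT W] [LinearOrder X]
    [WellFoundedLT X] {l x : BSet B} {y : X × W → BSet B} {α : X} {c Z : B}
    (hR : c ≤ BV.R l x (onm α)) (hE : c ≤ ⨆ ξ, eqv x (y (α, ξ)))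
    (k : ∀ ξ, ∀ c' ≤ c, c' ≤ eqv x (y (α, ξ)) → c' ≤ V l y (α, ξ) → c' ≤ Z) : c ≤ Z := by
  refine cov (least _ hE) fun ξ c' hc' h => ?_
  refine k ξ c' hc' (h.trans inf_le_left) (le_inf ?_ ?_)
  · exact R_congr h2 (h.trans inf_le_left) refl' (hc'.trans hR)
  · refine le_iInf fun ξ' => le_iInf fun hξ => ?_
    have h3 : c' ≤ (eqv x (y (α, ξ')))ᶜ :=
      (h.trans inf_le_right).trans ((iInf_le _ ξ').trans (iInf_le _ hξ))
    have h4 : c' ≤ (eqv (y (α, ξ')) (y (α, ξ)))ᶜ ⊔ ⊥ := by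
      refine intr ?_
      have h5 : c' ⊓ eqv (y (α, ξ')) (y (α, ξ)) ≤ eqv x (y (α, ξ')) :=
        trans' (inf_le_left.trans (h.trans inf_le_left)) (symm' inf_le_right)
      exact abs h5 (inf_le_left.trans h3)
    rw [sup_bot_eq] at h4
    exact h4

/-- Different indices on one level. -/
theorem V_ne {X W : Type} [LinearOrder W] [LinearOrder X] [WellFoundedLT X] {l : BSet B}
    {y : X × W → BSet B} {p q : X × W} {c Z : B} (h1 : p.1 = q.1) (hne : p ≠ q)
    (hp : c ≤ V l y p) (hq : c ≤ V l y q) (he : c ≤ eqv (y p) (y q)) : c ≤ Z := by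
  obtain ⟨α, ξ⟩ := p
  obtain ⟨α', ξ'⟩ := q
  obtain rfl : α = α' := h1
  have hne2 : ξ ≠ ξ' := fun h => hne (by rw [h])
  rcases lt_or_gt_of_ne hne2 with h | h
  · exact abs he ((hq.trans inf_le_right).trans ((iInf_le _ ξ).trans (iInf_le _ h)))
  · exact abs (symm' he) ((hp.trans inf_le_right).trans ((iInf_le _ ξ').trans (iInf_le _ h)))

end Facts

section Main

variable {B : Type} [CompleteBooleanAlgebra B]

/-- The value of a fact. -/
def tv (P : Prop) : B := ⨆ (_ : P), ⊤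

/-- The mixed set of nodes. -/
def DD {X W : Type} (b0 : B) (V : X × W → B) (ξ0 : W) (p : X × W) : B :=
  (b0 ⊓ V p) ⊔ (b0ᶜ ⊓ tv (p.2 = ξ0))

/-- The mixed order. -/
def tt {X W : Type} [LinearOrder X] (b0 : B) (t : X × W → X × W → B) (ξ0 : W)
    (p q : X × W) : B :=
  (b0 ⊓ t p q) ⊔ (b0ᶜ ⊓ tv (p.2 = ξ0 ∧ q.2 = ξ0 ∧ p.1 < q.1))

theorem split {b0 c Z : B} (h1 : ∀ c' ≤ c, c' ≤ b0 → c' ≤ Z) (h2 : ∀ c' ≤ c, c' ≤ b0ᶜ → c' ≤ Z) :
    c ≤ Z :=
  cov2 (a := b0) (b := b0ᶜ) (by rw [sup_compl_eq_top]; exact le_top) h1 h2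

theorem mix_in {b0 c a b : B} (hc : c ≤ b0) (ha : c ≤ a) : c ≤ (b0 ⊓ a) ⊔ (b0ᶜ ⊓ b) :=
  (le_inf hc ha).trans le_sup_left

theorem mix_in' {b0 c a b : B} (hc : c ≤ b0ᶜ) (ha : c ≤ b) : c ≤ (b0 ⊓ a) ⊔ (b0ᶜ ⊓ b) :=
  (le_inf hc ha).trans le_sup_right

theorem mix_out {b0 c a b : B} (hc : c ≤ b0) (h : c ≤ (b0 ⊓ a) ⊔ (b0ᶜ ⊓ b)) : c ≤ a :=
  cov2 h (fun _ _ h1 => h1.trans inf_le_right)
    (fun _ h0 h1 => abs (h0.trans hc) (h1.trans inf_le_left))

theorem mix_out' {b0 c a b : B} (hc : c ≤ b0ᶜ) (h : c ≤ (b0 ⊓ a) ⊔ (b0ᶜ ⊓ b)) : c ≤ b :=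
  cov2 h (fun _ h0 h1 => abs (h1.trans inf_le_left) (h0.trans hc))
    (fun _ _ h1 => h1.trans inf_le_right)

theorem ite_out {P : Prop} {c Z : B} (h : c ≤ tv P) (k : P → c ≤ Z) : c ≤ Z := by
  by_cases hP : P
  · exact k hP
  · rw [tv, iSup_neg hP] at h
    exact h.trans bot_le

theorem ite_in {P : Prop} {c : B} (h : P) : c ≤ tv P := by
  rw [tv, iSup_pos h]
  exact le_top

/-- Elements below `z` are determined by their level. -/
theorem un (h1 : ClaimNice1) {b0 : B} {T t l : BSet B} {X : Type} [LinearOrder X]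
    [WellFoundedLT X] (hT : TF b0 T t l X) {c : B} (hc : c ≤ b0) {z x x' : BSet B} {β α : X}
    (hβ : c ≤ BV.R l z (onm β)) (hα : α < β) (hx : c ≤ BV.R t x z) (hx' : c ≤ BV.R t x' z)
    (ha : c ≤ BV.R l x (onm α)) (ha' : c ≤ BV.R l x' (onm α)) : c ≤ eqv x x' := by
  have hm : c ≤ mem (onm α : BSet B) (onm β) := by
    rw [(h1 B).onm_lt _ _ _ hα]
    exact le_top
  refine cov (hT.pr c hc z _ hβ _ hm) fun x0 c' hc' h => ?_
  have h3 := (h.trans inf_le_right).trans inf_le_right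
  have e1 : c' ≤ eqv x x0 := mp (mp (h3.trans (iInf_le _ x)) (hc'.trans hx)) (hc'.trans ha)
  have e2 : c' ≤ eqv x' x0 := mp (mp (h3.trans (iInf_le _ x')) (hc'.trans hx')) (hc'.trans ha')
  exact trans' e1 (symm' e2)

/-- The order below `b0`. -/
noncomputable def t1 {X W : Type} [LinearOrder W] [LinearOrder X] [WellFoundedLT X]
    (t l : BSet B) (y : X × W → BSet B) (p q : X × W) : B :=
  V l y p ⊓ (V l y q ⊓ BV.R t (y p) (y q))

theorem t1_lvl (h1 : ClaimNice1) {b0 : B} {T t l : BSet B} {X W : Type} [LinearOrder W]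
    [LinearOrder X] [WellFoundedLT X] (hT : TF b0 T t l X) {y : X × W → BSet B} {c Z : B}
    (hc : c ≤ b0) {p q : X × W} (h : c ≤ t1 t l y p q) (hn : ¬ p.1 < q.1) : c ≤ Z := by
  have h3 : c ≤ mem (onm p.1 : BSet B) (onm q.1) :=
    hT.lv c hc _ _ _ _ (h.trans (inf_le_right.trans inf_le_right))
      ((h.trans inf_le_left).trans inf_le_left)
      ((h.trans (inf_le_right.trans inf_le_left)).trans inf_le_left)
  rw [(h1 B).onm_nlt _ _ _ hn] at h3
  exact h3.trans bot_le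

/-- The tree. -/
theorem exT (h1 : ClaimNice1) (h2 : ClaimNice2) {b0 : B} {T t l : BSet B} {X W : Type}
    [LinearOrder W] [WellFoundedLT W] [LinearOrder X] [WellFoundedLT X] (hT : TF b0 T t l X)
    (y : X × W → BSet B)
    (hE : ∀ c ≤ b0, ∀ x α, c ≤ BV.R l x (onm α) → c ≤ ⨆ ξ, eqv x (y (α, ξ))) (ξ0 : W) :
    ∃ T' : BTree B X W, (∀ p, T'.D p = DD b0 (V l y) ξ0 p) ∧
      ∀ p q, T'.t p q = tt b0 (t1 t l y) ξ0 p q := by
  refine ⟨⟨DD b0 (V l y) ξ0, tt b0 (t1 t l y) ξ0, ?_, ?_, ?_, ?_, ?_, ?_, ?_⟩,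
    fun _ => rfl, fun _ _ => rfl⟩
  · intro p q
    refine split (b0 := b0) (fun c hc hb => ?_) (fun c hc hb => ?_)
    · have h := mix_out hb hc
      exact le_inf (mix_in hb (h.trans inf_le_left))
        (mix_in hb (h.trans (inf_le_right.trans inf_le_left)))
    · refine ite_out (mix_out' hb hc) fun h => ?_
      exact le_inf (mix_in' hb (ite_in h.1)) (mix_in' hb (ite_in h.2.1))
  · intro p q hn
    rw [← le_bot_iff]
    refine split (b0 := b0) (fun c hc hb => ?_) (fun c hc hb => ?_)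
    · exact t1_lvl h1 hT hb (mix_out hb hc) hn
    · exact ite_out (mix_out' hb hc) fun h => absurd h.2.2 hn
  · intro p q r
    refine split (b0 := b0) (fun c hc hb => ?_) (fun c hc hb => ?_)
    · have h3 := mix_out hb (hc.trans inf_le_left)
      have h4 := mix_out hb (hc.trans inf_le_right)
      refine mix_in hb (le_inf (h3.trans inf_le_left)
        (le_inf (h4.trans (inf_le_right.trans inf_le_left)) ?_))
      exact hT.tr c hb _ _ _ (h3.trans (inf_le_right.trans inf_le_right))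
        (h4.trans (inf_le_right.trans inf_le_right))
    · refine ite_out (mix_out' hb (hc.trans inf_le_left)) fun h3 => ?_
      refine ite_out (mix_out' hb (hc.trans inf_le_right)) fun h4 => ?_
      exact mix_in' hb (ite_in ⟨h3.1, h4.2.1, h3.2.2.trans h4.2.2⟩)
  · intro p q r hpq
    refine split (b0 := b0) (fun c hc hb => ?_) (fun c hc hb => ?_)
    · have h3 := mix_out hb (hc.trans inf_le_left)
      have h4 := mix_out hb (hc.trans inf_le_right)
      have hVp : c ≤ V l y p := h3.trans inf_le_left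
      have hVq : c ≤ V l y q := h4.trans inf_le_left
      have hVr : c ≤ V l y r := h3.trans (inf_le_right.trans inf_le_left)
      refine mix_in hb (le_inf hVp (le_inf hVq ?_))
      by_cases hpr : p.1 < r.1
      · have hm : c ≤ mem (onm p.1 : BSet B) (onm q.1) := by
          rw [(h1 B).onm_lt _ _ _ hpq]
          exact le_top
        refine cov (hT.pr c hb (y q) _ (hVq.trans inf_le_left) _ hm) fun x c' hc' h => ?_
        have hx1 : c' ≤ BV.R t x (y q) := h.trans inf_le_left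
        have hx2 : c' ≤ BV.R l x (onm p.1) := h.trans (inf_le_right.trans inf_le_left)
        have hx3 : c' ≤ BV.R t x (y r) := hT.tr c' (hc'.trans hb) _ _ _ hx1
          (hc'.trans (h4.trans (inf_le_right.trans inf_le_right)))
        have hx4 : c' ≤ eqv x (y p) := un h1 hT (hc'.trans hb)
          (hc'.trans (hVr.trans inf_le_left)) hpr hx3
          (hc'.trans (h3.trans (inf_le_right.trans inf_le_right))) hx2
          (hc'.trans (hVp.trans inf_le_left))
        exact R_congr h2 hx4 refl' hx1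
      · exact t1_lvl h1 hT hb h3 hpr
    · refine ite_out (mix_out' hb (hc.trans inf_le_left)) fun h3 => ?_
      refine ite_out (mix_out' hb (hc.trans inf_le_right)) fun h4 => ?_
      exact mix_in' hb (ite_in ⟨h3.1, h4.1, hpq⟩)
  · intro p q r hpq hne
    rw [← le_bot_iff]
    refine split (b0 := b0) (fun c hc hb => ?_) (fun c hc hb => ?_)
    · have h3 := mix_out hb (hc.trans inf_le_left)
      have h4 := mix_out hb (hc.trans inf_le_right)
      have hVp : c ≤ V l y p := h3.trans inf_le_left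
      have hVq : c ≤ V l y q := h4.trans inf_le_left
      have hVr : c ≤ V l y r := h3.trans (inf_le_right.trans inf_le_left)
      by_cases hpr : p.1 < r.1
      · refine V_ne hpq hne hVp hVq ?_
        refine un h1 hT hb (hVr.trans inf_le_left) hpr
          (h3.trans (inf_le_right.trans inf_le_right))
          (h4.trans (inf_le_right.trans inf_le_right)) (hVp.trans inf_le_left) ?_
        rw [hpq]
        exact hVq.trans inf_le_left
      · exact t1_lvl h1 hT hb h3 hpr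
    · refine ite_out (mix_out' hb (hc.trans inf_le_left)) fun h3 => ?_
      refine ite_out (mix_out' hb (hc.trans inf_le_right)) fun h4 => ?_
      exact absurd (Prod.ext hpq (h3.1.trans h4.1.symm)) hne
  · intro r α hα
    refine split (b0 := b0) (fun c hc hb => ?_) (fun c hc hb => ?_)
    · have hV : c ≤ V l y r := mix_out hb hc
      have hm : c ≤ mem (onm α : BSet B) (onm r.1) := by
        rw [(h1 B).onm_lt _ _ _ hα]
        exact le_top
      refine cov (hT.pr c hb (y r) _ (hV.trans inf_le_left) _ hm) fun x c' hc' h => ?_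
      have hx1 : c' ≤ BV.R t x (y r) := h.trans inf_le_left
      have hx2 : c' ≤ BV.R l x (onm α) := h.trans (inf_le_right.trans inf_le_left)
      refine V_cov h2 (y := y) hx2 (hE c' (hc'.trans hb) x α hx2) fun ξ c'' hc'' he hv => ?_
      refine le_trans ?_ (le_iSup _ ξ)
      refine mix_in ((hc''.trans hc').trans hb) (le_inf hv (le_inf ((hc''.trans hc').trans hV) ?_))
      exact R_congr h2 he refl' (hc''.trans hx1)
    · refine ite_out (mix_out' hb hc) fun h3 => ?_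
      refine le_trans ?_ (le_iSup _ ξ0)
      exact mix_in' hb (ite_in ⟨rfl, h3, hα⟩)
  · intro α
    rw [eq_top_iff]
    refine split (b0 := b0) (fun c hc hb => ?_) (fun c hc hb => ?_)
    · refine cov (hb.trans (hT.ne α)) fun x c' hc' h => ?_
      refine V_cov h2 (y := y) h (hE c' (hc'.trans hb) x α h) fun ξ c'' hc'' he hv => ?_
      refine le_trans ?_ (le_iSup _ ξ)
      exact mix_in ((hc''.trans hc').trans hb) hv
    · refine le_trans ?_ (le_iSup _ ξ0)
      exact mix_in' hb (ite_in rfl)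

/-- The branches. -/
theorem exBr (h1 : ClaimNice1) (h2 : ClaimNice2) {b0 : B} {T t l : BSet B} {X W : Type}
    [LinearOrder W] [WellFoundedLT W] [LinearOrder X] [WellFoundedLT X] (hT : TF b0 T t l X)
    (y : X × W → BSet B)
    (hE : ∀ c ≤ b0, ∀ x α, c ≤ BV.R l x (onm α) → c ≤ ⨆ ξ, eqv x (y (α, ξ))) (ξ0 : W)
    (T' : BTree B X W) (hD : ∀ p, T'.D p = DD b0 (V l y) ξ0 p)
    (ht : ∀ p q, T'.t p q = tt b0 (t1 t l y) ξ0 p q) (b : BSet B)
    (hb0 : b0 ≤ BV.branch T t l (hatF (onm : X → BSet B)) b) :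
    IsBr T' (DD b0 (fun p => V l y p ⊓ mem (y p) b) ξ0) := by
  have hcmp : ∀ c ≤ b0, ∀ x x', c ≤ mem x b → c ≤ mem x' b →
      c ≤ eqv x x' ⊔ (BV.R t x x' ⊔ BV.R t x' x) := by
    intro c hc x x' hx hx'
    exact mp (mp (((hc.trans hb0).trans (inf_le_right.trans inf_le_left)).trans
      ((iInf_le _ x).trans (iInf_le _ x'))) hx) hx'
  refine ⟨?_, ?_, ?_, ?_⟩
  · intro p
    rw [hD]
    refine split (b0 := b0) (fun c hc hb => ?_) (fun c hc hb => ?_)
    · exact mix_in hb ((mix_out hb hc).trans inf_le_left)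
    · exact mix_in' hb (mix_out' hb hc)
  · intro p q hpq
    rw [ht]
    refine split (b0 := b0) (fun c hc hb => ?_) (fun c hc hb => ?_)
    · have h3 := mix_out hb (hc.trans inf_le_left)
      have h4 := mix_out hb (hc.trans inf_le_right)
      have hVp : c ≤ V l y p := h3.trans inf_le_left
      have hVq : c ≤ V l y q := h4.trans inf_le_left
      refine mix_in hb (le_inf hVp (le_inf hVq ?_))
      refine cov2 (hcmp c hb _ _ (h3.trans inf_le_right) (h4.trans inf_le_right))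
        (fun c' hc' h => ?_) (fun c' hc' h => ?_)
      · have h5 : c' ≤ BV.R l (y q) (onm p.1) :=
          R_congr h2 h refl' (hc'.trans (hVp.trans inf_le_left))
        have h6 : c' ≤ eqv (onm p.1 : BSet B) (onm q.1) :=
          hT.lf c' (hc'.trans hb) _ _ _ h5 (hc'.trans (hVq.trans inf_le_left))
        rw [(h1 B).onm_disc X p.1 q.1 hpq.ne] at h6
        exact h6.trans bot_le
      · refine cov2 h (fun c'' hc'' h' => h') (fun c'' hc'' h' => ?_)
        have h6 : c'' ≤ mem (onm q.1 : BSet B) (onm p.1) :=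
          hT.lv c'' ((hc''.trans hc').trans hb) _ _ _ _ h'
            ((hc''.trans hc').trans (hVq.trans inf_le_left))
            ((hc''.trans hc').trans (hVp.trans inf_le_left))
        rw [(h1 B).onm_nlt _ _ _ (not_lt.mpr hpq.le)] at h6
        exact h6.trans bot_le
    · refine ite_out (mix_out' hb (hc.trans inf_le_left)) fun h3 => ?_
      refine ite_out (mix_out' hb (hc.trans inf_le_right)) fun h4 => ?_
      exact mix_in' hb (ite_in ⟨h3, h4, hpq⟩)
  · intro p q hpq hne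
    rw [← le_bot_iff]
    refine split (b0 := b0) (fun c hc hb => ?_) (fun c hc hb => ?_)
    · have h3 := mix_out hb (hc.trans inf_le_left)
      have h4 := mix_out hb (hc.trans inf_le_right)
      have hVp : c ≤ V l y p := h3.trans inf_le_left
      have hVq : c ≤ V l y q := h4.trans inf_le_left
      refine cov2 (hcmp c hb _ _ (h3.trans inf_le_right) (h4.trans inf_le_right))
        (fun c' hc' h => ?_) (fun c' hc' h => ?_)
      · exact V_ne hpq hne (hc'.trans hVp) (hc'.trans hVq) h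
      · refine cov2 h (fun c'' hc'' h' => ?_) (fun c'' hc'' h' => ?_)
        · have h6 : c'' ≤ mem (onm p.1 : BSet B) (onm q.1) :=
            hT.lv c'' ((hc''.trans hc').trans hb) _ _ _ _ h'
              ((hc''.trans hc').trans (hVp.trans inf_le_left))
              ((hc''.trans hc').trans (hVq.trans inf_le_left))
          rw [(h1 B).onm_nlt _ _ _ (by rw [hpq]; exact lt_irrefl _)] at h6
          exact h6.trans bot_le
        · have h6 : c'' ≤ mem (onm q.1 : BSet B) (onm p.1) :=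
            hT.lv c'' ((hc''.trans hc').trans hb) _ _ _ _ h'
              ((hc''.trans hc').trans (hVq.trans inf_le_left))
              ((hc''.trans hc').trans (hVp.trans inf_le_left))
          rw [(h1 B).onm_nlt _ _ _ (by rw [hpq]; exact lt_irrefl _)] at h6
          exact h6.trans bot_le
    · refine ite_out (mix_out' hb (hc.trans inf_le_left)) fun h3 => ?_
      refine ite_out (mix_out' hb (hc.trans inf_le_right)) fun h4 => ?_
      exact absurd (Prod.ext hpq (h3.trans h4.symm)) hne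
  · intro α
    rw [eq_top_iff]
    refine split (b0 := b0) (fun c hc hb => ?_) (fun c hc hb => ?_)
    · have h3 : c ≤ ⨆ x, mem x b ⊓ BV.R l x (onm α) :=
        mp (((hb.trans hb0).trans (inf_le_right.trans inf_le_right)).trans (iInf_le _ (onm α)))
          (mem_hat_onm h1 α)
      refine cov h3 fun x c' hc' h => ?_
      have hx : c' ≤ BV.R l x (onm α) := h.trans inf_le_right
      refine V_cov h2 (y := y) hx (hE c' (hc'.trans hb) x α hx) fun ξ c'' hc'' he hv => ?_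
      refine le_trans ?_ (le_iSup _ ξ)
      exact mix_in ((hc''.trans hc').trans hb)
        (le_inf hv (mem_l he (hc''.trans (h.trans inf_le_left))))
    · refine le_trans ?_ (le_iSup _ ξ0)
      exact mix_in' hb (ite_in rfl)

theorem beq_out {X : Type} {f g : X → B} {c : B} (h : c ≤ beq f g) (p : X) (hp : c ≤ f p) :
    c ≤ g p :=
  cov2 (h.trans (iInf_le _ p)) (fun _ _ h' => h'.trans inf_le_right)
    (fun _ hc' h' => abs (hc'.trans hp) (h'.trans inf_le_left))

theorem beq_symm {X : Type} (f g : X → B) : beq f g = beq g f := by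
  unfold beq
  refine iInf_congr fun a => ?_
  rw [inf_comm (f a), inf_comm (f a)ᶜ]

/-- Equal branches. -/
theorem sub_br (h2 : ClaimNice2) {b0 : B} {T t l : BSet B} {X W : Type}
    [LinearOrder W] [WellFoundedLT W] [LinearOrder X] [WellFoundedLT X] (hT : TF b0 T t l X)
    (y : X × W → BSet B)
    (hE : ∀ c ≤ b0, ∀ x α, c ≤ BV.R l x (onm α) → c ≤ ⨆ ξ, eqv x (y (α, ξ))) (ξ0 : W)
    {b b' : BSet B} (hb : b0 ≤ BV.branch T t l (hatF (onm : X → BSet B)) b) {c : B}
    (hc : c ≤ b0) (he : c ≤ beq (DD b0 (fun p => V l y p ⊓ mem (y p) b) ξ0)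
      (DD b0 (fun p => V l y p ⊓ mem (y p) b') ξ0)) : c ≤ sub b b' := by
  refine le_iInf fun z => intr ?_
  have hz : c ⊓ mem z b ≤ mem z b := inf_le_right
  have hc1 : c ⊓ mem z b ≤ b0 := inf_le_left.trans hc
  have hzT : c ⊓ mem z b ≤ mem z T :=
    mp (((hc1.trans hb).trans inf_le_left).trans (iInf_le _ z)) hz
  refine cov (hT.lw _ hc1 z hzT) fun α c' hc' hR => ?_
  refine V_cov h2 (y := y) hR (hE c' (hc'.trans hc1) z α hR) fun ξ c'' hc'' hzy hv => ?_
  have h3 : c'' ≤ DD b0 (fun p => V l y p ⊓ mem (y p) b) ξ0 (α, ξ) :=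
    mix_in ((hc''.trans hc').trans hc1) (le_inf hv (mem_l hzy ((hc''.trans hc').trans hz)))
  have h4 := beq_out (((hc''.trans hc').trans inf_le_left).trans he) (α, ξ) h3
  have h5 := (mix_out ((hc''.trans hc').trans hc1) h4).trans inf_le_right
  exact mem_l (symm' hzy) h5

end Main

end EvKH

open EvKH in
/-- No weak Kurepa trees. -/
theorem claimEvKH (h1 : ClaimNice1) (h2 : ClaimNice2) (hC : ClaimCongr) (hF : ClaimFull) :
    ClaimEvKH := by
  intro B _ L _ _ hK
  rw [eq_top_iff]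
  refine le_iInf fun T => le_iInf fun t => le_iInf fun l => ?_
  refine intr (intr ?_)
  refine le_iInf fun G => intr (intr ?_)
  set b0 : B := (⊤ ⊓ BV.tree T t l (w1 B) ⊓ ⨆ g, BV.surj g (w1 B) T) ⊓
    (⨅ i, (mem i (w2 L B))ᶜ ⊔ ⨆ b, BV.R G i b ⊓ BV.branch T t l (w1 B) b) ⊓
    (⨅ i, ⨅ b, ⨅ b', (BV.R G i b)ᶜ ⊔ ((BV.R G i b')ᶜ ⊔ eqv b b')) with hb0
  have htree : b0 ≤ BV.tree T t l (hatF (onm : O1 → BSet B)) :=
    inf_le_left.trans (inf_le_left.trans (inf_le_left.trans inf_le_right))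
  have hsurj : b0 ≤ ⨆ g, BV.surj g (w1 B) T :=
    inf_le_left.trans (inf_le_left.trans inf_le_right)
  have hbr : b0 ≤ ⨅ i, (mem i (w2 L B))ᶜ ⊔ ⨆ b, BV.R G i b ⊓ BV.branch T t l (w1 B) b :=
    inf_le_left.trans inf_le_right
  have hT := facts h1 h2 hC htree
  -- enumeration of the tree
  obtain ⟨g, hg⟩ := wit hF (φ := fun g => BV.surj g (w1 B) T) (by
    have := extl_val hC (F.surj 0 1 2) (cons (w1 B) (fun _ => T) : ℕ → BSet B)
    simpa using this) hsurj
  have hex : ∀ ξ : O1, ∃ y, b0 ≤ mem y T ⊓ BV.R g (onm ξ) y := by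
    intro ξ
    refine wit hF ?_ (fn_tot (hg.trans inf_le_left) (mem_hat_onm h1 ξ))
    have := extl_val hC (Fml.and (.mem 0 1) (F.r 2 3 0))
      (cons T (cons g (fun _ => (onm ξ : BSet B))) : ℕ → BSet B)
    simpa using this
  choose y0 hy0 using hex
  have hcov : ∀ c ≤ b0, ∀ x, c ≤ mem x T → c ≤ ⨆ ξ, eqv x (y0 ξ) := by
    intro c hc x hx
    have h3 : c ≤ ⨆ z, mem z (w1 B) ⊓ BV.R g z x :=
      mp (((hc.trans hg).trans inf_le_right).trans (iInf_le _ x)) hx
    have h4 := (h1 B).ex_mem O1 onm (fun z => BV.R g z x) (by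
      have := extl_val hC (F.r 1 0 2) (cons g (fun _ => x) : ℕ → BSet B)
      simpa using this)
    have h5 : c ≤ ⨆ ξ : O1, BV.R g (onm ξ) x := by
      rw [← h4]
      exact h3
    refine cov h5 fun ξ c' hc' h => ?_
    refine le_trans ?_ (le_iSup _ ξ)
    exact fn_un ((hc'.trans (hc.trans hg)).trans inf_le_left) h
      ((hc'.trans (hc.trans (hy0 ξ))).trans inf_le_right)
  set y : O1 × O1 → BSet B := fun p => y0 p.2 with hy
  have hE : ∀ c ≤ b0, ∀ x (α : O1), c ≤ BV.R l x (onm α) → c ≤ ⨆ ξ, eqv x (y (α, ξ)) := by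
    intro c hc x α hR
    exact hcov c hc x (hT.lT c hc x _ hR)
  -- a base point
  have hO1 : Nonempty O1 := by
    rw [← Cardinal.mk_ne_zero_iff]
    simp only [O1, OO]
    rw [Cardinal.mk_toType, Cardinal.card_ord]
    exact (Cardinal.aleph_pos 1).ne'
  obtain ⟨ξ0⟩ := hO1
  obtain ⟨T', hD, ht⟩ := exT h1 h2 hT y hE ξ0
  -- branches
  have hexb : ∀ i : L, ∃ b, b0 ≤ BV.R G (onm i) b ⊓ BV.branch T t l (w1 B) b := by
    intro i
    refine wit hF ?_ (mp (hbr.trans (iInf_le _ (onm i))) (mem_hat_onm h1 i))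
    have := extl_val hC (Fml.and (F.r 1 2 0) (F.branch 3 4 5 6 0))
      (cons G (cons (onm i) (cons T (cons t (cons l (fun _ => w1 B))))) : ℕ → BSet B)
    simpa using this
  choose b hb using hexb
  have hIs : ∀ i, IsBr T' (DD b0 (fun p => V l y p ⊓ mem (y p) (b i)) ξ0) := fun i =>
    exBr h1 h2 hT y hE ξ0 T' hD ht (b i) ((hb i).trans inf_le_right)
  have hKK := hK T' (fun i => DD b0 (fun p => V l y p ⊓ mem (y p) (b i)) ξ0) hIs
  have htop : b0 ≤ ⨆ i, ⨆ j, ⨆ (_ : i < j), beq (DD b0 (fun p => V l y p ⊓ mem (y p) (b i)) ξ0)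
      (DD b0 (fun p => V l y p ⊓ mem (y p) (b j)) ξ0) := by
    have h3 := congrArg compl hKK
    simp only [compl_iInf, compl_compl, compl_bot] at h3
    rw [h3]
    exact le_top
  refine cov htop fun i c1 hc1 k1 => ?_
  refine cov k1 fun j c2 hc2 k2 => ?_
  refine cov k2 fun hij c hc he => ?_
  have hcb : c ≤ b0 := (hc.trans hc2).trans hc1
  have hbb : c ≤ eqv (b i) (b j) := by
    rw [eqv_eq]
    refine le_inf ?_ ?_
    · exact sub_br h2 hT y hE ξ0 ((hb i).trans inf_le_right) hcb he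
    · refine sub_br h2 hT y hE ξ0 ((hb j).trans inf_le_right) hcb ?_
      rw [beq_symm]
      exact he
  refine le_trans ?_ (le_iSup _ (onm i))
  refine le_trans ?_ (le_iSup _ (onm j))
  refine le_inf (mem_hat_onm h1 i) (le_inf (mem_hat_onm h1 j) (le_inf ?_ ?_))
  · rw [(h1 B).onm_disc L i j hij.ne, compl_bot]
    exact le_top
  · refine le_trans ?_ (le_iSup _ (b i))
    refine le_inf (hcb.trans ((hb i).trans inf_le_left)) ?_
    exact R_congr h2 refl' (symm' hbb) (hcb.trans ((hb j).trans inf_le_left))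

end Pool.Agent.Work.MP_dbe197_lc
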