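import Pool.Agent.Work.MP_dbe197_lc.MM

/-!
# Extensions of complete Boolean algebras which are locally centered over the base
-/

namespace Pool.Agent.Work.MP_dbe197_lc

open Set Cardinal

/-- Every family of nonzero elements indexed by `L` contains two compatible elements
(with different indices). -/
def CC (L : Type) (B : Type) [CompleteBooleanAlgebra B] : Prop :=
  ∀ f : L → B, (∀ i, f i ≠ ⊥) → ∃ i j, i ≠ j ∧ f i ⊓ f j ≠ ⊥

/-- A complete embedding `i : 𝔸 → B` together with a covering relation `cov a F b`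
('the condition `(a, F)` is below `b`'), `F` a finite function from `I` to the finite
subsets of `ω`, two such functions being compatible iff they agree on the common domain. -/
structure Ext (𝔸 I B : Type) [CompleteBooleanAlgebra 𝔸] [CompleteBooleanAlgebra B] where
  i : 𝔸 → B
  i_inf : ∀ a b, i (a ⊓ b) = i a ⊓ i b
  i_compl : ∀ a, i aᶜ = (i a)ᶜ
  i_sSup : ∀ s : Set 𝔸, i (sSup s) = ⨆ a ∈ s, i a
  cov : 𝔸 → Fn I (Finset ℕ) → B → Prop
  cov_mono : ∀ a a' F F' b b', cov a F b → a' ≤ a → F' ≤ F → b ≤ b' → cov a' F' b'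
  cov_inf : ∀ a F b b', cov a F b → cov a F b' → cov a F (b ⊓ b')
  cov_bot : ∀ a F, cov a F ⊥ → a = ⊥
  cov_ex : ∀ b, b ≠ ⊥ → ∃ a F, a ≠ ⊥ ∧ cov a F b
  cov_i : ∀ a a' F, cov a F (i a') ↔ a ≤ a'

namespace Ext

variable {𝔸 I B : Type} [CompleteBooleanAlgebra 𝔸] [CompleteBooleanAlgebra B] (E : Ext 𝔸 I B)

theorem i_mono {a b : 𝔸} (h : a ≤ b) : E.i a ≤ E.i b := by
  rw [← inf_eq_left, ← E.i_inf, inf_eq_left.2 h]

theorem i_iSup {ι : Sort*} (f : ι → 𝔸) : E.i (⨆ j, f j) = ⨆ j, E.i (f j) := by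
  rw [iSup, E.i_sSup]
  exact iSup_range

theorem i_bot : E.i ⊥ = ⊥ := by
  have := E.i_sSup ∅
  simpa using this

theorem i_top : E.i ⊤ = ⊤ := by
  rw [← compl_bot, E.i_compl, E.i_bot, compl_bot]

theorem i_sup (a b : 𝔸) : E.i (a ⊔ b) = E.i a ⊔ E.i b := by
  rw [sup_eq_iSup, E.i_iSup, sup_eq_iSup]
  congr 1
  ext c
  cases c <;> rfl

theorem i_iInf {ι : Sort*} (f : ι → 𝔸) : E.i (⨅ j, f j) = ⨅ j, E.i (f j) := by
  have h : ⨅ j, f j = (⨆ j, (f j)ᶜ)ᶜ := by rw [compl_iSup]; simp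
  rw [h, E.i_compl, E.i_iSup, compl_iSup]
  simp [E.i_compl]

theorem cov_le {a : 𝔸} {F : Fn I (Finset ℕ)} {a' : 𝔸} {b : B} (h : E.cov a F b)
    (ha : a ≠ ⊥) (hb : b ≤ E.i a') : a ⊓ a' ≠ ⊥ := by
  have h1 := (E.cov_i a a' F).1 (E.cov_mono _ _ _ _ _ _ h le_rfl le_rfl hb)
  rwa [inf_eq_left.2 h1]

theorem i_le_iff {a b : 𝔸} : E.i a ≤ E.i b ↔ a ≤ b := by
  constructor
  · intro h
    have h1 : E.cov a Fn.empty (E.i a) := (E.cov_i a a _).2 le_rfl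
    exact (E.cov_i a b _).1 (E.cov_mono _ _ _ _ _ _ h1 le_rfl le_rfl h)
  · exact E.i_mono

theorem i_inj {a b : 𝔸} (h : E.i a = E.i b) : a = b :=
  le_antisymm (E.i_le_iff.1 h.le) (E.i_le_iff.1 h.ge)

theorem i_eq_bot {a : 𝔸} : E.i a = ⊥ ↔ a = ⊥ :=
  ⟨fun h => E.i_inj (h.trans E.i_bot.symm), fun h => by rw [h, E.i_bot]⟩

/-- Two covering conditions with compatible second parts. -/
theorem cov_union {a a' : 𝔸} {F F' : Fn I (Finset ℕ)} {b b' : B} (h : E.cov a F b)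
    (h' : E.cov a' F' b') (hc : Fn.Compat F F') : E.cov (a ⊓ a') (F.union F') (b ⊓ b') :=
  E.cov_inf _ _ _ _
    (E.cov_mono _ _ _ _ _ _ h inf_le_left (Fn.union_le_left _ _) le_rfl)
    (E.cov_mono _ _ _ _ _ _ h' inf_le_right (Fn.union_le_right hc) le_rfl)

/-- The upper projection to the base algebra. -/
def pr (b : B) : 𝔸 := sInf {a | b ≤ E.i a}

theorem pr_le_iff {b : B} {a : 𝔸} : E.pr b ≤ a ↔ b ≤ E.i a := by
  constructor
  · intro h
    refine le_trans ?_ (E.i_mono h)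
    rw [pr, sInf_eq_iInf, E.i_iInf]
    refine le_iInf fun c => ?_
    rw [E.i_iInf]
    exact le_iInf fun hc => hc
  · intro h
    exact sInf_le h

theorem le_i_pr (b : B) : b ≤ E.i (E.pr b) := E.pr_le_iff.1 le_rfl

theorem pr_mono {b b' : B} (h : b ≤ b') : E.pr b ≤ E.pr b' :=
  E.pr_le_iff.2 (h.trans (E.le_i_pr b'))

theorem pr_i (a : 𝔸) : E.pr (E.i a) = a :=
  le_antisymm (E.pr_le_iff.2 le_rfl) (E.i_le_iff.1 (E.le_i_pr _))

theorem pr_eq_bot {b : B} : E.pr b = ⊥ ↔ b = ⊥ := by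
  constructor
  · intro h
    have := E.le_i_pr b
    rw [h, E.i_bot] at this
    exact le_bot_iff.1 this
  · rintro rfl
    exact le_bot_iff.1 (E.pr_le_iff.2 bot_le)

theorem pr_iSup {ι : Sort*} (f : ι → B) : E.pr (⨆ j, f j) = ⨆ j, E.pr (f j) := by
  apply eq_of_forall_ge_iff
  intro c
  rw [E.pr_le_iff, iSup_le_iff, iSup_le_iff]
  exact forall_congr' fun j => (E.pr_le_iff).symm

theorem pr_inf_i (b : B) (a : 𝔸) : E.pr (b ⊓ E.i a) = E.pr b ⊓ a := by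
  apply le_antisymm
  · apply le_inf (E.pr_mono inf_le_left)
    exact E.pr_le_iff.2 inf_le_right
  · have h : E.pr b ≤ E.pr (b ⊓ E.i a) ⊔ aᶜ := by
      rw [E.pr_le_iff, E.i_sup, E.i_compl]
      calc b = (b ⊓ E.i a) ⊔ (b ⊓ (E.i a)ᶜ) := by rw [← inf_sup_left]; simp
        _ ≤ _ := sup_le_sup (E.le_i_pr _) inf_le_right
    calc E.pr b ⊓ a ≤ (E.pr (b ⊓ E.i a) ⊔ aᶜ) ⊓ a := inf_le_inf_right _ h
      _ = E.pr (b ⊓ E.i a) ⊓ a := by rw [inf_sup_right]; simp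
      _ ≤ _ := inf_le_left

/-- The trivial extension. -/
def triv (𝔸 I : Type) [CompleteBooleanAlgebra 𝔸] : Ext 𝔸 I 𝔸 where
  i a := a
  i_inf _ _ := rfl
  i_compl _ := rfl
  i_sSup _ := sSup_eq_iSup
  cov a _ b := a ≤ b
  cov_mono _ _ _ _ _ _ h ha _ hb := ha.trans (h.trans hb)
  cov_inf _ _ _ _ h h' := le_inf h h'
  cov_bot _ _ h := le_bot_iff.1 h
  cov_ex b hb := ⟨b, Fn.empty, hb, le_rfl⟩
  cov_i _ _ _ := Iff.rfl

end Ext

end Pool.Agent.Work.MP_dbe197_lc
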