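import Mathlib

/-!
# Models of ZFC and the statements of the problem in a model

`M` with the relation `E` is a structure for the language of set theory.
-/

namespace Pool.Agent.Work.MP_dbe197_lc

/-- Formulas of set theory. Variables are de Bruijn indices: `0` is the variable bound by the
innermost quantifier. -/
inductive Fml : Type
  | mem (i j : ℕ) : Fml
  | eq (i j : ℕ) : Fml
  | bot : Fml
  | imp (φ ψ : Fml) : Fml
  | all (φ : Fml) : Fml

/-- Prepend an element to an assignment. -/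
def cons {M : Type 1} (x : M) (v : ℕ → M) : ℕ → M
  | 0 => x
  | n + 1 => v n

namespace MZ

variable {M : Type 1} (E : M → M → Prop)

/-- Satisfaction of a formula in `(M, E)` under the assignment `v`. -/
def Sat : Fml → (ℕ → M) → Prop
  | .mem i j, v => E (v i) (v j)
  | .eq i j, v => v i = v j
  | .bot, _ => False
  | .imp φ ψ, v => Sat φ v → Sat ψ v
  | .all φ, v => ∀ x, Sat φ (cons x v)

/-- `(M, E)` is a model of ZFC. -/
structure ZFC : Prop where
  ext : ∀ x y, (∀ z, E z x ↔ E z y) → x = y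
  pair : ∀ x y, ∃ p, ∀ z, E z p ↔ z = x ∨ z = y
  union : ∀ x, ∃ u, ∀ z, E z u ↔ ∃ y, E y x ∧ E z y
  power : ∀ x, ∃ p, ∀ z, E z p ↔ ∀ w, E w z → E w x
  inf : ∃ x, (∃ e, (∀ z, ¬ E z e) ∧ E e x) ∧
    ∀ y, E y x → ∃ s, E s x ∧ ∀ z, E z s ↔ E z y ∨ z = y
  found : ∀ x, (∃ y, E y x) → ∃ y, E y x ∧ ∀ z, E z y → ¬ E z x
  sep : ∀ (φ : Fml) (v : ℕ → M) (x : M), ∃ y, ∀ z, E z y ↔ E z x ∧ Sat E φ (cons z v)
  repl : ∀ (φ : Fml) (v : ℕ → M) (x : M),
    (∀ z, E z x → ∃! w, Sat E φ (cons w (cons z v))) →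
      ∃ y, ∀ w, E w y ↔ ∃ z, E z x ∧ Sat E φ (cons w (cons z v))
  choice : ∀ x, (∀ y, E y x → ∃ z, E z y) →
    (∀ y z, E y x → E z x → y ≠ z → ¬ ∃ w, E w y ∧ E w z) →
      ∃ c, ∀ y, E y x → ∃! w, E w y ∧ E w c

/-- `x ⊆ y`. -/
def Sub (x y : M) : Prop := ∀ z, E z x → E z y

/-- `p = {a, b}`. -/
def Pr (a b p : M) : Prop := ∀ z, E z p ↔ z = a ∨ z = b

/-- `p` is the ordered pair of `a` and `b`. -/
def OP (a b p : M) : Prop := ∃ s t, Pr E a a s ∧ Pr E a b t ∧ Pr E s t p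

/-- The ordered pair of `a` and `b` belongs to `r`. -/
def R (r a b : M) : Prop := ∃ p, OP E a b p ∧ E p r

/-- `r ⊆ a × b`. -/
def RelOn (r a b : M) : Prop := ∀ p, E p r → ∃ x, E x a ∧ ∃ y, E y b ∧ OP E x y p

/-- `f` is a function from `a` to `b`. -/
def Fun (f a b : M) : Prop := RelOn E f a b ∧ (∀ x, E x a → ∃ y, E y b ∧ R E f x y) ∧
  ∀ x y z, R E f x y → R E f x z → y = z

/-- `f` is a function from `a` onto `b`. -/
def Surj (f a b : M) : Prop := Fun E f a b ∧ ∀ y, E y b → ∃ x, E x a ∧ R E f x y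

/-- `x` is an ordinal. -/
def Ord (x : M) : Prop := (∀ y, E y x → Sub E y x) ∧ ∀ y, E y x → ∀ z, E z y → Sub E z y

/-- `w` is `ω`: a limit ordinal no element of which is a limit ordinal. -/
def IsOmega (w : M) : Prop := Ord E w ∧ (∃ x, E x w) ∧ (∀ x, E x w → ∃ y, E y w ∧ E x y) ∧
  ∀ v, E v w → (∃ x, E x v) → ∃ x, E x v ∧ ∀ y, E y v → ¬ E x y

/-- `w` is the least nonzero ordinal which is not the image of `a` under a function; if `a` is an
infinite cardinal then this is the successor cardinal. -/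
def IsNext (a w : M) : Prop := Ord E w ∧ (∃ x, E x w) ∧ (¬ ∃ f, Surj E f a w) ∧
  ∀ v, E v w → (∃ x, E x v) → ∃ f, Surj E f a v

/-- There is a function from `a` to the ordinal `α` with unbounded range (so `cf α = ω` iff this
holds for `a = ω`, and, for `α < ω₂`, `cf α = ω₁` iff this holds for `a = ω₁` but not for `ω`). -/
def Cofinal (a α : M) : Prop := ∃ f, Fun E f a α ∧
  ∀ β, E β α → ∃ n, E n a ∧ ∃ γ, E γ α ∧ R E f n γ ∧ E β γ

/-- `C` is closed and unbounded in the ordinal `δ`. -/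
def Club (C δ : M) : Prop := Sub E C δ ∧ (∀ α, E α δ → ∃ β, E β C ∧ E α β) ∧
  ∀ α, E α δ → (∃ β, E β α) → (∀ β, E β α → ∃ γ, E γ C ∧ E γ α ∧ E β γ) → E α C

/-- `S ∩ δ` is stationary in `δ`: `S` meets all closed unbounded subsets of `δ`. -/
def Stat (S δ : M) : Prop := ∀ C, Club E C δ → ∃ α, E α C ∧ E α S

/-- Stationary reflection: every stationary set of ordinals `< w2` of cofinality `ω` reflects at
an ordinal of cofinality `ω₁` (with `w0 = ω`, `w1 = ω₁`, `w2 = ω₂`). -/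
def SR (w0 w1 w2 : M) : Prop := ∀ S, Sub E S w2 → (∀ α, E α S → Cofinal E w0 α) →
  Stat E S w2 → ∃ β, E β w2 ∧ (Cofinal E w1 β ∧ ¬ Cofinal E w0 β) ∧ Stat E S β

/-- `T` with the order `t` is a tree of height `w` with nonempty levels, `l` is its height
function. -/
def Tree (T t l w : M) : Prop :=
  Fun E l T w ∧ RelOn E t T T ∧
  (∀ x y z, R E t x y → R E t y z → R E t x z) ∧
  (∀ x y, R E t x y → ∀ a b, R E l x a → R E l y b → E a b) ∧
  (∀ y b, R E l y b → ∀ a, E a b → ∃ x, R E t x y ∧ R E l x a ∧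
    ∀ x', R E t x' y → R E l x' a → x' = x) ∧
  ∀ a, E a w → ∃ x, R E l x a

/-- `b` is a cofinal branch. -/
def Branch (T t l w b : M) : Prop := Sub E b T ∧
  (∀ x y, E x b → E y b → x = y ∨ R E t x y ∨ R E t y x) ∧
  ∀ a, E a w → ∃ x, E x b ∧ R E l x a

/-- Tree property: every tree of height `w2` with levels of size at most `w1` has a cofinal
branch. -/
def TP (w1 w2 : M) : Prop := ∀ T t l, Tree E T t l w2 →
  (∀ a, E a w2 → ∃ g, Fun E g w1 T ∧ ∀ x, R E l x a → ∃ ξ, E ξ w1 ∧ R E g ξ x) →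
  ∃ b, Branch E T t l w2 b

/-- Negation of the weak Kurepa hypothesis: for a tree of height and size `w1` no function from
`w2` to the cofinal branches is one-to-one. -/
def NwKH (w1 w2 : M) : Prop := ∀ T t l, Tree E T t l w1 → (∃ g, Surj E g w1 T) →
  ∀ G, (∀ i, E i w2 → ∃ b, R E G i b ∧ Branch E T t l w1 b) →
    (∀ i b b', R E G i b → R E G i b' → b = b') →
    ∃ i j, E i w2 ∧ E j w2 ∧ i ≠ j ∧ ∃ b, R E G i b ∧ R E G j b

/-- `x` is countable (`w0 = ω`). -/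
def Ctbl (w0 x : M) : Prop := ∃ g, (∀ n y z, R E g n y → R E g n z → y = z) ∧
  ∀ z, E z x → ∃ n, E n w0 ∧ R E g n z

/-- `C` is closed and unbounded in the set of countable subsets of `α`. -/
def ClubP (w0 C α : M) : Prop :=
  (∀ x, E x C → Sub E x α ∧ Ctbl E w0 x) ∧
  (∀ x, Sub E x α → Ctbl E w0 x → ∃ y, E y C ∧ Sub E x y) ∧
  ∀ h, (∀ n, E n w0 → ∃ y, E y C ∧ R E h n y) → (∀ n y z, R E h n y → R E h n z → y = z) →
    (∀ n, E n w0 → ∀ m, E m n → ∀ y z, R E h m y → R E h n z → Sub E y z) →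
    ∀ u, (∀ z, E z u ↔ ∃ n, E n w0 ∧ ∃ y, R E h n y ∧ E z y) → E u C

/-- Disjoint stationary sequence; `N` is a set of pairs `(α, x)`, and `N_α` is the set of the `x`
with `(α, x) ∈ N`. -/
def DSS (w0 w1 w2 : M) : Prop := ∃ S N, Sub E S w2 ∧ Stat E S w2 ∧
  (∀ α, E α S → Cofinal E w1 α ∧ ¬ Cofinal E w0 α) ∧
  (∀ α, E α S → ∀ x, R E N α x → Sub E x α ∧ Ctbl E w0 x) ∧
  (∀ α, E α S → ∀ C, ClubP E w0 C α → ∃ x, R E N α x ∧ E x C) ∧
  ∀ α β x, E α S → E β S → R E N α x → R E N β x → α = β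

/-- The set `T_α` of the `k ∈ w0` with `(α, k) ∈ T` is infinite (`w0 = ω`). -/
def InfS (w0 T α : M) : Prop := ∀ n, E n w0 → ∃ k, E k w0 ∧ R E T α k ∧ E n k

/-- `T_β` is almost contained in `T_α`. -/
def AlmS (w0 T β α : M) : Prop :=
  ∃ n, E n w0 ∧ ∀ k, E k w0 → E n k → R E T β k → R E T α k

/-- `(T_α : α ∈ a)` is a tower: a sequence of infinite sets decreasing with respect to almost
inclusion. -/
def Tower (w0 T a : M) : Prop := (∀ α, E α a → InfS E w0 T α) ∧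
  ∀ β, E β a → ∀ α, E α β → AlmS E w0 T β α

/-- `r` is an infinite pseudo-intersection of `(T_α : α ∈ a)`. -/
def PsI (w0 T a r : M) : Prop := Sub E r w0 ∧ (∀ n, E n w0 → ∃ k, E k r ∧ E n k) ∧
  ∀ α, E α a → ∃ n, E n w0 ∧ ∀ k, E k r → E n k → R E T α k

/-- `𝔱 = w` (`w` a regular uncountable cardinal): all towers of length `< w` have an infinite
pseudo-intersection, and there is a tower of length `w` without an infinite pseudo-intersection. -/
def TEq (w0 w : M) : Prop := (∀ ρ, E ρ w → ∀ T, Tower E w0 T ρ → ∃ r, PsI E w0 T ρ r) ∧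
  ∃ T, Tower E w0 T w ∧ ¬ ∃ r, PsI E w0 T w r

/-- `(T_α : α ∈ a)` is a base of a nonprincipal ultrafilter on `w0`. -/
def UBase (w0 T a : M) : Prop := (∀ α, E α a → InfS E w0 T α) ∧
  (∀ α β, E α a → E β a → ∃ γ, E γ a ∧ ∀ k, E k w0 → R E T γ k → R E T α k ∧ R E T β k) ∧
  ∀ r, Sub E r w0 → (∃ α, E α a ∧ ∀ k, E k w0 → R E T α k → E k r) ∨
    ∃ α, E α a ∧ ∀ k, E k w0 → R E T α k → ¬ E k r

/-- `𝔲 = w` (`w` an uncountable cardinal): no `ρ < w` indexes a base of a nonprincipal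
ultrafilter, and `w` does. -/
def UEq (w0 w : M) : Prop := (∀ ρ, E ρ w → ¬ ∃ T, UBase E w0 T ρ) ∧ ∃ T, UBase E w0 T w

/-- `2^ω > w`: no sequence of length `w` enumerates all subsets of `w0`. -/
def CGt (w0 w : M) : Prop := ∀ G, ∃ r, Sub E r w0 ∧
  ∀ α, E α w → ∃ k, E k w0 ∧ ¬ (R E G α k ↔ E k r)

/-- All statements of the problem: `w0 = ω`, `w1 = ω₁`, `w2 = ω₂`. -/
structure Good (w0 w1 w2 : M) : Prop where
  om : IsOmega E w0
  om1 : IsNext E w0 w1
  om2 : IsNext E w1 w2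
  sr : SR E w0 w1 w2
  tp : TP E w1 w2
  nwkh : NwKH E w1 w2
  dss : DSS E w0 w1 w2
  t : TEq E w0 w2
  u : UEq E w0 w2
  c : CGt E w0 w2

end MZ

end Pool.Agent.Work.MP_dbe197_lc
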