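import Pool.Agent.Work.MP_dbe197_lc.BS
import Pool.Agent.Work.MP_dbe197_lc.Mod

/-!
# Formulas, their values in the Boolean valued universe, and the statements as formulas
-/

namespace Pool.Agent.Work.MP_dbe197_lc

open BSet

set_option linter.unusedSimpArgs false
set_option linter.ambiguousOpen false

@[simp] theorem cons_zero {M : Type 1} (x : M) (v : ℕ → M) : cons x v 0 = x := rfl
@[simp] theorem cons_succ {M : Type 1} (x : M) (v : ℕ → M) (n : ℕ) : cons x v (n + 1) = v n := rfl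
@[simp] theorem cons_one {M : Type 1} (x : M) (v : ℕ → M) : cons x v 1 = v 0 := rfl
@[simp] theorem cons_two {M : Type 1} (x : M) (v : ℕ → M) : cons x v 2 = v 1 := rfl
@[simp] theorem cons_three {M : Type 1} (x : M) (v : ℕ → M) : cons x v 3 = v 2 := rfl
@[simp] theorem cons_four {M : Type 1} (x : M) (v : ℕ → M) : cons x v 4 = v 3 := rfl
@[simp] theorem cons_five {M : Type 1} (x : M) (v : ℕ → M) : cons x v 5 = v 4 := rfl
@[simp] theorem cons_six {M : Type 1} (x : M) (v : ℕ → M) : cons x v 6 = v 5 := rfl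

/-- Value of a formula in the Boolean valued universe. -/
def Val {B : Type} [CompleteBooleanAlgebra B] : Fml → (ℕ → BSet B) → B
  | .mem i j, v => BSet.mem (v i) (v j)
  | .eq i j, v => BSet.eqv (v i) (v j)
  | .bot, _ => ⊥
  | .imp φ ψ, v => (Val φ v)ᶜ ⊔ Val ψ v
  | .all φ, v => ⨅ x, Val φ (cons x v)

namespace Fml

/-- Negation. -/
def neg (φ : Fml) : Fml := imp φ bot
/-- Disjunction. -/
def or (φ ψ : Fml) : Fml := imp (neg φ) ψ
/-- Conjunction. -/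
def and (φ ψ : Fml) : Fml := neg (imp φ (neg ψ))
/-- Equivalence. -/
def iff (φ ψ : Fml) : Fml := and (imp φ ψ) (imp ψ φ)
/-- Existential quantifier. -/
def ex (φ : Fml) : Fml := neg (all (neg φ))

end Fml

section ValL

variable {B : Type} [CompleteBooleanAlgebra B] (v : ℕ → BSet B) (φ ψ : Fml)

@[simp] theorem Val_mem (i j : ℕ) : Val (.mem i j) v = BSet.mem (v i) (v j) := rfl
@[simp] theorem Val_eq (i j : ℕ) : Val (.eq i j) v = BSet.eqv (v i) (v j) := rfl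
@[simp] theorem Val_bot : Val .bot v = ⊥ := rfl
@[simp] theorem Val_imp : Val (.imp φ ψ) v = (Val φ v)ᶜ ⊔ Val ψ v := rfl
@[simp] theorem Val_all : Val (.all φ) v = ⨅ x, Val φ (cons x v) := rfl
@[simp] theorem Val_neg : Val (.neg φ) v = (Val φ v)ᶜ := by simp [Fml.neg]
@[simp] theorem Val_or : Val (.or φ ψ) v = Val φ v ⊔ Val ψ v := by simp [Fml.or]
@[simp] theorem Val_and : Val (.and φ ψ) v = Val φ v ⊓ Val ψ v := by simp [Fml.and]
@[simp] theorem Val_iff : Val (.iff φ ψ) v =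
    ((Val φ v)ᶜ ⊔ Val ψ v) ⊓ ((Val ψ v)ᶜ ⊔ Val φ v) := by simp [Fml.iff]
@[simp] theorem Val_ex : Val (.ex φ) v = ⨆ x, Val φ (cons x v) := by simp [Fml.ex, compl_iInf]

end ValL

section SatL

variable {M : Type 1} (E : M → M → Prop) (v : ℕ → M) (φ ψ : Fml)

open MZ (Sat)

@[simp] theorem Sat_mem (i j : ℕ) : Sat E (.mem i j) v ↔ E (v i) (v j) := Iff.rfl
@[simp] theorem Sat_eq (i j : ℕ) : Sat E (.eq i j) v ↔ v i = v j := Iff.rfl
@[simp] theorem Sat_bot : Sat E .bot v ↔ False := Iff.rfl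
@[simp] theorem Sat_imp : Sat E (.imp φ ψ) v ↔ (Sat E φ v → Sat E ψ v) := Iff.rfl
@[simp] theorem Sat_all : Sat E (.all φ) v ↔ ∀ x, Sat E φ (cons x v) := Iff.rfl
@[simp] theorem Sat_neg : Sat E (.neg φ) v ↔ ¬ Sat E φ v := by simp [Fml.neg]
@[simp] theorem Sat_or : Sat E (.or φ ψ) v ↔ Sat E φ v ∨ Sat E ψ v := by
  simp [Fml.or]; tauto
@[simp] theorem Sat_and : Sat E (.and φ ψ) v ↔ Sat E φ v ∧ Sat E ψ v := by simp [Fml.and]
@[simp] theorem Sat_iff : Sat E (.iff φ ψ) v ↔ (Sat E φ v ↔ Sat E ψ v) := by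
  simp [Fml.iff]; tauto
@[simp] theorem Sat_ex : Sat E (.ex φ) v ↔ ∃ x, Sat E φ (cons x v) := by simp [Fml.ex]

end SatL

/-! ## The notions as formulas -/

namespace F

open Fml

def sub (i j : ℕ) : Fml := all (imp (mem 0 (i+1)) (mem 0 (j+1)))
def pr (a b p : ℕ) : Fml := all (iff (mem 0 (p+1)) (or (eq 0 (a+1)) (eq 0 (b+1))))
def op (a b p : ℕ) : Fml :=
  ex (ex (and (pr (a+2) (a+2) 1) (and (pr (a+2) (b+2) 0) (pr 1 0 (p+2)))))
def r (r a b : ℕ) : Fml := ex (and (op (a+1) (b+1) 0) (mem 0 (r+1)))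
def relOn (f a b : ℕ) : Fml :=
  all (imp (mem 0 (f+1)) (ex (and (mem 0 (a+2)) (ex (and (mem 0 (b+3)) (op 1 0 2))))))
def fn (f a b : ℕ) : Fml :=
  and (relOn f a b) (and (all (imp (mem 0 (a+1)) (ex (and (mem 0 (b+2)) (r (f+2) 1 0)))))
    (all (all (all (imp (r (f+3) 2 1) (imp (r (f+3) 2 0) (eq 1 0)))))))
def surj (f a b : ℕ) : Fml :=
  and (fn f a b) (all (imp (mem 0 (b+1)) (ex (and (mem 0 (a+2)) (r (f+2) 0 1)))))
def ord (x : ℕ) : Fml :=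
  and (all (imp (mem 0 (x+1)) (sub 0 (x+1)))) (all (imp (mem 0 (x+1)) (all (imp (mem 0 1) (sub 0 1)))))
def isOmega (w : ℕ) : Fml :=
  and (ord w) (and (ex (mem 0 (w+1))) (and (all (imp (mem 0 (w+1)) (ex (and (mem 0 (w+2)) (mem 1 0)))))
    (all (imp (mem 0 (w+1)) (imp (ex (mem 0 1))
      (ex (and (mem 0 1) (all (imp (mem 0 2) (neg (mem 1 0)))))))))))
def isNext (a w : ℕ) : Fml :=
  and (ord w) (and (ex (mem 0 (w+1))) (and (neg (ex (surj 0 (a+1) (w+1))))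
    (all (imp (mem 0 (w+1)) (imp (ex (mem 0 1)) (ex (surj 0 (a+2) 1)))))))
def cofinal (a α : ℕ) : Fml :=
  ex (and (fn 0 (a+1) (α+1)) (all (imp (mem 0 (α+2)) (ex (and (mem 0 (a+3))
    (ex (and (mem 0 (α+4)) (and (r 3 1 0) (mem 2 0)))))))))
def club (C δ : ℕ) : Fml :=
  and (sub C δ) (and (all (imp (mem 0 (δ+1)) (ex (and (mem 0 (C+2)) (mem 1 0)))))
    (all (imp (mem 0 (δ+1)) (imp (ex (mem 0 1))
      (imp (all (imp (mem 0 1) (ex (and (mem 0 (C+3)) (and (mem 0 2) (mem 1 0)))))) (mem 0 (C+1)))))))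
def stat (S δ : ℕ) : Fml := all (imp (club 0 (δ+1)) (ex (and (mem 0 1) (mem 0 (S+2)))))
def sr (w0 w1 w2 : ℕ) : Fml :=
  all (imp (sub 0 (w2+1)) (imp (all (imp (mem 0 1) (cofinal (w0+2) 0))) (imp (stat 0 (w2+1))
    (ex (and (mem 0 (w2+2)) (and (and (cofinal (w1+2) 0) (neg (cofinal (w0+2) 0))) (stat 1 0)))))))
def tree (T t l w : ℕ) : Fml :=
  and (fn l T w) (and (relOn t T T) (and
    (all (all (all (imp (r (t+3) 2 1) (imp (r (t+3) 1 0) (r (t+3) 2 0)))))) (and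
    (all (all (imp (r (t+2) 1 0) (all (all (imp (r (l+4) 3 1) (imp (r (l+4) 2 0) (mem 1 0)))))))) (and
    (all (all (imp (r (l+2) 1 0) (all (imp (mem 0 1) (ex (and (r (t+4) 0 3) (and (r (l+4) 0 1)
      (all (imp (r (t+5) 0 4) (imp (r (l+5) 0 2) (eq 0 1)))))))))))) 
    (all (imp (mem 0 (w+1)) (ex (r (l+2) 0 1))))))))
def branch (T t l w b : ℕ) : Fml :=
  and (sub b T) (and
    (all (all (imp (mem 1 (b+2)) (imp (mem 0 (b+2)) (or (eq 1 0) (or (r (t+2) 1 0) (r (t+2) 0 1)))))))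
    (all (imp (mem 0 (w+1)) (ex (and (mem 0 (b+2)) (r (l+2) 0 1))))))
def tp (w1 w2 : ℕ) : Fml :=
  all (all (all (imp (tree 2 1 0 (w2+3)) (imp
    (all (imp (mem 0 (w2+4)) (ex (and (fn 0 (w1+5) 4)
      (all (imp (r 3 0 2) (ex (and (mem 0 (w1+7)) (r 2 0 1)))))))))
    (ex (branch 3 2 1 (w2+4) 0))))))
def nwkh (w1 w2 : ℕ) : Fml :=
  all (all (all (imp (tree 2 1 0 (w1+3)) (imp (ex (surj 0 (w1+4) 3))
    (all (imp (all (imp (mem 0 (w2+5)) (ex (and (r 2 1 0) (branch 5 4 3 (w1+6) 0)))))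
      (imp (all (all (all (imp (r 3 2 1) (imp (r 3 2 0) (eq 1 0))))))
        (ex (ex (and (mem 1 (w2+6)) (and (mem 0 (w2+6)) (and (neg (eq 1 0))
          (ex (and (r 3 2 0) (r 3 1 0))))))))))))))) 
def ctbl (w0 x : ℕ) : Fml :=
  ex (and (all (all (all (imp (r 3 2 1) (imp (r 3 2 0) (eq 1 0))))))
    (all (imp (mem 0 (x+2)) (ex (and (mem 0 (w0+3)) (r 2 0 1))))))
def clubP (w0 C α : ℕ) : Fml :=
  and (all (imp (mem 0 (C+1)) (and (sub 0 (α+1)) (ctbl (w0+1) 0)))) (and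
    (all (imp (sub 0 (α+1)) (imp (ctbl (w0+1) 0) (ex (and (mem 0 (C+2)) (sub 1 0))))))
    (all (imp (all (imp (mem 0 (w0+2)) (ex (and (mem 0 (C+3)) (r 2 1 0)))))
      (imp (all (all (all (imp (r 3 2 1) (imp (r 3 2 0) (eq 1 0))))))
        (imp (all (imp (mem 0 (w0+2)) (all (imp (mem 0 1) (all (all
            (imp (r 4 2 1) (imp (r 4 3 0) (sub 1 0)))))))))
          (all (imp (all (iff (mem 0 1) (ex (and (mem 0 (w0+4)) (ex (and (r 4 1 0) (mem 2 0)))))))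
            (mem 0 (C+2)))))))))
def dss (w0 w1 w2 : ℕ) : Fml :=
  ex (ex (and (sub 1 (w2+2)) (and (stat 1 (w2+2)) (and
    (all (imp (mem 0 2) (and (cofinal (w1+3) 0) (neg (cofinal (w0+3) 0))))) (and
    (all (imp (mem 0 2) (all (imp (r 2 1 0) (and (sub 0 1) (ctbl (w0+4) 0)))))) (and
    (all (imp (mem 0 2) (all (imp (clubP (w0+4) 0 1) (ex (and (r 3 2 0) (mem 0 1)))))))
    (all (all (all (imp (mem 2 4) (imp (mem 1 4) (imp (r 3 2 0) (imp (r 3 1 0) (eq 2 1))))))))))))))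
def infS (w0 T α : ℕ) : Fml :=
  all (imp (mem 0 (w0+1)) (ex (and (mem 0 (w0+2)) (and (r (T+2) (α+2) 0) (mem 1 0)))))
def almS (w0 T β α : ℕ) : Fml :=
  ex (and (mem 0 (w0+1)) (all (imp (mem 0 (w0+2)) (imp (mem 1 0)
    (imp (r (T+2) (β+2) 0) (r (T+2) (α+2) 0))))))
def tower (w0 T a : ℕ) : Fml :=
  and (all (imp (mem 0 (a+1)) (infS (w0+1) (T+1) 0)))
    (all (imp (mem 0 (a+1)) (all (imp (mem 0 1) (almS (w0+2) (T+2) 1 0)))))
def psI (w0 T a r' : ℕ) : Fml :=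
  and (sub r' w0) (and (all (imp (mem 0 (w0+1)) (ex (and (mem 0 (r'+2)) (mem 1 0)))))
    (all (imp (mem 0 (a+1)) (ex (and (mem 0 (w0+2)) (all (imp (mem 0 (r'+3)) (imp (mem 1 0)
      (r (T+3) 2 0)))))))))
def teq (w0 w : ℕ) : Fml :=
  and (all (imp (mem 0 (w+1)) (all (imp (tower (w0+2) 0 1) (ex (psI (w0+3) 1 2 0))))))
    (ex (and (tower (w0+1) 0 (w+1)) (neg (ex (psI (w0+2) 1 (w+2) 0)))))
def uBase (w0 T a : ℕ) : Fml :=
  and (all (imp (mem 0 (a+1)) (infS (w0+1) (T+1) 0))) (and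
    (all (all (imp (mem 1 (a+2)) (imp (mem 0 (a+2)) (ex (and (mem 0 (a+3))
      (all (imp (mem 0 (w0+4)) (imp (r (T+4) 1 0) (and (r (T+4) 3 0) (r (T+4) 2 0)))))))))))
    (all (imp (sub 0 (w0+1)) (or
      (ex (and (mem 0 (a+2)) (all (imp (mem 0 (w0+3)) (imp (r (T+3) 1 0) (mem 0 2))))))
      (ex (and (mem 0 (a+2)) (all (imp (mem 0 (w0+3)) (imp (r (T+3) 1 0) (neg (mem 0 2)))))))))))
def ueq (w0 w : ℕ) : Fml :=
  and (all (imp (mem 0 (w+1)) (neg (ex (uBase (w0+2) 0 1))))) (ex (uBase (w0+1) 0 (w+1)))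
def cgt (w0 w : ℕ) : Fml :=
  all (ex (and (sub 0 (w0+2)) (all (imp (mem 0 (w+3)) (ex (and (mem 0 (w0+4))
    (neg (iff (r 3 1 0) (mem 0 2)))))))))

end F

section SatF

variable {M : Type 1} (E : M → M → Prop) (v : ℕ → M)

open MZ (Sat)

@[simp] theorem Sat_sub (i j : ℕ) : Sat E (F.sub i j) v ↔ MZ.Sub E (v i) (v j) := by
  simp [F.sub, MZ.Sub]
@[simp] theorem Sat_pr (a b p : ℕ) : Sat E (F.pr a b p) v ↔ MZ.Pr E (v a) (v b) (v p) := by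
  simp [F.pr, MZ.Pr]
@[simp] theorem Sat_op (a b p : ℕ) : Sat E (F.op a b p) v ↔ MZ.OP E (v a) (v b) (v p) := by
  simp [F.op, MZ.OP]
@[simp] theorem Sat_r (r a b : ℕ) : Sat E (F.r r a b) v ↔ MZ.R E (v r) (v a) (v b) := by
  simp [F.r, MZ.R]
@[simp] theorem Sat_relOn (f a b : ℕ) : Sat E (F.relOn f a b) v ↔ MZ.RelOn E (v f) (v a) (v b) := by
  simp [F.relOn, MZ.RelOn]
@[simp] theorem Sat_fn (f a b : ℕ) : Sat E (F.fn f a b) v ↔ MZ.Fun E (v f) (v a) (v b) := by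
  simp [F.fn, MZ.Fun]
@[simp] theorem Sat_surj (f a b : ℕ) : Sat E (F.surj f a b) v ↔ MZ.Surj E (v f) (v a) (v b) := by
  simp [F.surj, MZ.Surj]
@[simp] theorem Sat_ord (x : ℕ) : Sat E (F.ord x) v ↔ MZ.Ord E (v x) := by
  simp [F.ord, MZ.Ord]
@[simp] theorem Sat_isOmega (w : ℕ) : Sat E (F.isOmega w) v ↔ MZ.IsOmega E (v w) := by
  simp [F.isOmega, MZ.IsOmega]
@[simp] theorem Sat_isNext (a w : ℕ) : Sat E (F.isNext a w) v ↔ MZ.IsNext E (v a) (v w) := by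
  simp [F.isNext, MZ.IsNext]
@[simp] theorem Sat_cofinal (a α : ℕ) : Sat E (F.cofinal a α) v ↔ MZ.Cofinal E (v a) (v α) := by
  simp [F.cofinal, MZ.Cofinal]
@[simp] theorem Sat_club (C δ : ℕ) : Sat E (F.club C δ) v ↔ MZ.Club E (v C) (v δ) := by
  simp [F.club, MZ.Club]
@[simp] theorem Sat_stat (S δ : ℕ) : Sat E (F.stat S δ) v ↔ MZ.Stat E (v S) (v δ) := by
  simp [F.stat, MZ.Stat]
@[simp] theorem Sat_sr (w0 w1 w2 : ℕ) :
    Sat E (F.sr w0 w1 w2) v ↔ MZ.SR E (v w0) (v w1) (v w2) := by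
  simp [F.sr, MZ.SR]
@[simp] theorem Sat_tree (T t l w : ℕ) :
    Sat E (F.tree T t l w) v ↔ MZ.Tree E (v T) (v t) (v l) (v w) := by
  simp [F.tree, MZ.Tree]
@[simp] theorem Sat_branch (T t l w b : ℕ) :
    Sat E (F.branch T t l w b) v ↔ MZ.Branch E (v T) (v t) (v l) (v w) (v b) := by
  simp [F.branch, MZ.Branch]
@[simp] theorem Sat_tp (w1 w2 : ℕ) : Sat E (F.tp w1 w2) v ↔ MZ.TP E (v w1) (v w2) := by
  simp [F.tp, MZ.TP]
@[simp] theorem Sat_nwkh (w1 w2 : ℕ) : Sat E (F.nwkh w1 w2) v ↔ MZ.NwKH E (v w1) (v w2) := by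
  simp [F.nwkh, MZ.NwKH]
@[simp] theorem Sat_ctbl (w0 x : ℕ) : Sat E (F.ctbl w0 x) v ↔ MZ.Ctbl E (v w0) (v x) := by
  simp [F.ctbl, MZ.Ctbl]
@[simp] theorem Sat_clubP (w0 C α : ℕ) :
    Sat E (F.clubP w0 C α) v ↔ MZ.ClubP E (v w0) (v C) (v α) := by
  simp [F.clubP, MZ.ClubP]
@[simp] theorem Sat_dss (w0 w1 w2 : ℕ) :
    Sat E (F.dss w0 w1 w2) v ↔ MZ.DSS E (v w0) (v w1) (v w2) := by
  simp [F.dss, MZ.DSS]
@[simp] theorem Sat_infS (w0 T α : ℕ) :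
    Sat E (F.infS w0 T α) v ↔ MZ.InfS E (v w0) (v T) (v α) := by
  simp [F.infS, MZ.InfS]
@[simp] theorem Sat_almS (w0 T β α : ℕ) :
    Sat E (F.almS w0 T β α) v ↔ MZ.AlmS E (v w0) (v T) (v β) (v α) := by
  simp [F.almS, MZ.AlmS]
@[simp] theorem Sat_tower (w0 T a : ℕ) :
    Sat E (F.tower w0 T a) v ↔ MZ.Tower E (v w0) (v T) (v a) := by
  simp [F.tower, MZ.Tower]
@[simp] theorem Sat_psI (w0 T a r : ℕ) :
    Sat E (F.psI w0 T a r) v ↔ MZ.PsI E (v w0) (v T) (v a) (v r) := by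
  simp [F.psI, MZ.PsI]
@[simp] theorem Sat_teq (w0 w : ℕ) : Sat E (F.teq w0 w) v ↔ MZ.TEq E (v w0) (v w) := by
  simp [F.teq, MZ.TEq]
@[simp] theorem Sat_uBase (w0 T a : ℕ) :
    Sat E (F.uBase w0 T a) v ↔ MZ.UBase E (v w0) (v T) (v a) := by
  simp [F.uBase, MZ.UBase]
@[simp] theorem Sat_ueq (w0 w : ℕ) : Sat E (F.ueq w0 w) v ↔ MZ.UEq E (v w0) (v w) := by
  simp [F.ueq, MZ.UEq]
@[simp] theorem Sat_cgt (w0 w : ℕ) : Sat E (F.cgt w0 w) v ↔ MZ.CGt E (v w0) (v w) := by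
  simp [F.cgt, MZ.CGt]

end SatF

end Pool.Agent.Work.MP_dbe197_lc
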