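import Pool.Agent.Work.MP_dbe197_lc.Defs

/-!
# Finite functions
-/

namespace Pool.Agent.Work.MP_dbe197_lc

open Set

/-- Finite functions from `I` to `V`. -/
structure Fn (I V : Type) where
  f : I → Option V
  fin : {i | f i ≠ none}.Finite

namespace Fn

variable {I V : Type}

@[ext] theorem ext' {p q : Fn I V} (h : ∀ i, p.f i = q.f i) : p = q := by
  cases p; cases q; congr; exact funext h

/-- The domain. -/
def dom (p : Fn I V) : Set I := {i | p.f i ≠ none}

theorem dom_fin (p : Fn I V) : p.dom.Finite := p.fin

theorem mem_dom {p : Fn I V} {i : I} : i ∈ p.dom ↔ ∃ v, p.f i = some v := by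
  simp [dom, Option.ne_none_iff_exists']

theorem not_mem_dom {p : Fn I V} {i : I} : i ∉ p.dom ↔ p.f i = none := by
  simp [dom]

/-- Stronger conditions are smaller: `p ≤ q` iff `p` extends `q`. -/
instance : PartialOrder (Fn I V) where
  le p q := ∀ i v, q.f i = some v → p.f i = some v
  le_refl p i v h := h
  le_trans p q r h1 h2 i v h := h1 i v (h2 i v h)
  le_antisymm p q h1 h2 := by
    ext1 i
    rcases hp : p.f i with _ | v
    · rcases hq : q.f i with _ | w
      · rfl
      · have := h1 i w hq
        rw [hp] at this; exact absurd this (by simp)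
    · rw [h2 i v hp]

theorem le_def {p q : Fn I V} : p ≤ q ↔ ∀ i v, q.f i = some v → p.f i = some v := Iff.rfl

theorem dom_mono {p q : Fn I V} (h : p ≤ q) : q.dom ⊆ p.dom := by
  intro i hi
  obtain ⟨v, hv⟩ := mem_dom.1 hi
  exact mem_dom.2 ⟨v, h i v hv⟩

/-- The empty function. -/
def empty : Fn I V := ⟨fun _ => none, by simp⟩

@[simp] theorem empty_f (i : I) : (empty : Fn I V).f i = none := rfl

theorem le_empty (p : Fn I V) : p ≤ empty := by
  intro i v h; simp at h

/-- Compatibility: the functions agree on the common domain. -/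
def Compat (p q : Fn I V) : Prop := ∀ i v w, p.f i = some v → q.f i = some w → v = w

theorem Compat.symm {p q : Fn I V} (h : Compat p q) : Compat q p :=
  fun i v w hv hw => (h i w v hw hv).symm

theorem compat_of_le {p q r : Fn I V} (h1 : r ≤ p) (h2 : r ≤ q) : Compat p q := by
  intro i v w hv hw
  have a := h1 i v hv
  have b := h2 i w hw
  rw [a] at b; exact Option.some.inj b

/-- The union, the first function having priority. -/
def union (p q : Fn I V) : Fn I V :=
  ⟨fun i => (p.f i).orElse (fun _ => q.f i), by
    apply (p.fin.union q.fin).subset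
    intro i hi
    rcases hp : p.f i with _ | v
    · right; simpa [hp] using hi
    · left; simp [hp]⟩

theorem union_f (p q : Fn I V) (i : I) :
    (p.union q).f i = (p.f i).orElse (fun _ => q.f i) := rfl

theorem union_f_of_some {p q : Fn I V} {i : I} {v : V} (h : p.f i = some v) :
    (p.union q).f i = some v := by rw [union_f, h]; rfl

theorem union_f_of_none {p q : Fn I V} {i : I} (h : p.f i = none) :
    (p.union q).f i = q.f i := by rw [union_f, h]; rfl

theorem union_le_left (p q : Fn I V) : p.union q ≤ p := fun _ _ h => union_f_of_some h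

theorem union_le_right {p q : Fn I V} (h : Compat p q) : p.union q ≤ q := by
  intro i v hv
  rcases hp : p.f i with _ | w
  · rw [union_f_of_none hp, hv]
  · rw [union_f_of_some hp, h i w v hp hv]

theorem le_union {p q r : Fn I V} (h1 : r ≤ p) (h2 : r ≤ q) : r ≤ p.union q := by
  intro i v hv
  rcases hp : p.f i with _ | w
  · rw [union_f_of_none hp] at hv; exact h2 i v hv
  · rw [union_f_of_some hp] at hv; rw [← hv]; exact h1 i w hp

theorem union_dom (p q : Fn I V) : (p.union q).dom = p.dom ∪ q.dom := by
  ext i
  rcases hp : p.f i with _ | v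
  · simp [dom, union_f_of_none hp, hp]
  · simp [dom, union_f_of_some hp, hp]

open Classical in
/-- The restriction to the set `S`. -/
noncomputable def restr (S : Set I) (p : Fn I V) : Fn I V :=
  ⟨fun i => if i ∈ S then p.f i else none, by
    apply p.fin.subset
    intro i hi
    by_cases h : i ∈ S <;> simp_all⟩

open Classical in
theorem restr_f (S : Set I) (p : Fn I V) (i : I) :
    (restr S p).f i = if i ∈ S then p.f i else none := rfl

theorem restr_f_of_mem {S : Set I} {p : Fn I V} {i : I} (h : i ∈ S) :
    (restr S p).f i = p.f i := by rw [restr_f, if_pos h]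

theorem restr_f_of_not_mem {S : Set I} {p : Fn I V} {i : I} (h : i ∉ S) :
    (restr S p).f i = none := by rw [restr_f, if_neg h]

theorem restr_f_eq_some {S : Set I} {p : Fn I V} {i : I} {v : V} :
    (restr S p).f i = some v ↔ i ∈ S ∧ p.f i = some v := by
  by_cases h : i ∈ S
  · simp [restr_f_of_mem h, h]
  · simp [restr_f_of_not_mem h, h]

theorem le_restr (S : Set I) (p : Fn I V) : p ≤ restr S p := by
  intro i v h
  exact (restr_f_eq_some.1 h).2

theorem restr_mono {S : Set I} {p q : Fn I V} (h : p ≤ q) : restr S p ≤ restr S q := by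
  intro i v hv
  rw [restr_f_eq_some] at hv ⊢
  exact ⟨hv.1, h i v hv.2⟩

theorem restr_restr (S T : Set I) (p : Fn I V) : restr S (restr T p) = restr (S ∩ T) p := by
  ext1 i
  by_cases h1 : i ∈ S <;> by_cases h2 : i ∈ T <;> simp [restr_f, h1, h2]

theorem restr_univ (p : Fn I V) : restr univ p = p := by
  ext1 i; simp [restr_f]

theorem restr_dom (S : Set I) (p : Fn I V) : (restr S p).dom = S ∩ p.dom := by
  ext i
  by_cases h : i ∈ S <;> simp [dom, restr_f, h]

theorem restr_eq_self {S : Set I} {p : Fn I V} (h : p.dom ⊆ S) : restr S p = p := by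
  ext1 i
  by_cases hi : i ∈ S
  · rw [restr_f_of_mem hi]
  · rw [restr_f_of_not_mem hi]
    exact (not_mem_dom.1 (fun h' => hi (h h'))).symm

open Classical in
/-- The function with a single value. -/
noncomputable def single (i : I) (v : V) : Fn I V :=
  ⟨fun j => if j = i then some v else none, by
    apply (Set.finite_singleton i).subset
    intro j hj
    by_contra h
    have h' : j ≠ i := h
    simp [h'] at hj⟩

theorem single_f_self (i : I) (v : V) : (single i v).f i = some v := by simp [single]

theorem single_f_ne {i j : I} (h : j ≠ i) (v : V) : (single i v).f j = none := by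
  simp [single, h]

theorem single_f_eq_some {i j : I} {v w : V} :
    (single i v).f j = some w ↔ j = i ∧ v = w := by
  by_cases h : j = i <;> simp [single, h]

end Fn

end Pool.Agent.Work.MP_dbe197_lc
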