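import Mathlib

/-!
# The large cardinal hypothesis
-/

namespace Pool.Agent.Work.MP_dbe197_lc

open Set Cardinal

/-- The well-ordered set of order type `κ` (an initial ordinal). -/
abbrev OO (κ : Cardinal.{0}) : Type := κ.ord.ToType

/-- The initial segment `S` is a strongly inaccessible cardinal. -/
def Inacc {L : Type} [LinearOrder L] (S : Set L) : Prop :=
  (#S).IsInaccessible ∧ ∀ β ∈ S, #(Iio β) < #S

/-- `U` is a normal ultrafilter on the (initial segment) `S`: a nonprincipal ultrafilter
containing all final segments, closed under intersections of fewer than `#S` sets, and every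
regressive function is constant on a set of `U`. -/
structure NM {L : Type} [LinearOrder L] (S : Set L) (U : Set (Set L)) : Prop where
  mem : S ∈ U
  up : ∀ A B, A ∈ U → A ⊆ B → B ∈ U
  empty : ∅ ∉ U
  ultra : ∀ A, A ∈ U ∨ Aᶜ ∈ U
  unb : ∀ β ∈ S, {α | β < α} ∈ U
  inter : ∀ (ι : Type) (A : ι → Set L), #ι < #S → (∀ i, A i ∈ U) → (⋂ i, A i) ∈ U
  normal : ∀ f : L → L, {α | f α < α} ∈ U → ∃ β, {α | f α = β} ∈ U

/-- `κ` is an inaccessible cardinal which carries a normal ultrafilter concentrating on
measurable cardinals (`κ` is measurable of Mitchell order at least `2`). -/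
def LC (κ : Cardinal.{0}) : Prop :=
  Inacc (Set.univ : Set (OO κ)) ∧ ∃ U : Set (Set (OO κ)), NM Set.univ U ∧
    {δ : OO κ | Inacc (Iio δ) ∧ ∃ W, NM (Iio δ) W} ∈ U

end Pool.Agent.Work.MP_dbe197_lc
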