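import Pool.Agent.Work.MP_dbe197_lc.RO

/-!
# The Mitchell poset

`L` is a linear order (below: the measurable cardinal). A condition is a pair of a finite
function `p` from `L × ω` to `Bool` (Cohen conditions) and a term condition `q : TT L`, a countable
function giving for coordinates `(α, ξ)`, `α : L`, `ξ : ω₁`, a function from the points
`c : L → ω → Bool` to the elements `≤ α` of `L`, depending only on the coordinates `≤ α` of `c`.
-/

namespace Pool.Agent.Work.MP_dbe197_lc

open Set

set_option linter.unusedSectionVars false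

/-- Points of the Cohen space. -/
abbrev Pt (L : Type) : Type := L → ℕ → Bool

/-- Term conditions. -/
structure TT (L : Type) [LinearOrder L] where
  val : L → O1 → Option (Pt L → L)
  ctbl : {x : L × O1 | val x.1 x.2 ≠ none}.Countable
  le' : ∀ α ξ v, val α ξ = some v → ∀ c, v c ≤ α
  dep : ∀ α ξ v, val α ξ = some v → ∀ c c' : Pt L, (∀ β ≤ α, c β = c' β) → v c = v c'

namespace TT

variable {L : Type} [LinearOrder L]

@[ext] theorem ext' {p q : TT L} (h : ∀ α ξ, p.val α ξ = q.val α ξ) : p = q := by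
  cases p; cases q; congr; ext1 α; exact funext (h α)

/-- The domain. -/
def dom (q : TT L) : Set (L × O1) := {x | q.val x.1 x.2 ≠ none}

/-- The support. -/
def supp (q : TT L) : Set L := {α | ∃ ξ, q.val α ξ ≠ none}

theorem mem_dom {q : TT L} {x : L × O1} : x ∈ q.dom ↔ ∃ v, q.val x.1 x.2 = some v := by
  simp [dom, Option.ne_none_iff_exists']

theorem dom_countable (q : TT L) : q.dom.Countable := q.ctbl

theorem supp_countable (q : TT L) : q.supp.Countable := by
  have : q.supp = Prod.fst '' q.dom := by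
    ext α
    simp [supp, dom]
  rw [this]
  exact q.ctbl.image _

/-- Stronger conditions are smaller: `q' ≤ q` iff `q'` extends `q`. -/
instance : PartialOrder (TT L) where
  le p q := ∀ α ξ v, q.val α ξ = some v → p.val α ξ = some v
  le_refl p α ξ v h := h
  le_trans p q r h1 h2 α ξ v h := h1 α ξ v (h2 α ξ v h)
  le_antisymm p q h1 h2 := by
    ext1 α ξ
    rcases hp : p.val α ξ with _ | v
    · rcases hq : q.val α ξ with _ | w
      · rfl
      · have := h1 α ξ w hq
        rw [hp] at this; exact absurd this (by simp)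
    · rw [h2 α ξ v hp]

theorem le_def {p q : TT L} :
    p ≤ q ↔ ∀ α ξ v, q.val α ξ = some v → p.val α ξ = some v := Iff.rfl

theorem supp_mono {p q : TT L} (h : p ≤ q) : q.supp ⊆ p.supp := by
  rintro α ⟨ξ, hξ⟩
  obtain ⟨v, hv⟩ := Option.ne_none_iff_exists'.1 hξ
  exact ⟨ξ, by rw [h α ξ v hv]; simp⟩

/-- The empty term condition. -/
def empty : TT L := ⟨fun _ _ => none, by simp, by simp, by simp⟩

@[simp] theorem empty_val (α : L) (ξ : O1) : (empty : TT L).val α ξ = none := rfl

theorem le_empty (p : TT L) : p ≤ empty := by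
  intro α ξ v h; simp at h

/-- Two term conditions agree on the common domain. -/
def Compat (p q : TT L) : Prop := ∀ α ξ v w, p.val α ξ = some v → q.val α ξ = some w → v = w

theorem Compat.symm {p q : TT L} (h : Compat p q) : Compat q p :=
  fun α ξ v w hv hw => (h α ξ w v hw hv).symm

theorem compat_of_le {p q r : TT L} (h1 : r ≤ p) (h2 : r ≤ q) : Compat p q := by
  intro α ξ v w hv hw
  have a := h1 α ξ v hv
  have b := h2 α ξ w hw
  rw [a] at b; exact Option.some.inj b

/-- The union, the first condition having priority. -/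
def ov (p q : TT L) : TT L where
  val α ξ := (p.val α ξ).orElse (fun _ => q.val α ξ)
  ctbl := by
    apply (p.ctbl.union q.ctbl).mono
    intro x hx
    rcases hp : p.val x.1 x.2 with _ | v
    · right; simpa [hp] using hx
    · left; simp [hp]
  le' α ξ v h c := by
    rcases hp : p.val α ξ with _ | w
    · simp only [hp, Option.orElse_none] at h; exact q.le' α ξ v h c
    · simp only [hp, Option.orElse_some, Option.some.injEq] at h; subst h; exact p.le' α ξ w hp c
  dep α ξ v h c := by
    rcases hp : p.val α ξ with _ | w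
    · simp only [hp, Option.orElse_none] at h; exact q.dep α ξ v h c
    · simp only [hp, Option.orElse_some, Option.some.injEq] at h; subst h; exact p.dep α ξ w hp c

theorem ov_of_some {p q : TT L} {α : L} {ξ : O1} {v} (h : p.val α ξ = some v) :
    (p.ov q).val α ξ = some v := by simp [ov, h]

theorem ov_of_none {p q : TT L} {α : L} {ξ : O1} (h : p.val α ξ = none) :
    (p.ov q).val α ξ = q.val α ξ := by simp [ov, h]

theorem ov_le_left (p q : TT L) : p.ov q ≤ p := fun _ _ _ h => ov_of_some h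

theorem ov_le_right {p q : TT L} (h : Compat p q) : p.ov q ≤ q := by
  intro α ξ v hv
  rcases hp : p.val α ξ with _ | w
  · rw [ov_of_none hp, hv]
  · rw [ov_of_some hp, h α ξ w v hp hv]

theorem le_ov {p q r : TT L} (h1 : r ≤ p) (h2 : r ≤ q) : r ≤ p.ov q := by
  intro α ξ v hv
  rcases hp : p.val α ξ with _ | w
  · rw [ov_of_none hp] at hv; exact h2 α ξ v hv
  · rw [ov_of_some hp] at hv; rw [← hv]; exact h1 α ξ w hp

theorem ov_supp (p q : TT L) : (p.ov q).supp = p.supp ∪ q.supp := by
  ext α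
  simp only [supp, mem_ofPred_eq, mem_union]
  constructor
  · rintro ⟨ξ, h⟩
    rcases hp : p.val α ξ with _ | v
    · right; rw [ov_of_none hp] at h; exact ⟨ξ, h⟩
    · left; exact ⟨ξ, by simp [hp]⟩
  · rintro (⟨ξ, h⟩ | ⟨ξ, h⟩)
    · obtain ⟨v, hv⟩ := Option.ne_none_iff_exists'.1 h
      exact ⟨ξ, by simp [ov_of_some hv]⟩
    · refine ⟨ξ, ?_⟩
      rcases hp : p.val α ξ with _ | v
      · rw [ov_of_none hp]; exact h
      · rw [ov_of_some hp]; simp

open Classical in
/-- The restriction to the coordinates in `S`. -/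
noncomputable def restr (S : Set L) (q : TT L) : TT L where
  val α ξ := if α ∈ S then q.val α ξ else none
  ctbl := by
    apply q.ctbl.mono
    intro x hx
    by_cases h : x.1 ∈ S <;> simp_all
  le' α ξ v h c := by
    by_cases hα : α ∈ S
    · simp only [hα, if_true] at h; exact q.le' α ξ v h c
    · simp [hα] at h
  dep α ξ v h c := by
    by_cases hα : α ∈ S
    · simp only [hα, if_true] at h; exact q.dep α ξ v h c
    · simp [hα] at h

theorem restr_of_mem {S : Set L} {q : TT L} {α : L} (h : α ∈ S) (ξ : O1) :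
    (restr S q).val α ξ = q.val α ξ := by simp [restr, h]

theorem restr_of_not_mem {S : Set L} {q : TT L} {α : L} (h : α ∉ S) (ξ : O1) :
    (restr S q).val α ξ = none := by simp [restr, h]

theorem restr_eq_some {S : Set L} {q : TT L} {α : L} {ξ : O1} {v} :
    (restr S q).val α ξ = some v ↔ α ∈ S ∧ q.val α ξ = some v := by
  by_cases h : α ∈ S
  · simp [restr_of_mem h, h]
  · simp [restr_of_not_mem h, h]

theorem le_restr (S : Set L) (q : TT L) : q ≤ restr S q :=
  fun _ _ _ h => (restr_eq_some.1 h).2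

theorem restr_mono {S : Set L} {p q : TT L} (h : p ≤ q) : restr S p ≤ restr S q := by
  intro α ξ v hv
  rw [restr_eq_some] at hv ⊢
  exact ⟨hv.1, h α ξ v hv.2⟩

theorem restr_restr (S T : Set L) (q : TT L) : restr S (restr T q) = restr (S ∩ T) q := by
  ext1 α ξ
  by_cases h1 : α ∈ S <;> by_cases h2 : α ∈ T <;> simp [restr, h1, h2]

theorem restr_univ (q : TT L) : restr univ q = q := by
  ext1 α ξ; simp [restr]

theorem restr_supp (S : Set L) (q : TT L) : (restr S q).supp = S ∩ q.supp := by
  ext α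
  by_cases h : α ∈ S <;> simp [supp, restr, h]

theorem restr_eq_self {S : Set L} {q : TT L} (h : q.supp ⊆ S) : restr S q = q := by
  ext1 α ξ
  by_cases hi : α ∈ S
  · rw [restr_of_mem hi]
  · rw [restr_of_not_mem hi]
    by_contra hne
    exact hi (h ⟨ξ, fun h0 => hne h0.symm⟩)

open Classical in
/-- The union of a countable family of pairwise compatible conditions. -/
theorem exists_glb {ι : Type} [Countable ι] (f : ι → TT L) (h : ∀ i j, Compat (f i) (f j)) :
    ∃ q : TT L, (∀ i, q ≤ f i) ∧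
      ∀ α ξ v, q.val α ξ = some v → ∃ i, (f i).val α ξ = some v := by
  let g : L → O1 → Option (Pt L → L) := fun α ξ =>
    if hx : ∃ i v, (f i).val α ξ = some v then some (hx.choose_spec.choose) else none
  have key : ∀ α ξ i v, (f i).val α ξ = some v → g α ξ = some v := by
    intro α ξ i v hv
    have hx : ∃ i v, (f i).val α ξ = some v := ⟨i, v, hv⟩
    simp only [g, dif_pos hx]
    congr 1
    exact h _ _ α ξ _ _ hx.choose_spec.choose_spec hv
  have key2 : ∀ α ξ v, g α ξ = some v → ∃ i, (f i).val α ξ = some v := by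
    intro α ξ v hv
    by_cases hx : ∃ i v, (f i).val α ξ = some v
    · simp only [g, dif_pos hx, Option.some.injEq] at hv
      exact ⟨hx.choose, hv ▸ hx.choose_spec.choose_spec⟩
    · simp [g, dif_neg hx] at hv
  refine ⟨⟨g, ?_, ?_, ?_⟩, fun i α ξ v hv => key α ξ i v hv, key2⟩
  · apply (Set.countable_iUnion fun i => (f i).ctbl).mono
    intro x hx
    obtain ⟨v, hv⟩ := Option.ne_none_iff_exists'.1 hx
    obtain ⟨i, hi⟩ := key2 _ _ _ hv
    exact mem_iUnion.2 ⟨i, by simp [hi]⟩
  · intro α ξ v hv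
    obtain ⟨i, hi⟩ := key2 _ _ _ hv
    exact (f i).le' α ξ v hi
  · intro α ξ v hv
    obtain ⟨i, hi⟩ := key2 _ _ _ hv
    exact (f i).dep α ξ v hi

/-- Decreasing sequences of term conditions have a lower bound (the union). -/
theorem exists_lim (f : ℕ → TT L) (h : ∀ n, f (n + 1) ≤ f n) :
    ∃ q : TT L, (∀ n, q ≤ f n) ∧
      ∀ α ξ v, q.val α ξ = some v → ∃ n, (f n).val α ξ = some v := by
  have hanti : Antitone f := antitone_nat_of_succ_le h
  refine exists_glb f fun i j => ?_
  rcases le_total i j with hij | hij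
  · exact compat_of_le (hanti hij) le_rfl
  · exact compat_of_le le_rfl (hanti hij)

end TT

/-- The conditions of the Mitchell poset. -/
structure MM (L : Type) [LinearOrder L] where
  p : Fn (L × ℕ) Bool
  q : TT L

namespace MM

variable {L : Type} [LinearOrder L]

@[ext] theorem ext' {m n : MM L} (h1 : m.p = n.p) (h2 : m.q = n.q) : m = n := by
  cases m; cases n; congr

/-- The basic open set of the Cohen space given by a finite function. -/
def cone (p : Fn (L × ℕ) Bool) : Set (Pt L) := {c | ∀ α n v, p.f (α, n) = some v → c α n = v}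

theorem cone_mono {p p' : Fn (L × ℕ) Bool} (h : p' ≤ p) : cone p' ⊆ cone p :=
  fun _ hc α n v hv => hc α n v (h (α, n) v hv)

open Classical in
theorem cone_nonempty (p : Fn (L × ℕ) Bool) : (cone p).Nonempty :=
  ⟨fun α n => (p.f (α, n)).getD false, fun α n v hv => by simp [hv]⟩

/-- Stronger conditions are smaller. -/
instance : Preorder (MM L) where
  le m' m := m'.p ≤ m.p ∧ ∀ α ξ v, m.q.val α ξ = some v →
    ∃ v', m'.q.val α ξ = some v' ∧ ∀ c ∈ cone m'.p, v' c = v c
  le_refl m := ⟨le_refl _, fun _ _ v hv => ⟨v, hv, fun _ _ => rfl⟩⟩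
  le_trans m1 m2 m3 h12 h23 := by
    refine ⟨h12.1.trans h23.1, fun α ξ v hv => ?_⟩
    obtain ⟨v', hv', h'⟩ := h23.2 α ξ v hv
    obtain ⟨v'', hv'', h''⟩ := h12.2 α ξ v' hv'
    exact ⟨v'', hv'', fun c hc => (h'' c hc).trans (h' c (cone_mono h12.1 hc))⟩

theorem le_def {m' m : MM L} : m' ≤ m ↔ m'.p ≤ m.p ∧ ∀ α ξ v, m.q.val α ξ = some v →
    ∃ v', m'.q.val α ξ = some v' ∧ ∀ c ∈ cone m'.p, v' c = v c := Iff.rfl

theorem mk_le_mk {p p' : Fn (L × ℕ) Bool} {q q' : TT L} (hp : p' ≤ p) (hq : q' ≤ q) :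
    (⟨p', q'⟩ : MM L) ≤ ⟨p, q⟩ :=
  ⟨hp, fun α ξ v hv => ⟨v, hq α ξ v hv, fun _ _ => rfl⟩⟩

/-- Normalization: if `n ≤ m` then the term condition of `n` can be replaced by one that
really extends the one of `m`. -/
theorem norm_le {n m : MM L} (h : n ≤ m) : (⟨n.p, m.q.ov n.q⟩ : MM L) ≤ n := by
  refine ⟨le_refl _, fun α ξ v hv => ?_⟩
  rcases hm : m.q.val α ξ with _ | w
  · exact ⟨v, by rw [TT.ov_of_none hm]; exact hv, fun _ _ => rfl⟩
  · refine ⟨w, TT.ov_of_some hm, fun c hc => ?_⟩
    obtain ⟨v', hv', h'⟩ := h.2 α ξ w hm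
    rw [hv] at hv'
    obtain rfl := Option.some.inj hv'
    exact (h' c hc).symm

theorem le_norm {n m : MM L} (h : n ≤ m) : n ≤ (⟨n.p, m.q.ov n.q⟩ : MM L) := by
  refine ⟨le_refl _, fun α ξ v hv => ?_⟩
  rcases hm : m.q.val α ξ with _ | w
  · rw [TT.ov_of_none hm] at hv
    exact ⟨v, hv, fun _ _ => rfl⟩
  · rw [TT.ov_of_some hm] at hv
    obtain rfl := Option.some.inj hv
    exact h.2 α ξ w hm

/-- The pairs `(α, n)` with `α ∈ S`. -/
def cyl (S : Set L) : Set (L × ℕ) := {x | x.1 ∈ S}

/-- The restriction of a condition to the coordinates in `S`. -/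
noncomputable def res (S : Set L) (m : MM L) : MM L := ⟨m.p.restr (cyl S), m.q.restr S⟩

theorem le_res (S : Set L) (m : MM L) : m ≤ res S m :=
  mk_le_mk (Fn.le_restr _ _) (TT.le_restr _ _)

theorem res_univ (m : MM L) : res univ m = m := by
  apply MM.ext'
  · apply Fn.restr_eq_self; intro x _; trivial
  · exact TT.restr_univ _

theorem res_res (S T : Set L) (m : MM L) : res S (res T m) = res (S ∩ T) m := by
  apply MM.ext'
  · simp only [res, Fn.restr_restr]; rfl
  · simp only [res, TT.restr_restr]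

theorem res_res_of_subset {S T : Set L} (h : S ⊆ T) (m : MM L) : res S (res T m) = res S m := by
  rw [res_res, Set.inter_eq_left.2 h]

theorem res_idem (S : Set L) (m : MM L) : res S (res S m) = res S m :=
  res_res_of_subset (le_refl _) m

open Classical in
/-- A point in the cone of the restriction can be changed outside a lower set to be in the cone. -/
theorem exists_cone {S : Set L} (p : Fn (L × ℕ) Bool) {c : Pt L}
    (hc : c ∈ cone (p.restr (cyl S))) :
    ∃ c' ∈ cone p, ∀ α ∈ S, c' α = c α := by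
  refine ⟨fun α n => if α ∈ S then c α n else (p.f (α, n)).getD false, ?_, ?_⟩
  · intro α n v hv
    by_cases h : α ∈ S
    · simp only [h, if_true]
      apply hc α n v
      rw [Fn.restr_f_of_mem (show (α, n) ∈ cyl S from h)]; exact hv
    · simp [h, hv]
  · intro α hα; ext n; simp [hα]

theorem res_mono {S : Set L} (hS : IsLowerSet S) {m n : MM L} (h : m ≤ n) :
    res S m ≤ res S n := by
  refine ⟨Fn.restr_mono h.1, fun α ξ v hv => ?_⟩
  obtain ⟨hα, hv'⟩ := TT.restr_eq_some.1 hv
  obtain ⟨v', hv1, h1⟩ := h.2 α ξ v hv'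
  refine ⟨v', TT.restr_eq_some.2 ⟨hα, hv1⟩, fun c hc => ?_⟩
  obtain ⟨c', hc', hcc⟩ := exists_cone m.p hc
  have e : ∀ β ≤ α, c' β = c β := fun β hβ => hcc β (hS hβ hα)
  rw [← m.q.dep α ξ v' hv1 c' c e, ← n.q.dep α ξ v hv' c' c e]
  exact h1 c' hc'

/-- The condition which is `h` on `S` and `m` off `S`. -/
noncomputable def glue (S : Set L) (h m : MM L) : MM L :=
  ⟨(h.p.restr (cyl S)).union (m.p.restr (cyl S)ᶜ), (h.q.restr S).ov (m.q.restr Sᶜ)⟩

theorem glue_p_of_mem {S : Set L} {h m : MM L} {x : L × ℕ} (hx : x.1 ∈ S) :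
    (glue S h m).p.f x = h.p.f x := by
  have hx' : x ∈ cyl S := hx
  rcases e : h.p.f x with _ | v
  · have : (h.p.restr (cyl S)).f x = none := by rw [Fn.restr_f_of_mem hx', e]
    simp only [glue]
    rw [Fn.union_f_of_none this, Fn.restr_f_of_not_mem (by simpa using hx')]
  · have : (h.p.restr (cyl S)).f x = some v := by rw [Fn.restr_f_of_mem hx', e]
    simp only [glue]
    rw [Fn.union_f_of_some this]

theorem glue_p_of_not_mem {S : Set L} {h m : MM L} {x : L × ℕ} (hx : x.1 ∉ S) :
    (glue S h m).p.f x = m.p.f x := by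
  have hx' : x ∉ cyl S := hx
  simp only [glue]
  rw [Fn.union_f_of_none (Fn.restr_f_of_not_mem hx'), Fn.restr_f_of_mem (by simpa using hx')]

theorem glue_q_of_mem {S : Set L} {h m : MM L} {α : L} (hx : α ∈ S) (ξ : O1) :
    (glue S h m).q.val α ξ = h.q.val α ξ := by
  rcases e : h.q.val α ξ with _ | v
  · have : (h.q.restr S).val α ξ = none := by rw [TT.restr_of_mem hx, e]
    simp only [glue]
    rw [TT.ov_of_none this, TT.restr_of_not_mem (by simpa using hx)]
  · have : (h.q.restr S).val α ξ = some v := by rw [TT.restr_of_mem hx, e]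
    simp only [glue]
    rw [TT.ov_of_some this]

theorem glue_q_of_not_mem {S : Set L} {h m : MM L} {α : L} (hx : α ∉ S) (ξ : O1) :
    (glue S h m).q.val α ξ = m.q.val α ξ := by
  simp only [glue]
  rw [TT.ov_of_none (TT.restr_of_not_mem hx ξ), TT.restr_of_mem (by simpa using hx)]

theorem res_glue (S : Set L) (h m : MM L) : res S (glue S h m) = res S h := by
  apply MM.ext'
  · ext1 x
    by_cases hx : x ∈ cyl S
    · simp only [res, Fn.restr_f_of_mem hx]; exact glue_p_of_mem hx
    · simp only [res, Fn.restr_f_of_not_mem hx]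
  · ext1 α ξ
    by_cases hx : α ∈ S
    · simp only [res, TT.restr_of_mem hx]; exact glue_q_of_mem hx ξ
    · simp only [res, TT.restr_of_not_mem hx]

/-- Gluing a stronger head. -/
theorem glue_le {S : Set L} (hS : IsLowerSet S) {h m : MM L} (hm : h ≤ res S m) :
    glue S h m ≤ m := by
  refine ⟨fun x v hv => ?_, fun α ξ v hv => ?_⟩
  · by_cases hx : x.1 ∈ S
    · rw [glue_p_of_mem hx]
      exact hm.1 x v (Fn.restr_f_eq_some.2 ⟨hx, hv⟩)
    · rw [glue_p_of_not_mem hx]; exact hv
  · by_cases hx : α ∈ S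
    · obtain ⟨v', hv', h'⟩ := hm.2 α ξ v (TT.restr_eq_some.2 ⟨hx, hv⟩)
      refine ⟨v', by rw [glue_q_of_mem hx]; exact hv', fun c hc => ?_⟩
      have hc' : c ∈ cone ((glue S h m).p.restr (cyl S)) := cone_mono (Fn.le_restr _ _) hc
      have e : (glue S h m).p.restr (cyl S) = h.p.restr (cyl S) :=
        congrArg MM.p (res_glue S h m)
      rw [e] at hc'
      obtain ⟨c1, hc1, hcc⟩ := exists_cone h.p hc'
      have e1 : ∀ β ≤ α, c1 β = c β := fun β hβ => hcc β (hS hβ hx)
      rw [← h.q.dep α ξ v' hv' c1 c e1, ← m.q.dep α ξ v hv c1 c e1]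
      exact h' c1 hc1
    · exact ⟨v, by rw [glue_q_of_not_mem hx]; exact hv, fun _ _ => rfl⟩

theorem glue_le_head (S : Set L) (h m : MM L) : glue S h m ≤ res S h :=
  (le_res S _).trans (le_of_eq (res_glue S h m))

/-- The common extension of two conditions whose components are compatible as
functions. -/
def meet (m n : MM L) : MM L := ⟨m.p.union n.p, m.q.ov n.q⟩

theorem meet_le_left (m n : MM L) : meet m n ≤ m :=
  mk_le_mk (Fn.union_le_left _ _) (TT.ov_le_left _ _)

theorem meet_le_right {m n : MM L} (hp : Fn.Compat m.p n.p) (hq : TT.Compat m.q n.q) :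
    meet m n ≤ n :=
  mk_le_mk (Fn.union_le_right hp) (TT.ov_le_right hq)

/-- The support of a condition. -/
def supp (m : MM L) : Set L := {α | ∃ n, (α, n) ∈ m.p.dom} ∪ m.q.supp

theorem supp_countable (m : MM L) : m.supp.Countable := by
  apply Set.Countable.union
  · have : {α | ∃ n, (α, n) ∈ m.p.dom} = Prod.fst '' m.p.dom := by ext α; simp
    rw [this]
    exact (m.p.dom_fin.image _).countable
  · exact m.q.supp_countable

theorem res_eq_self {S : Set L} {m : MM L} (h : m.supp ⊆ S) : res S m = m := by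
  apply MM.ext'
  · exact Fn.restr_eq_self fun x hx => h (Or.inl ⟨x.2, hx⟩)
  · exact TT.restr_eq_self fun α hα => h (Or.inr hα)

theorem supp_res (S : Set L) (m : MM L) : (res S m).supp = S ∩ m.supp := by
  simp only [supp, res, Fn.restr_dom, TT.restr_supp]
  ext α
  simp [cyl]
  tauto

/-- If `n` is supported in the lower set `S` then `m ≤ n` iff the restriction of `m` is. -/
theorem le_iff_res_le {S : Set L} (hS : IsLowerSet S) {m n : MM L} (hn : n.supp ⊆ S) :
    m ≤ n ↔ res S m ≤ n := by
  constructor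
  · intro h
    have := res_mono hS h
    rwa [res_eq_self hn] at this
  · intro h
    exact (le_res S m).trans h

end MM

open RO MM

variable {L : Type} [LinearOrder L]

/-- The element `a` of the Mitchell algebra depends only on the coordinates in `S`. -/
def DepM (S : Set L) (a : RO (MM L)) : Prop := ∀ m, m ∈ a → res S m ∈ a

namespace DepM

theorem mem_iff {S : Set L} {a : RO (MM L)} (h : DepM S a) (m : MM L) : m ∈ a ↔ res S m ∈ a :=
  ⟨h m, fun h' => mem_down (le_res S m) h'⟩

theorem univ (a : RO (MM L)) : DepM Set.univ a := fun m h => by rwa [res_univ]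

theorem mono {S T : Set L} (hST : S ⊆ T) {a : RO (MM L)} (h : DepM S a) : DepM T a := by
  intro m hm
  have h1 := h m hm
  rw [← res_res_of_subset hST] at h1
  exact mem_down (le_res S _) h1

theorem top (S : Set L) : DepM S (⊤ : RO (MM L)) := fun _ _ => mem_top _

theorem bot (S : Set L) : DepM S (⊥ : RO (MM L)) := fun _ h => absurd h (not_mem_bot _)

theorem inf {S : Set L} {a b : RO (MM L)} (ha : DepM S a) (hb : DepM S b) : DepM S (a ⊓ b) :=
  fun m h => ⟨ha m h.1, hb m h.2⟩

theorem iInf {S : Set L} {ι : Sort*} {a : ι → RO (MM L)} (h : ∀ i, DepM S (a i)) :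
    DepM S (⨅ i, a i) := fun m hm => mem_iInf.2 fun i => h i m (mem_iInf.1 hm i)

theorem iSup {S : Set L} (hS : IsLowerSet S) {ι : Sort*} {a : ι → RO (MM L)}
    (h : ∀ i, DepM S (a i)) : DepM S (⨆ i, a i) := by
  intro m hm
  rw [mem_iSup]
  intro q hq
  have h1 : res S q ≤ res S m := by
    have := res_mono hS hq
    rwa [res_idem] at this
  obtain ⟨r, hr, i, hi⟩ := mem_iSup.1 hm _ (glue_le hS h1)
  have h2 : res S r ≤ res S q := by
    have := res_mono hS (hr.trans (glue_le_head S _ _))
    rwa [res_idem, res_idem] at this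
  refine ⟨glue S (res S r) q, glue_le hS h2, i, ?_⟩
  apply mem_down (glue_le_head S _ _)
  rw [res_idem]
  exact h i r hi

theorem sSup {S : Set L} (hS : IsLowerSet S) {A : Set (RO (MM L))}
    (h : ∀ a ∈ A, DepM S a) : DepM S (sSup A) := by
  rw [sSup_eq_iSup]
  exact iSup hS fun a => iSup hS fun ha => h a ha

theorem sup {S : Set L} (hS : IsLowerSet S) {a b : RO (MM L)} (ha : DepM S a) (hb : DepM S b) :
    DepM S (a ⊔ b) := by
  have : a ⊔ b = ⨆ i : Bool, (cond i a b) := by
    rw [iSup_bool_eq]; rfl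
  rw [this]
  exact iSup hS fun i => by cases i <;> assumption

theorem compl {S : Set L} (hS : IsLowerSet S) {a : RO (MM L)} (ha : DepM S a) : DepM S aᶜ := by
  intro m hm n hn hna
  have h1 : res S n ≤ res S m := by
    have := res_mono hS hn
    rwa [res_idem] at this
  refine hm _ (glue_le hS h1) ?_
  apply mem_down (glue_le_head S _ _)
  rw [res_idem]
  exact ha n hna

theorem gen {S : Set L} (hS : IsLowerSet S) {m : MM L} (h : m.supp ⊆ S) :
    DepM S (RO.gen m) := by
  intro n hn
  rw [mem_gen] at hn ⊢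
  intro r hr
  have h1 : res S r ≤ res S n := by
    have := res_mono hS hr
    rwa [res_idem] at this
  obtain ⟨s, hs, hsm⟩ := hn _ (glue_le hS h1)
  have h2 : res S s ≤ res S r := by
    have := res_mono hS (hs.trans (glue_le_head S _ _))
    rwa [res_idem, res_idem] at this
  refine ⟨glue S (res S s) r, glue_le hS h2, ?_⟩
  refine (glue_le_head S _ _).trans ?_
  rw [res_idem]
  exact (le_iff_res_le hS h).1 hsm

end DepM

/-- The Cohen part of `m` on the coordinates in `S`. -/
noncomputable def resC (S : Set L) (m : MM L) : MM L := ⟨m.p.restr (cyl S), TT.empty⟩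

theorem le_resC (S : Set L) (m : MM L) : m ≤ resC S m :=
  mk_le_mk (Fn.le_restr _ _) (TT.le_empty _)

/-- The element `a` of the Mitchell algebra depends only on the Cohen reals in `S`. -/
def DepC (S : Set L) (a : RO (MM L)) : Prop := ∀ m, m ∈ a → resC S m ∈ a

namespace DepC

theorem mem_iff {S : Set L} {a : RO (MM L)} (h : DepC S a) (m : MM L) : m ∈ a ↔ resC S m ∈ a :=
  ⟨h m, fun h' => mem_down (le_resC S m) h'⟩

theorem depM {S : Set L} {a : RO (MM L)} (h : DepC S a) : DepM S a := by
  intro m hm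
  apply mem_down _ (h m hm)
  exact mk_le_mk le_rfl (TT.le_empty _)

theorem mono {S T : Set L} (hST : S ⊆ T) {a : RO (MM L)} (h : DepC S a) : DepC T a := by
  intro m hm
  apply mem_down _ (h m hm)
  refine mk_le_mk ?_ le_rfl
  intro x v hv
  rw [Fn.restr_f_eq_some] at hv ⊢
  exact ⟨hST hv.1, hv.2⟩

theorem inf {S : Set L} {a b : RO (MM L)} (ha : DepC S a) (hb : DepC S b) : DepC S (a ⊓ b) :=
  fun m h => ⟨ha m h.1, hb m h.2⟩

theorem iInf {S : Set L} {ι : Sort*} {a : ι → RO (MM L)} (h : ∀ i, DepC S (a i)) :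
    DepC S (⨅ i, a i) := fun m hm => mem_iInf.2 fun i => h i m (mem_iInf.1 hm i)

theorem iSup {S : Set L} {ι : Sort*} {a : ι → RO (MM L)}
    (h : ∀ i, DepC S (a i)) : DepC S (⨆ i, a i) := by
  intro m hm
  rw [mem_iSup]
  intro q hq
  -- extend `m` by the part of `q` on `S`
  let m' : MM L := ⟨(q.p.restr (cyl S)).union m.p, m.q⟩
  have hc : Fn.Compat (q.p.restr (cyl S)) m.p := by
    intro x v w hv hw
    rw [Fn.restr_f_eq_some] at hv
    have := hq.1 x w (Fn.restr_f_eq_some.2 ⟨hv.1, hw⟩)
    rw [hv.2] at this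
    exact Option.some.inj this
  have hm' : m' ≤ m := mk_le_mk (Fn.union_le_right hc) le_rfl
  obtain ⟨r, hr, i, hi⟩ := mem_iSup.1 hm _ hm'
  have hi' := h i r hi
  have hc2 : Fn.Compat (r.p.restr (cyl S)) q.p := by
    intro x v w hv hw
    rw [Fn.restr_f_eq_some] at hv
    have h1 : ((q.p.restr (cyl S)).union m.p).f x = some w :=
      Fn.union_f_of_some (Fn.restr_f_eq_some.2 ⟨hv.1, hw⟩)
    have := hr.1 x w h1
    rw [hv.2] at this
    exact Option.some.inj this
  refine ⟨⟨(r.p.restr (cyl S)).union q.p, q.q⟩, mk_le_mk (Fn.union_le_right hc2) le_rfl, i, ?_⟩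
  apply mem_down _ hi'
  exact mk_le_mk (Fn.union_le_left _ _) (TT.le_empty _)

theorem compl {S : Set L} {a : RO (MM L)} (ha : DepC S a) : DepC S aᶜ := by
  intro m hm n hn hna
  have hna' := ha n hna
  have hc : Fn.Compat (n.p.restr (cyl S)) m.p := by
    intro x v w hv hw
    rw [Fn.restr_f_eq_some] at hv
    have := hn.1 x w (Fn.restr_f_eq_some.2 ⟨hv.1, hw⟩)
    rw [hv.2] at this
    exact Option.some.inj this
  refine hm ⟨(n.p.restr (cyl S)).union m.p, m.q⟩ (mk_le_mk (Fn.union_le_right hc) le_rfl) ?_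
  apply mem_down _ hna'
  exact mk_le_mk (Fn.union_le_left _ _) (TT.le_empty _)

theorem gen {S : Set L} {p : Fn (L × ℕ) Bool} (h : p.dom ⊆ cyl S) :
    DepC S (RO.gen (⟨p, TT.empty⟩ : MM L)) := by
  intro m hm
  rw [mem_gen] at hm ⊢
  intro r hr
  have hc : Fn.Compat (r.p.restr (cyl S)) m.p := by
    intro x v w hv hw
    rw [Fn.restr_f_eq_some] at hv
    have := hr.1 x w (Fn.restr_f_eq_some.2 ⟨hv.1, hw⟩)
    rw [hv.2] at this
    exact Option.some.inj this
  obtain ⟨s, hs, hsp⟩ := hm ⟨(r.p.restr (cyl S)).union m.p, m.q⟩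
    (mk_le_mk (Fn.union_le_right hc) le_rfl)
  have hcp : Fn.Compat r.p p := by
    intro x v w hv hw
    have hx : x ∈ cyl S := h (Fn.mem_dom.2 ⟨w, hw⟩)
    have h1 := hsp.1 x w hw
    have h2 := hs.1 x v (Fn.union_f_of_some (Fn.restr_f_eq_some.2 ⟨hx, hv⟩))
    rw [h1] at h2
    exact (Option.some.inj h2).symm
  exact ⟨⟨r.p.union p, r.q⟩, mk_le_mk (Fn.union_le_left _ _) le_rfl,
    mk_le_mk (Fn.union_le_right hcp) (TT.le_empty _)⟩

end DepC

end Pool.Agent.Work.MP_dbe197_lc
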