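import Pool.Agent.Work.MP_dbe197_lc.Bd.B03
import Pool.Agent.Work.MP_dbe197_lc.Bd.B04
import Pool.Agent.Work.MP_dbe197_lc.EvKH

/-!
# The model of ZFC
-/

namespace Pool.Agent.Work.MP_dbe197_lc

open Set Cardinal

theorem dFull : ClaimFull := claimFull claimMixS
theorem dLos : ClaimLos := claimLos dFull claimCongr
theorem dNice2 : ClaimNice2 := claimNice2 claimNice1 claimCongr
theorem dZ1 : ClaimZ1 := claimZ1 dFull
theorem dZ2 : ClaimZ2 := claimZ2 dFull claimNice1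
theorem dZ3 : ClaimZ3 := claimZ3 dFull claimCongr dLos
theorem dZ4 : ClaimZ4 := claimZ4 dFull
theorem dEvCof : ClaimEvCof := claimEvCof claimNice1 dNice2 claimCongr
theorem dEvCtbl : ClaimEvCtbl := claimEvCtbl claimNice1 dNice2 claimCongr
theorem dEvStat : ClaimEvStat := claimEvStat claimNice1 claimCongr
theorem dEvSR : ClaimEvSR := claimEvSR claimNice1 claimCongr dEvCof dEvStat
theorem dEv0 : ClaimEv0 := claimEv0 claimNice1 dNice2 claimCongr
theorem dEvTP : ClaimEvTP := claimEvTP claimNice1 dNice2 claimCongr dFull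
theorem dEvKH : ClaimEvKH := claimEvKH claimNice1 dNice2 claimCongr dFull
theorem dEvP : ClaimEvP := claimEvP claimNice1 dNice2 claimCongr dFull dEvCtbl
theorem dEvDSS : ClaimEvDSS := claimEvDSS claimNice1 dNice2 claimCongr dEvCof dEvStat dEvCtbl dEvP
theorem dEvT : ClaimEvT := claimEvT claimNice1 dNice2 claimCongr
theorem dEvU : ClaimEvU := claimEvU claimNice1 dNice2 claimCongr
theorem dEvC : ClaimEvC := claimEvC claimNice1 dNice2 claimCongr

/-- The model. -/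
theorem main2 (κ : Cardinal.{0}) (hκ : LC κ) :
    ∃ (M : Type 1) (E : M → M → Prop), MZ.ZFC E ∧ ∃ w0 w1 w2, MZ.Good E w0 w1 w2 := by
  obtain ⟨B, inst, hnt, hB⟩ := main1 κ hκ
  obtain ⟨U, -⟩ := claimUfEx B ⊤ top_ne_bot
  have hne : Nonempty (OO κ) := by
    rw [← Cardinal.mk_ne_zero_iff]
    have := hκ.1.1.ne_zero
    rwa [Cardinal.mk_univ] at this
  refine ⟨MU U, EU U, zfc_of dZ1 dZ2 dZ3 dZ4 U, _, _, _,
    good_of dLos dEv0 dEvSR dEvTP dEvKH dEvDSS dEvT dEvU dEvC U ?_ hB⟩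
  have h1 : ℵ₀ ≤ #(OO κ) := by
    have := hκ.1.1.aleph0_lt.le
    rwa [Cardinal.mk_univ] at this
  have h2 : #(OO κ) = #(OO κ × ℕ) := by
    rw [Cardinal.mk_prod, Cardinal.lift_id, Cardinal.lift_id, Cardinal.mk_nat,
      Cardinal.mul_aleph0_eq h1]
  obtain ⟨e⟩ := Cardinal.eq.1 h2
  exact ⟨e, e.surjective⟩

end Pool.Agent.Work.MP_dbe197_lc
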