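import Pool.Agent.Work.MP_dbe197_lc.Fn

/-!
# The complete Boolean algebra of regular open subsets of a preorder
-/

namespace Pool.Agent.Work.MP_dbe197_lc

open Set

/-- Regular open (downward closed) subsets of a preorder. -/
structure RO (P : Type) [Preorder P] where
  carrier : Set P
  down : ∀ p q, q ≤ p → p ∈ carrier → q ∈ carrier
  reg : ∀ p, (∀ q ≤ p, ∃ r ≤ q, r ∈ carrier) → p ∈ carrier

namespace RO

variable {P : Type} [Preorder P]

instance : Membership P (RO P) := ⟨fun a p => p ∈ a.carrier⟩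

theorem mem_carrier {a : RO P} {p : P} : p ∈ a.carrier ↔ p ∈ a := Iff.rfl

theorem mem_down {a : RO P} {p q : P} (h : q ≤ p) (hp : p ∈ a) : q ∈ a := a.down p q h hp

theorem mem_reg {a : RO P} {p : P} (h : ∀ q ≤ p, ∃ r ≤ q, r ∈ a) : p ∈ a := a.reg p h

theorem mem_iff_dense {a : RO P} {p : P} : p ∈ a ↔ ∀ q ≤ p, ∃ r ≤ q, r ∈ a :=
  ⟨fun h q hq => ⟨q, le_refl q, mem_down hq h⟩, mem_reg⟩

theorem ext_mem {a b : RO P} (h : ∀ p, p ∈ a ↔ p ∈ b) : a = b := by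
  cases a; cases b; congr; ext p; exact h p

instance : PartialOrder (RO P) where
  le a b := ∀ p, p ∈ a → p ∈ b
  le_refl a p h := h
  le_trans a b c h1 h2 p h := h2 p (h1 p h)
  le_antisymm a b h1 h2 := ext_mem fun p => ⟨h1 p, h2 p⟩

theorem le_iff {a b : RO P} : a ≤ b ↔ ∀ p, p ∈ a → p ∈ b := Iff.rfl

/-- The regularization of a set. -/
def cl (s : Set P) : RO P where
  carrier := {p | ∀ q ≤ p, ∃ r ≤ q, ∃ t ∈ s, r ≤ t}
  down p q hqp hp r hr := hp r (hr.trans hqp)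
  reg p hp q hq := by
    obtain ⟨r, hr, h⟩ := hp q hq
    obtain ⟨t, ht, h'⟩ := h r (le_refl r)
    exact ⟨t, ht.trans hr, h'⟩

theorem mem_cl {s : Set P} {p : P} : p ∈ cl s ↔ ∀ q ≤ p, ∃ r ≤ q, ∃ t ∈ s, r ≤ t := Iff.rfl

/-- The infimum of a set of regular open sets. -/
def sInf' (S : Set (RO P)) : RO P where
  carrier := {p | ∀ a ∈ S, p ∈ a}
  down p q hqp hp a ha := mem_down hqp (hp a ha)
  reg p hp a ha := mem_reg fun q hq => by
    obtain ⟨r, hr, h⟩ := hp q hq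
    exact ⟨r, hr, h a ha⟩

/-- The supremum of a set of regular open sets. -/
def sSup' (S : Set (RO P)) : RO P where
  carrier := {p | ∀ q ≤ p, ∃ r ≤ q, ∃ a ∈ S, r ∈ a}
  down p q hqp hp r hr := hp r (hr.trans hqp)
  reg p hp q hq := by
    obtain ⟨r, hr, h⟩ := hp q hq
    obtain ⟨t, ht, h'⟩ := h r (le_refl r)
    exact ⟨t, ht.trans hr, h'⟩

instance : InfSet (RO P) := ⟨sInf'⟩
instance : SupSet (RO P) := ⟨sSup'⟩

theorem mem_sInf {S : Set (RO P)} {p : P} : p ∈ sInf S ↔ ∀ a ∈ S, p ∈ a := Iff.rfl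

theorem mem_sSup {S : Set (RO P)} {p : P} :
    p ∈ sSup S ↔ ∀ q ≤ p, ∃ r ≤ q, ∃ a ∈ S, r ∈ a := Iff.rfl

instance : Min (RO P) := ⟨fun a b =>
  { carrier := {p | p ∈ a ∧ p ∈ b}
    down := fun _ _ hqp hp => ⟨mem_down hqp hp.1, mem_down hqp hp.2⟩
    reg := fun p hp => ⟨mem_reg fun q hq => by
      obtain ⟨r, hr, h⟩ := hp q hq; exact ⟨r, hr, h.1⟩, mem_reg fun q hq => by
      obtain ⟨r, hr, h⟩ := hp q hq; exact ⟨r, hr, h.2⟩⟩ }⟩

theorem mem_inf {a b : RO P} {p : P} : p ∈ a ⊓ b ↔ p ∈ a ∧ p ∈ b := Iff.rfl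

instance : Max (RO P) := ⟨fun a b =>
  { carrier := {p | ∀ q ≤ p, ∃ r ≤ q, r ∈ a ∨ r ∈ b}
    down := fun _ _ hqp hp r hr => hp r (hr.trans hqp)
    reg := fun p hp q hq => by
      obtain ⟨r, hr, h⟩ := hp q hq
      obtain ⟨t, ht, h'⟩ := h r (le_refl r)
      exact ⟨t, ht.trans hr, h'⟩ }⟩

theorem mem_sup {a b : RO P} {p : P} : p ∈ a ⊔ b ↔ ∀ q ≤ p, ∃ r ≤ q, r ∈ a ∨ r ∈ b := Iff.rfl

instance : Top (RO P) := ⟨⟨Set.univ, fun _ _ _ _ => trivial, fun _ _ => trivial⟩⟩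

instance : Bot (RO P) := ⟨⟨∅, fun _ _ _ h => h, fun p h => by
  obtain ⟨r, _, hr⟩ := h p (le_refl p); exact hr⟩⟩

theorem mem_top (p : P) : p ∈ (⊤ : RO P) := trivial

theorem not_mem_bot (p : P) : p ∉ (⊥ : RO P) := fun h => h

instance : Compl (RO P) := ⟨fun a =>
  { carrier := {p | ∀ q ≤ p, q ∉ a}
    down := fun _ _ hqp hp r hr => hp r (hr.trans hqp)
    reg := fun p hp q hq hqa => by
      obtain ⟨r, hr, h⟩ := hp q hq
      exact h r (le_refl r) (mem_down hr hqa) }⟩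

theorem mem_compl {a : RO P} {p : P} : p ∈ aᶜ ↔ ∀ q ≤ p, q ∉ a := Iff.rfl

instance instLattice : Lattice (RO P) where
  sup := (· ⊔ ·)
  inf := (· ⊓ ·)
  le_sup_left a b p hp q hq := ⟨q, le_refl q, Or.inl (mem_down hq hp)⟩
  le_sup_right a b p hp q hq := ⟨q, le_refl q, Or.inr (mem_down hq hp)⟩
  sup_le a b c h1 h2 p hp := mem_reg fun q hq => by
    obtain ⟨r, hr, h | h⟩ := hp q hq
    · exact ⟨r, hr, h1 r h⟩
    · exact ⟨r, hr, h2 r h⟩
  inf_le_left a b p hp := hp.1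
  inf_le_right a b p hp := hp.2
  le_inf a b c h1 h2 p hp := ⟨h1 p hp, h2 p hp⟩

instance instDistribLattice : DistribLattice (RO P) :=
  { instLattice with
    le_sup_inf := by
      intro a b c p hp q hq
      obtain ⟨r, hr, h | h⟩ := hp.1 q hq
      · exact ⟨r, hr, Or.inl h⟩
      · obtain ⟨t, ht, h' | h'⟩ := hp.2 r (hr.trans hq)
        · exact ⟨t, ht.trans hr, Or.inl h'⟩
        · exact ⟨t, ht.trans hr, Or.inr ⟨mem_down ht h, h'⟩⟩ }

noncomputable instance instBooleanAlgebra : BooleanAlgebra (RO P) :=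
  { instDistribLattice with
    top := ⊤
    bot := ⊥
    compl := fun a => aᶜ
    sdiff := fun a b => a ⊓ bᶜ
    himp := fun a b => b ⊔ aᶜ
    inf_compl_le_bot := by
      intro a p hp
      exact absurd hp.1 (hp.2 p (le_refl p))
    top_le_sup_compl := by
      intro a p _ q _
      by_cases h : ∃ r ≤ q, r ∈ a
      · obtain ⟨r, hr, h⟩ := h
        exact ⟨r, hr, Or.inl h⟩
      · push Not at h
        exact ⟨q, le_refl q, Or.inr fun r hr hra => h r hr hra⟩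
    le_top := fun a p _ => trivial
    bot_le := fun a p hp => absurd hp (not_mem_bot p)
    sdiff_eq := fun _ _ => rfl
    himp_eq := fun _ _ => rfl }

noncomputable instance instCBA : CompleteBooleanAlgebra (RO P) :=
  { instBooleanAlgebra with
    sSup := sSup
    sInf := sInf
    isLUB_sSup := fun S => ⟨fun a ha p hp q hq => ⟨q, le_refl q, a, ha, mem_down hq hp⟩,
      fun b hb p hp => mem_reg fun q hq => by
        obtain ⟨r, hr, a, ha, h⟩ := hp q hq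
        exact ⟨r, hr, hb ha r h⟩⟩
    isGLB_sInf := fun S => ⟨fun a ha p hp => hp a ha, fun b hb p hp a ha => hb ha p hp⟩ }

theorem mem_iSup {ι : Sort*} {a : ι → RO P} {p : P} :
    p ∈ ⨆ i, a i ↔ ∀ q ≤ p, ∃ r ≤ q, ∃ i, r ∈ a i := by
  rw [iSup, mem_sSup]
  simp only [Set.mem_range, exists_exists_eq_and]

theorem mem_iInf {ι : Sort*} {a : ι → RO P} {p : P} : p ∈ ⨅ i, a i ↔ ∀ i, p ∈ a i := by
  rw [iInf, mem_sInf]
  simp only [Set.mem_range, forall_exists_index, forall_apply_eq_imp_iff]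

theorem ne_bot_iff {a : RO P} : a ≠ ⊥ ↔ ∃ p, p ∈ a := by
  constructor
  · intro h
    by_contra h'
    push Not at h'
    exact h (le_antisymm (fun p hp => absurd hp (h' p)) bot_le)
  · rintro ⟨p, hp⟩ rfl
    exact not_mem_bot p hp

theorem not_mem_iff {a : RO P} {p : P} : p ∉ a ↔ ∃ q ≤ p, q ∈ aᶜ := by
  constructor
  · intro h
    by_contra h'
    push Not at h'
    apply h
    apply mem_reg
    intro q hq
    have := h' q hq
    rw [mem_compl] at this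
    push Not at this
    obtain ⟨r, hr, hra⟩ := this
    exact ⟨r, hr, hra⟩
  · rintro ⟨q, hq, h⟩ hp
    exact h q (le_refl q) (mem_down hq hp)

theorem mem_or_exists {a : RO P} (p : P) : p ∈ a ∨ ∃ q ≤ p, q ∈ aᶜ := by
  by_cases h : p ∈ a
  · exact Or.inl h
  · exact Or.inr (not_mem_iff.1 h)

theorem not_mem_of_compl {a : RO P} {p : P} (h : p ∈ aᶜ) : p ∉ a := h p (le_refl p)

/-- The principal regular open set. -/
def gen (p : P) : RO P := cl {p}

theorem mem_gen {p q : P} : q ∈ gen p ↔ ∀ r ≤ q, ∃ s ≤ r, s ≤ p := by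
  simp [gen, mem_cl]

theorem self_mem_gen (p : P) : p ∈ gen p := mem_gen.2 fun r hr => ⟨r, le_refl r, hr⟩

theorem mem_gen_of_le {p q : P} (h : q ≤ p) : q ∈ gen p := mem_down h (self_mem_gen p)

theorem gen_le_iff {p : P} {a : RO P} : gen p ≤ a ↔ p ∈ a := by
  constructor
  · intro h; exact h p (self_mem_gen p)
  · intro h q hq
    apply mem_reg
    intro r hr
    obtain ⟨s, hs, hsp⟩ := mem_gen.1 hq r hr
    exact ⟨s, hs, mem_down hsp h⟩

theorem gen_mono {p q : P} (h : p ≤ q) : gen p ≤ gen q := gen_le_iff.2 (mem_gen_of_le h)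

theorem gen_ne_bot (p : P) : gen p ≠ ⊥ := ne_bot_iff.2 ⟨p, self_mem_gen p⟩

/-- An element of `gen p` can be extended below `p`. -/
theorem exists_le_of_mem_gen {p q : P} (h : q ∈ gen p) : ∃ r ≤ q, r ≤ p :=
  mem_gen.1 h q (le_refl q)

theorem mem_inf_gen_ne_bot {p : P} {a : RO P} : gen p ⊓ a ≠ ⊥ ↔ ∃ q ≤ p, q ∈ a := by
  rw [ne_bot_iff]
  constructor
  · rintro ⟨q, hq1, hq2⟩
    obtain ⟨r, hr, hrp⟩ := exists_le_of_mem_gen hq1
    exact ⟨r, hrp, mem_down hr hq2⟩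
  · rintro ⟨q, hq, h⟩
    exact ⟨q, mem_gen_of_le hq, h⟩

end RO

end Pool.Agent.Work.MP_dbe197_lc
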